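import Pool.Agent.N799.SP.FSize

/-!
# Zeros of `TT l Zf` force zeros of `ζ`
-/

set_option autoImplicit false

open Complex Metric Set Filter Topology

namespace Pool.Agent.N799.SP

open H345 (XX)
open H345.Chi (L2)

theorem F_to_zeta_aux (l : List ℂ) (ε : ℝ) (hε : 0 < ε) (hε1 : ε ≤ 1 / 2) : ∃ t₀ : ℝ, 4 ≤ t₀ ∧
    ∀ w0 : ℂ, 1 / 2 + ε ≤ w0.re → t₀ ≤ w0.im →
    (∀ w : ℂ, w0.re - ε ≤ w.re → |w.im - w0.im| ≤ ε → riemannZeta w ≠ 0) → TT l Zf w0 ≠ 0 := by
  obtain ⟨δ, L, hδ, hL, hLD⟩ := LD_list l (ε / 4) (ε / 8) 1 (by linarith) one_pos
  obtain ⟨C, hC, hright⟩ := zeta_right_bounds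
  obtain ⟨Cz, hCz, hgrow⟩ := zeta_growth
  obtain ⟨η, hη, hsmall⟩ := log_small (ε / 2) (δ / 12) (by positivity) (by linarith) (by positivity)
  obtain ⟨t1, ht1, hlg⟩ := log_large (max (max (L + 1) ((18 + C) * 4 / δ))
    (max ((4 * Real.pi + Real.log C + C) * 8 / η) (Real.log Cz + 2 * 1)))
  refine ⟨max t1 4, le_max_right _ _, ?_⟩
  intro w0 hw0re hw0im hne
  have ht : t1 ≤ w0.im := (le_max_left _ _).trans hw0im
  have ht4 : 4 ≤ w0.im := (le_max_right _ _).trans hw0im
  set T : ℝ := ‖w0 + 2‖ with hT
  have hTim : w0.im ≤ T := by
    have h1 := (le_abs_self _).trans (abs_im_le_norm (w0 + 2))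
    simpa using h1
  set ℓ := Real.log T with hℓ
  have hlogle : Real.log w0.im ≤ ℓ := Real.log_le_log (by linarith) hTim
  have hlogs := hlg w0.im ht
  have c1 : L + 1 ≤ ℓ := (((le_max_left _ _).trans (le_max_left _ _)).trans hlogs).trans hlogle
  have c2 : (18 + C) * 4 ≤ δ * ℓ := by
    have := (((le_max_right _ _).trans (le_max_left _ _)).trans hlogs).trans hlogle
    rw [div_le_iff₀ hδ] at this
    linarith
  have c3 : (4 * Real.pi + Real.log C + C) * 8 ≤ η * (Real.log w0.im) := by
    have := (((le_max_left _ _).trans (le_max_right _ _)).trans hlogs)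
    rw [div_le_iff₀ hη] at this
    linarith
  have c4 : Real.log Cz + 2 * 1 ≤ Real.log w0.im :=
    (((le_max_right _ _).trans (le_max_right _ _)).trans hlogs)
  have hlogC : 0 ≤ Real.log C := Real.log_nonneg hC
  have hlogCz : 0 ≤ Real.log Cz := Real.log_nonneg hCz
  have hℓ0 : 0 < ℓ := by linarith
  have hlogim0 : 0 < Real.log w0.im := by linarith
  have hball : LD Zf w0 (ε / 4) ℓ δ := by
    refine ⟨Zf_diffOn.mono fun z hz => ?_, fun z hz => ?_⟩
    · have := abs_lt.1 (ball_coords hz).2
      have h4 : 0 < z.im := by linarith
      exact h4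
    obtain ⟨hz1, hz2⟩ := ball_coords hz
    have hz1' := abs_lt.1 hz1
    have hz2' := abs_lt.1 hz2
    have hzne : riemannZeta z ≠ 0 := hne z (by linarith) (by linarith)
    obtain ⟨m1, m2⟩ := Zf_logDeriv (by linarith : 0 < z.re) (by linarith) hzne
    refine ⟨m1, ?_⟩
    rw [m2]
    have h1 := L2_far (by linarith : 0 < z.re) (by linarith : 1 ≤ z.im)
    have h2 : |Real.log ‖z + 2‖ - ℓ| ≤ 1 := by
      refine log_near (h := 1) (by norm_num) (by linarith) (by linarith) ?_
      refine (abs_norm_sub_norm_le (z + 2) (w0 + 2)).trans ?_
      rw [mem_ball, dist_eq_norm] at hz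
      have e : z + 2 - (w0 + 2) = z - w0 := by ring
      rw [e]
      linarith
    have h3 : ‖deriv riemannZeta z / riemannZeta z‖ ≤ δ / 2 * ℓ := by
      rcases le_or_gt (3 / 2) z.re with h | h
      · refine ((hright z h).2.2.2).trans ?_
        linarith
      · -- use `log_small`
        set y := z.im with hy
        have hylog : |Real.log y - Real.log w0.im| ≤ 1 :=
          log_near (h := 1) (by norm_num) (by linarith) (by linarith) (by linarith)
        have hylog' := abs_le.1 hylog
        set b : ℝ := min (w0.re - ε) 1 with hb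
        have hb1 : b ≤ 1 := min_le_right _ _
        have hb0 : 0 ≤ b := le_min (by linarith) (by norm_num)
        have hbw : b ≤ w0.re - ε := min_le_left _ _
        have hylow : 1 ≤ Real.log y := by linarith
        have c3' : (4 * Real.pi + Real.log C + C) * 4 ≤ η * (3 * Real.log y) := by
          have h5 : η * (Real.log w0.im) ≤ η * (2 * Real.log y) := by
            gcongr
            linarith
          have h6 : 0 ≤ η * Real.log y := by positivity
          have h7 : 0 ≤ 4 * Real.pi + Real.log C + C := by
            have := Real.pi_pos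
            positivity
          linarith
        have hreg : ∀ x ∈ Rc b 3 y (ε / 2), 3 ≤ x.im ∧ x.im ≤ 2 * y ∧ -(1 / 2) ≤ x.re := by
          rintro x ⟨k1, k2, k3⟩
          have := abs_lt.1 k3
          exact ⟨by linarith, by linarith, by linarith⟩
        have hpi := Real.pi_pos
        have key := hsmall (3 * Real.log y) b y riemannZeta hb0 hb1 (by linarith)
          (fun x hx => (differentiableAt_riemannZeta
            (ne_one_of_im (by linarith [(hreg x hx).1]))).differentiableWithinAt)
          (fun x hx => by
            rcases le_or_gt (w0.re - ε) x.re with k | k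
            · refine hne x k ?_
              calc |x.im - w0.im| = |(x.im - y) + (y - w0.im)| := by congr 1; ring
                _ ≤ |x.im - y| + |y - w0.im| := abs_add_le _ _
                _ ≤ ε := by linarith [hx.2.2]
            · have : b = 1 := by
                rw [hb]
                apply min_eq_right
                by_contra hcon
                push Not at hcon
                have h5 : b = w0.re - ε := min_eq_left hcon.le
                have := hx.1
                linarith
              exact riemannZeta_ne_zero_of_one_le_re (by linarith [hx.1]))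
          (fun x hx => by
            obtain ⟨k1, k2, k3⟩ := hreg x hx
            have h5 := hgrow x k3 (by linarith)
            have h6 : x.im ≤ Real.exp (Real.log w0.im + 1 / 2) := by
              have e1 : Real.exp (Real.log w0.im + 1 / 2) = w0.im * Real.exp (1 / 2) := by
                rw [Real.exp_add, Real.exp_log (by linarith)]
              rw [e1]
              have e2 : (3 / 2 : ℝ) ≤ Real.exp (1 / 2) := by
                have := Real.add_one_le_exp (1 / 2 : ℝ)
                linarith
              have e3 : x.im ≤ w0.im + 1 := by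
                have := abs_lt.1 hx.2.2
                linarith
              nlinarith
            have h7 : Real.exp (2 * (Real.log w0.im + 1 / 2)) = Real.exp (Real.log w0.im + 1 / 2) ^ 2 := by
              rw [← Real.exp_nat_mul]; norm_num
            have h8 : 0 ≤ x.im := by linarith
            calc ‖riemannZeta x‖ ≤ Cz * x.im ^ 2 := h5
              _ ≤ Real.exp (Real.log Cz) * Real.exp (2 * (Real.log w0.im + 1 / 2)) := by
                rw [Real.exp_log (by linarith), h7]
                gcongr
              _ = Real.exp (Real.log Cz + 2 * (Real.log w0.im + 1 / 2)) := by rw [← Real.exp_add]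
              _ ≤ Real.exp (3 * Real.log y) := by
                apply Real.exp_le_exp.2
                have hylog2 : Real.log w0.im - 1 / 4 ≤ Real.log y := by
                  have e1 : w0.im * Real.exp (-(1 / 4)) ≤ y := by
                    have e2 : Real.exp (-(1 / 4)) ≤ 7 / 8 := by
                      rw [Real.exp_neg]
                      have := Real.add_one_le_exp (1 / 4 : ℝ)
                      rw [inv_le_comm₀ (Real.exp_pos _) (by norm_num)]
                      norm_num
                      linarith
                    have e3 : w0.im * Real.exp (-(1 / 4)) ≤ w0.im * (7 / 8) := by gcongr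
                    linarith
                  have e4 := Real.log_le_log (by positivity) e1
                  rw [Real.log_mul (by linarith) (Real.exp_pos _).ne', Real.log_exp] at e4
                  linarith
                linarith)
          (by
            obtain ⟨k1, k2, k3, k4⟩ := hright (⟨2, y⟩ : ℂ) (by simp only; norm_num)
            have e1 := Real.log_le_log (by positivity) k3
            have e2 := Real.log_le_log (norm_pos_iff.2 k1) k2
            rw [Real.log_inv] at e1
            rw [abs_le]
            constructor <;> linarith)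
          (fun x hx => by
            have h5 := abs_lt.1 (ball_coords hx).1
            simp only at h5
            refine ((hright x (by linarith)).2.2.2).trans ?_
            linarith) z rfl (by linarith) (by linarith)
        refine key.2.trans ?_
        have h5 : Real.log y ≤ ℓ + 1 := by linarith
        have h6 : δ / 12 * (3 * Real.log y) ≤ δ / 12 * (3 * (ℓ + 1)) := by gcongr
        have h7 : δ * 1 ≤ δ * ℓ := by
          gcongr
          linarith
        linarith
    have e : L2 z + deriv riemannZeta z / riemannZeta z - (ℓ : ℂ) =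
        (L2 z - (Real.log ‖z + 2‖ : ℂ)) + ((Real.log ‖z + 2‖ - ℓ : ℝ) : ℂ) +
        deriv riemannZeta z / riemannZeta z := by
      push_cast
      ring
    rw [e]
    refine (norm_add_le _ _).trans ((add_le_add (norm_add_le _ _) le_rfl).trans ?_)
    rw [Complex.norm_real, Real.norm_eq_abs]
    linarith
  exact ((hLD Zf w0 ℓ (by linarith) hball).1.2 w0 (mem_ball_self (by positivity))).1

/-- Zeros of `TT l Zf` force zeros of `ζ`. -/
theorem F_to_zeta (l : List ℂ) (ε : ℝ) (hε : 0 < ε) : ∃ t₀ : ℝ, 4 ≤ t₀ ∧
    ∀ w0 : ℂ, 1 / 2 + ε ≤ w0.re → t₀ ≤ w0.im → TT l Zf w0 = 0 →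
    ∃ w : ℂ, Zf w = 0 ∧ w0.re - ε ≤ w.re ∧ |w.im - w0.im| ≤ ε := by
  obtain ⟨t₀, ht₀, h⟩ := F_to_zeta_aux l (min ε (1 / 2)) (by positivity) (min_le_right _ _)
  refine ⟨t₀, ht₀, fun w0 h1 h2 h3 => ?_⟩
  have hm : min ε (1 / 2) ≤ ε := min_le_left _ _
  have hm2 : min ε (1 / 2) ≤ 1 / 2 := min_le_right _ _
  by_contra hcon
  push Not at hcon
  refine h w0 (by linarith) h2 ?_ h3
  intro w k1 k2 k3
  have k4 := hcon w (by
    have k5 := abs_le.1 k2
    rw [Zf_eq (by linarith) (by linarith), k3, mul_zero]) (by linarith)
  linarith

end Pool.Agent.N799.SP
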