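import Pool.Agent.N799.SP.MainA
import Pool.Agent.N799.SP.MainB

/-!
# Zeros of constant coefficient differential polynomials in `ζ`
-/

set_option autoImplicit false

open Complex Metric Set Filter Topology Polynomial

namespace Pool.Agent.N799.SP

/-! ### algebra of `TT` -/

theorem T1_neg (a : ℂ) (f : ℂ → ℂ) : T1 a (fun w => -f w) = fun w => -(T1 a f w) := by
  funext w
  simp only [T1]
  have : deriv (fun w => -f w) w = -deriv f w := deriv.fun_neg
  rw [this]
  ring

theorem TT_neg (l : List ℂ) : ∀ f : ℂ → ℂ, TT l (fun w => -f w) = fun w => -(TT l f w) := by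
  induction l with
  | nil => intro f; rfl
  | cons a l ih =>
    intro f
    simp only [TT_cons]
    rw [T1_neg, ih]

theorem TT_refl (l : List ℂ) : ∀ (f : ℂ → ℂ) (w : ℂ), TT l f (1 - w) =
    (-1) ^ l.length * TT (l.map (fun a => -a)) (fun w => f (1 - w)) w := by
  induction l with
  | nil => intro f w; simp
  | cons a l ih =>
    intro f w
    simp only [TT_cons, List.map_cons, List.length_cons]
    rw [ih]
    have h : (fun w => T1 a f (1 - w)) = fun w => -(T1 (-a) (fun w => f (1 - w)) w) := by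
      funext w
      simp only [T1]
      rw [deriv_comp_const_sub]
      ring
    rw [h, TT_neg]
    ring

theorem TT_conj (l : List ℂ) : ∀ (f : ℂ → ℂ) (w : ℂ), TT l f ((starRingEnd ℂ) w) =
    (starRingEnd ℂ) (TT (l.map (starRingEnd ℂ)) (fun w => (starRingEnd ℂ) (f ((starRingEnd ℂ) w))) w) := by
  induction l with
  | nil => intro f w; simp
  | cons a l ih =>
    intro f w
    simp only [TT_cons, List.map_cons]
    rw [ih]
    have h : (fun w => (starRingEnd ℂ) (T1 a f ((starRingEnd ℂ) w))) =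
        T1 ((starRingEnd ℂ) a) (fun w => (starRingEnd ℂ) (f ((starRingEnd ℂ) w))) := by
      funext w
      simp only [T1]
      have h1 : deriv (fun w => (starRingEnd ℂ) (f ((starRingEnd ℂ) w))) w =
          (starRingEnd ℂ) (deriv f ((starRingEnd ℂ) w)) := by
        have := congrFun (deriv_conj_conj (f := f)) w
        simpa [Function.comp_def] using this
      rw [h1, map_sub, map_mul]
    rw [h]

theorem zeta_star : (fun w => (starRingEnd ℂ) (riemannZeta ((starRingEnd ℂ) w))) = riemannZeta := by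
  funext w
  rw [riemannZeta_conj, Complex.conj_conj]

/-- passage between `ζ` and `Zf` -/
theorem TT_zeta (l : List ℂ) (w : ℂ) : TT l riemannZeta (1 - w) = 0 ↔
    TT (l.map (fun a => -a)) Zf w = 0 := by
  rw [TT_refl]
  have h : (fun w => riemannZeta (1 - w)) = Zf := rfl
  rw [h]
  have h1 : ((-1 : ℂ)) ^ l.length ≠ 0 := pow_ne_zero _ (by norm_num)
  rw [mul_eq_zero]
  exact ⟨fun h => h.resolve_left h1, Or.inr⟩

theorem TT_zeta_conj (l : List ℂ) (s : ℂ) : TT l riemannZeta ((starRingEnd ℂ) s) = 0 ↔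
    TT (l.map (starRingEnd ℂ)) riemannZeta s = 0 := by
  rw [TT_conj, zeta_star, map_eq_zero]

theorem zeta_conj_zero (s : ℂ) : riemannZeta ((starRingEnd ℂ) s) = 0 ↔ riemannZeta s = 0 := by
  rw [riemannZeta_conj, map_eq_zero]

/-! ### zeros, in terms of lists -/

/-- lower half plane version -/
theorem A_low (l : List ℂ) (ε : ℝ) (hε : 0 < ε) : ∃ H t₀ : ℝ, 0 < H ∧ 4 ≤ t₀ ∧ ∀ s : ℂ,
    riemannZeta s = 0 → s.re ≤ 1 / 2 - ε → s.im ≤ -t₀ →
    ∃ z : ℂ, TT l riemannZeta z = 0 ∧ z.re ≤ s.re + ε ∧ |z.im - s.im| ≤ H := by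
  obtain ⟨H, t₀, hH, ht₀, h⟩ := zeta_to_F (l.map (fun a => -a)) ε hε
  refine ⟨H, t₀, hH, ht₀, fun s hs h1 h2 => ?_⟩
  have hZ : Zf (1 - s) = 0 := by
    unfold Zf
    rw [sub_sub_cancel, hs]
  have hre : (1 - s).re = 1 - s.re := by simp
  have him : (1 - s).im = -s.im := by simp
  have hlt : (1 - s).re < 1 := by
    by_contra hcon
    push Not at hcon
    have h3 := riemannZeta_ne_zero_of_one_le_re hcon
    have h4 := (Zf_logDeriv (w := 1 - s) (by linarith) (by rw [him]; linarith) h3).1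
    exact h4 hZ
  obtain ⟨w, k1, k2, k3⟩ := h (1 - s) (by rw [hre]; linarith) hlt (by rw [him]; linarith) hZ
  refine ⟨1 - w, (TT_zeta l w).2 k1, ?_, ?_⟩
  · rw [hre] at k2
    simp only [sub_re, one_re]
    linarith
  · rw [him] at k3
    have e : (1 - w).im - s.im = -(w.im - -s.im) := by simp; ring
    rw [e, abs_neg]
    exact k3

/-- zeros of `ζ` force zeros of `TT l ζ` -/
theorem A_list (l : List ℂ) (ε : ℝ) (hε : 0 < ε) : ∃ H t₀ : ℝ, 0 < H ∧ 4 ≤ t₀ ∧ ∀ s : ℂ,
    riemannZeta s = 0 → s.re ≤ 1 / 2 - ε → t₀ ≤ |s.im| →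
    ∃ z : ℂ, TT l riemannZeta z = 0 ∧ z.re ≤ s.re + ε ∧ |z.im - s.im| ≤ H := by
  obtain ⟨H1, t1, hH1, ht1, h1⟩ := A_low l ε hε
  obtain ⟨H2, t2, hH2, ht2, h2⟩ := A_low (l.map (starRingEnd ℂ)) ε hε
  refine ⟨max H1 H2, max t1 t2, lt_max_of_lt_left hH1, le_max_of_le_left ht1, fun s hs h3 h4 => ?_⟩
  rcases le_or_gt 0 s.im with h5 | h5
  · rw [abs_of_nonneg h5] at h4
    obtain ⟨z, k1, k2, k3⟩ := h2 ((starRingEnd ℂ) s) ((zeta_conj_zero s).2 hs) (by simpa using h3)
      (by
        rw [conj_im]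
        have := (le_max_right t1 t2).trans h4
        linarith)
    refine ⟨(starRingEnd ℂ) z, (TT_zeta_conj l z).2 k1, by simpa using k2, ?_⟩
    rw [conj_im] at k3 ⊢
    have e : -z.im - s.im = -(z.im - -s.im) := by ring
    rw [e, abs_neg]
    exact k3.trans (le_max_right _ _)
  · rw [abs_of_neg h5] at h4
    obtain ⟨z, k1, k2, k3⟩ := h1 s hs h3 (by
        have := (le_max_left t1 t2).trans h4
        linarith)
    exact ⟨z, k1, k2, k3.trans (le_max_left _ _)⟩

theorem B_low (l : List ℂ) (ε : ℝ) (hε : 0 < ε) : ∃ t₀ : ℝ, 4 ≤ t₀ ∧ ∀ s : ℂ,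
    TT l riemannZeta s = 0 → s.re ≤ 1 / 2 - ε → s.im ≤ -t₀ →
    ∃ z : ℂ, riemannZeta z = 0 ∧ z.re ≤ s.re + ε ∧ |z.im - s.im| ≤ ε := by
  obtain ⟨t₀, ht₀, h⟩ := F_to_zeta (l.map (fun a => -a)) ε hε
  refine ⟨t₀, ht₀, fun s hs h1 h2 => ?_⟩
  have hre : (1 - s).re = 1 - s.re := by simp
  have him : (1 - s).im = -s.im := by simp
  obtain ⟨w, k1, k2, k3⟩ := h (1 - s) (by rw [hre]; linarith) (by rw [him]; linarith) (by
    rw [← TT_zeta, sub_sub_cancel, hs])
  refine ⟨1 - w, k1, ?_, ?_⟩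
  · rw [hre] at k2
    simp only [sub_re, one_re]
    linarith
  · rw [him] at k3
    have e : (1 - w).im - s.im = -(w.im - -s.im) := by simp; ring
    rw [e, abs_neg]
    exact k3

theorem B_list (l : List ℂ) (ε : ℝ) (hε : 0 < ε) : ∃ t₀ : ℝ, 4 ≤ t₀ ∧ ∀ s : ℂ,
    TT l riemannZeta s = 0 → s.re ≤ 1 / 2 - ε → t₀ ≤ |s.im| →
    ∃ z : ℂ, riemannZeta z = 0 ∧ z.re ≤ s.re + ε ∧ |z.im - s.im| ≤ ε := by
  obtain ⟨t1, ht1, h1⟩ := B_low l ε hε
  obtain ⟨t2, ht2, h2⟩ := B_low (l.map (starRingEnd ℂ)) ε hε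
  refine ⟨max t1 t2, le_max_of_le_left ht1, fun s hs h3 h4 => ?_⟩
  rcases le_or_gt 0 s.im with h5 | h5
  · rw [abs_of_nonneg h5] at h4
    obtain ⟨z, k1, k2, k3⟩ := h2 ((starRingEnd ℂ) s) (by
        rw [← TT_zeta_conj, Complex.conj_conj]; exact hs) (by simpa using h3)
      (by
        rw [conj_im]
        have := (le_max_right t1 t2).trans h4
        linarith)
    refine ⟨(starRingEnd ℂ) z, (zeta_conj_zero z).2 k1, by simpa using k2, ?_⟩
    rw [conj_im] at k3 ⊢
    have e : -z.im - s.im = -(z.im - -s.im) := by ring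
    rw [e, abs_neg]
    exact k3
  · rw [abs_of_neg h5] at h4
    exact h1 s hs h3 (by
        have := (le_max_left t1 t2).trans h4
        linarith)

/-! ### polynomials -/

/-- the functional `p ↦ (p(d/ds) f)(z)` -/
noncomputable def ev (f : ℂ → ℂ) (z : ℂ) : ℂ[X] →ₗ[ℂ] ℂ :=
  Polynomial.lsum fun j => LinearMap.toSpanSingleton ℂ ℂ (iteratedDeriv j f z)

theorem ev_apply (f : ℂ → ℂ) (z : ℂ) (p : ℂ[X]) :
    ev f z p = p.sum fun j a => a * iteratedDeriv j f z := by
  simp only [ev]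
  rfl

theorem ev_monomial (f : ℂ → ℂ) (z : ℂ) (n : ℕ) (a : ℂ) :
    ev f z (monomial n a) = a * iteratedDeriv n f z := by
  rw [ev_apply, Polynomial.sum_monomial_index]
  simp

theorem iteratedDeriv_T1 {U : Set ℂ} (hU : IsOpen U) (a : ℂ) {f : ℂ → ℂ}
    (hf : DifferentiableOn ℂ f U) {z : ℂ} (hz : z ∈ U) (n : ℕ) :
    iteratedDeriv n (T1 a f) z = iteratedDeriv (n + 1) f z - a * iteratedDeriv n f z := by
  have hfa : AnalyticAt ℂ f z := hf.analyticAt (hU.mem_nhds hz)
  have hfc : ContDiffAt ℂ n f z := hfa.contDiffAt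
  have hdc : ContDiffAt ℂ n (deriv f) z := (hfa.deriv).contDiffAt
  have h1 : T1 a f = fun z => deriv f z - a * f z := rfl
  rw [h1, iteratedDeriv_fun_sub hdc (contDiffAt_const.mul hfc), iteratedDeriv_succ', 
    iteratedDeriv_const_mul_field]

theorem ev_T1 {U : Set ℂ} (hU : IsOpen U) (a : ℂ) {f : ℂ → ℂ}
    (hf : DifferentiableOn ℂ f U) {z : ℂ} (hz : z ∈ U) (p : ℂ[X]) :
    ev (T1 a f) z p = ev f z (p * (X - C a)) := by
  induction p using Polynomial.induction_on' with
  | add p q hp hq => rw [map_add, hp, hq, add_mul, map_add]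
  | monomial n c =>
    have e : (monomial n c : ℂ[X]) * (X - C a) = monomial (n + 1) c - monomial n (c * a) := by
      rw [mul_sub, monomial_mul_X, monomial_mul_C]
    rw [e, map_sub, ev_monomial, ev_monomial, ev_monomial, iteratedDeriv_T1 hU a hf hz]
    ring

theorem TT_eq_ev {U : Set ℂ} (hU : IsOpen U) (l : List ℂ) : ∀ {f : ℂ → ℂ},
    DifferentiableOn ℂ f U → ∀ z ∈ U, TT l f z = ev f z ((l.map (fun a => X - C a)).prod) := by
  induction l with
  | nil =>
    intro f hf z hz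
    simp only [TT_nil, List.map_nil, List.prod_nil]
    have : (1 : ℂ[X]) = monomial 0 1 := rfl
    rw [this, ev_monomial]
    simp
  | cons a l ih =>
    intro f hf z hz
    simp only [TT_cons, List.map_cons, List.prod_cons]
    rw [ih (T1_diff hU a hf) z hz, ev_T1 hU a hf hz, mul_comm]

theorem poly_zeros (p : ℂ[X]) (hp : p ≠ 0) : ∃ l : List ℂ, ∀ s : ℂ, s ≠ 1 →
    ((p.sum fun j a => a * iteratedDeriv j riemannZeta s) = 0 ↔ TT l riemannZeta s = 0) := by
  refine ⟨p.roots.toList, fun s hs => ?_⟩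
  have hU : IsOpen ({1}ᶜ : Set ℂ) := isOpen_compl_singleton
  have hd : DifferentiableOn ℂ riemannZeta ({1}ᶜ : Set ℂ) := fun z hz =>
    (differentiableAt_riemannZeta hz).differentiableWithinAt
  rw [TT_eq_ev hU _ hd s hs, ← ev_apply]
  have h1 := (IsAlgClosed.splits p).eq_prod_roots
  have h2 : (p.roots.toList.map (fun a => X - C a)).prod = (p.roots.map (X - C ·)).prod := by
    rw [← Multiset.prod_coe, ← Multiset.map_coe, Multiset.coe_toList]
  have h3 : p = p.leadingCoeff • (p.roots.toList.map (fun a => X - C a)).prod := by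
    rw [h2, ← C_mul']
    exact h1
  have h4 : p.leadingCoeff ≠ 0 := leadingCoeff_ne_zero.2 hp
  have h5 : ev riemannZeta s p = p.leadingCoeff *
      ev riemannZeta s (p.roots.toList.map (fun a => X - C a)).prod := by
    conv_lhs => rw [h3]
    rw [map_smul, smul_eq_mul]
  rw [h5, mul_eq_zero]
  exact ⟨fun h => h.resolve_left h4, Or.inr⟩

/-! ### zero-free half-planes -/

theorem zeta_zero_re {s : ℂ} (h : riemannZeta s = 0) (him : 1 < |s.im|) : 0 < s.re ∧ s.re < 1 := by
  have h1 : ∀ s : ℂ, riemannZeta s = 0 → 1 < |s.im| → s.re < 1 := by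
    intro s hs _
    by_contra hcon
    push Not at hcon
    exact riemannZeta_ne_zero_of_one_le_re hcon hs
  refine ⟨?_, h1 s h him⟩
  by_contra hcon
  push Not at hcon
  have hne : ∀ n : ℕ, 1 - s ≠ -n := by
    intro n hn
    have := congrArg Complex.im hn
    simp at this
    rw [this] at him
    simp at him
    linarith
  have hne1 : 1 - s ≠ 1 := by
    intro hn
    have := congrArg Complex.im hn
    simp at this
    rw [this] at him
    simp at him
    linarith
  have h2 := riemannZeta_one_sub hne hne1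
  rw [sub_sub_cancel, h] at h2
  have hre : 1 ≤ (1 - s).re := by simp; linarith
  have h3 := riemannZeta_ne_zero_of_one_le_re hre
  have h4 : Complex.Gamma (1 - s) ≠ 0 := Complex.Gamma_ne_zero_of_re_pos (by linarith)
  have h5 : (2 * (Real.pi : ℂ)) ^ (-(1 - s)) ≠ 0 := by
    rw [Complex.cpow_ne_zero_iff]
    left
    exact_mod_cast (by positivity : (2 * Real.pi) ≠ 0)
  have h6 : Complex.cos (Real.pi * (1 - s) / 2) ≠ 0 := by
    intro hc
    obtain ⟨k, hk⟩ := Complex.cos_eq_zero_iff.1 hc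
    have h7 := congrArg Complex.im hk
    have e1 : ((Real.pi : ℂ) * (1 - s) / 2).im = Real.pi / 2 * (1 - s).im := by
      have : (Real.pi : ℂ) * (1 - s) / 2 = ((Real.pi / 2 : ℝ) : ℂ) * (1 - s) := by
        push_cast; ring
      rw [this, im_ofReal_mul]
    have e2 : (((2 * (k : ℂ) + 1) * Real.pi / 2)).im = 0 := by
      have : ((2 * (k : ℂ) + 1) * Real.pi / 2) = (((2 * (k : ℝ) + 1) * Real.pi / 2 : ℝ) : ℂ) := by
        push_cast; ring
      rw [this, ofReal_im]
    rw [e1, e2] at h7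
    have h8 : (1 - s).im = 0 := by
      rcases mul_eq_zero.1 h7 with h | h
      · exact absurd h (by positivity)
      · exact h
    simp at h8
    rw [h8] at him
    simp at him
    linarith
  exact (mul_ne_zero (mul_ne_zero (mul_ne_zero (mul_ne_zero two_ne_zero h5) h4) h6) h3) h2.symm

theorem zeta_reflect {z : ℂ} (h : riemannZeta z = 0) (him : z.im ≠ 0) : riemannZeta (1 - z) = 0 := by
  have hne : ∀ n : ℕ, z ≠ -n := by
    intro n hn
    apply him
    rw [hn]
    simp
  rw [riemannZeta_one_sub hne (ne_one_of_im him), h, mul_zero]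

/-- zeros of bounded height stay away from the line `Re s = 1` -/
theorem low_zeros (T : ℝ) : ∃ r : ℝ, 0 < r ∧ ∀ s : ℂ, 1 - r < s.re → |s.im| ≤ T →
    riemannZeta s ≠ 0 := by
  set U : Set ℂ := interior {s : ℂ | riemannZeta s ≠ 0} with hU
  set L : Set ℂ := (fun t : ℝ => (1 : ℂ) + t * I) '' Icc (-T) T with hL
  have hLc : IsCompact L := isCompact_Icc.image (by fun_prop)
  have hLU : L ⊆ U := by
    rintro _ ⟨t, _, rfl⟩
    rw [hU, mem_interior_iff_mem_nhds]
    rcases eq_or_ne t 0 with ht | ht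
    · subst ht
      simp only [ofReal_zero, zero_mul, add_zero]
      have h1 := riemannZeta_residue_one
      have h2 : ∀ᶠ s in 𝓝[≠] (1 : ℂ), (s - 1) * riemannZeta s ≠ 0 :=
        h1.eventually (isOpen_ne.mem_nhds one_ne_zero)
      have h3 : ∀ᶠ s in 𝓝[≠] (1 : ℂ), riemannZeta s ≠ 0 := by
        filter_upwards [h2] with s hs h0
        exact hs (by rw [h0, mul_zero])
      rw [eventually_nhdsWithin_iff] at h3
      filter_upwards [h3] with s hs
      by_cases h4 : s = 1
      · rw [h4]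
        exact riemannZeta_ne_zero_of_one_le_re (by simp)
      · exact hs h4
    · have h1 : (1 : ℂ) + t * I ≠ 1 := ne_one_of_im (by simpa using ht)
      have h2 := (differentiableAt_riemannZeta h1).continuousAt
      exact h2.eventually (isOpen_ne.mem_nhds (riemannZeta_ne_zero_of_one_le_re (by simp)))
  obtain ⟨r, hr, hrU⟩ := hLc.exists_thickening_subset_open isOpen_interior hLU
  refine ⟨r, hr, fun s h1 h2 => ?_⟩
  rcases le_or_gt 1 s.re with h3 | h3
  · exact riemannZeta_ne_zero_of_one_le_re h3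
  · have h4 : s ∈ Metric.thickening r L := by
      rw [Metric.mem_thickening_iff]
      refine ⟨1 + s.im * I, ⟨s.im, abs_le.1 h2, rfl⟩, ?_⟩
      have e : s - (1 + s.im * I) = (((s.re - 1 : ℝ)) : ℂ) := by
        apply Complex.ext <;> simp
      rw [dist_eq_norm, e, Complex.norm_real, Real.norm_eq_abs, abs_lt]
      constructor <;> linarith
    exact interior_subset (hrU h4)

/-- Zero-free half-planes. -/
theorem half_plane (l : List ℂ) :
    (∃ σ₀ : ℝ, 1 / 2 < σ₀ ∧ σ₀ < 1 ∧ ∀ s : ℂ, σ₀ ≤ s.re → riemannZeta s ≠ 0) ↔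
    ∃ δ t₀ : ℝ, 0 < δ ∧ ∀ s : ℂ, s.re < δ → t₀ ≤ |s.im| → TT l riemannZeta s ≠ 0 := by
  constructor
  · rintro ⟨σ₀, h1, h2, h3⟩
    obtain ⟨t₀, ht₀, hB⟩ := B_list l ((1 - σ₀) / 2) (by linarith)
    refine ⟨(1 - σ₀) / 2, t₀, by linarith, fun s hs ht h0 => ?_⟩
    obtain ⟨z, k1, k2, k3⟩ := hB s h0 (by linarith) ht
    have hz : z.im ≠ 0 := by
      intro h4
      rw [h4, zero_sub, abs_neg] at k3
      linarith
    refine h3 (1 - z) ?_ (zeta_reflect k1 hz)
    simp only [sub_re, one_re]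
    linarith
  · rintro ⟨δ, t₀, hδ, h⟩
    set ε : ℝ := min δ (1 / 2) / 3 with hε
    have hε0 : 0 < ε := by positivity
    have hε1 : 3 * ε ≤ δ := by rw [hε]; linarith [min_le_left δ (1 / 2)]
    have hε2 : 3 * ε ≤ 1 / 2 := by rw [hε]; linarith [min_le_right δ (1 / 2)]
    obtain ⟨H, t1, hH, ht1, hA⟩ := A_list l ε hε0
    set T : ℝ := max t1 (t₀ + H) with hT
    have hleft : ∀ s : ℂ, s.re ≤ ε → T ≤ |s.im| → riemannZeta s ≠ 0 := by
      intro s hs him h0
      obtain ⟨z, k1, k2, k3⟩ := hA s h0 (by linarith) ((le_max_left _ _).trans him)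
      refine h z (by linarith) ?_ k1
      have h4 := (le_max_right _ _).trans him
      have h5 : |s.im| ≤ |z.im| + |z.im - s.im| := by
        have h6 := abs_sub_abs_le_abs_sub s.im z.im
        rw [abs_sub_comm] at h6
        linarith
      linarith
    have hright : ∀ s : ℂ, 1 - ε ≤ s.re → T ≤ |s.im| → riemannZeta s ≠ 0 := by
      intro s hs him h0
      have h4 : s.im ≠ 0 := by
        intro h5
        rw [h5, abs_zero] at him
        have := (le_max_left t1 (t₀ + H)).trans him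
        linarith
      refine hleft (1 - s) ?_ ?_ (zeta_reflect h0 h4)
      · simp only [sub_re, one_re]
        linarith
      · have : (1 - s).im = -s.im := by simp
        rw [this, abs_neg]
        exact him
    obtain ⟨r, hr, hlow⟩ := low_zeros T
    refine ⟨max (1 - ε) (1 - r / 2), lt_max_of_lt_left (by linarith),
      max_lt (by linarith) (by linarith), fun s hs => ?_⟩
    rcases le_or_gt T |s.im| with h4 | h4
    · exact hright s ((le_max_left _ _).trans hs) h4
    · exact hlow s (by linarith [(le_max_right (1 - ε) (1 - r / 2)).trans hs]) h4.le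

/-- The main theorem. -/
theorem main (p : ℂ[X]) (hp : p ≠ 0) :
    (∀ ε : ℝ, 0 < ε → ∃ H t₀ : ℝ,
      (∀ s : ℂ, riemannZeta s = 0 → s.re ≤ 1 / 2 - ε → t₀ ≤ |s.im| →
        ∃ z : ℂ, (p.sum fun j a => a * iteratedDeriv j riemannZeta z) = 0 ∧ z.re ≤ s.re + ε ∧
          |z.im - s.im| ≤ H) ∧
      (∀ s : ℂ, (p.sum fun j a => a * iteratedDeriv j riemannZeta s) = 0 → s.re ≤ 1 / 2 - ε →
        t₀ ≤ |s.im| → ∃ z : ℂ, riemannZeta z = 0 ∧ z.re ≤ s.re + ε ∧ |z.im - s.im| ≤ ε)) ∧
    ((∃ σ₀ : ℝ, 1 / 2 < σ₀ ∧ σ₀ < 1 ∧ ∀ s : ℂ, σ₀ ≤ s.re → riemannZeta s ≠ 0) ↔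
      ∃ δ t₀ : ℝ, 0 < δ ∧ ∀ s : ℂ, s.re < δ → t₀ ≤ |s.im| →
        (p.sum fun j a => a * iteratedDeriv j riemannZeta s) ≠ 0) := by
  obtain ⟨l, hl⟩ := poly_zeros p hp
  constructor
  · intro ε hε
    obtain ⟨H, t1, hH, ht1, hA⟩ := A_list l ε hε
    obtain ⟨t2, ht2, hB⟩ := B_list l ε hε
    refine ⟨H, max (t1 + H) t2, ?_, ?_⟩
    · intro s hs h1 h2
      have h2' := (le_max_left _ _).trans h2
      obtain ⟨z, k1, k2, k3⟩ := hA s hs h1 (by linarith)
      refine ⟨z, (hl z ?_).2 k1, k2, k3⟩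
      intro hz
      rw [hz, one_im, zero_sub, abs_neg] at k3
      linarith
    · intro s hs h1 h2
      have h2' := (le_max_right _ _).trans h2
      refine hB s ((hl s ?_).1 hs) h1 h2'
      intro hz
      rw [hz, one_im, abs_zero] at h2'
      linarith
  · rw [half_plane l]
    constructor
    · rintro ⟨δ, t₀, hδ, h⟩
      refine ⟨δ, max t₀ 1, hδ, fun s hs ht h0 => ?_⟩
      refine h s hs ((le_max_left _ _).trans ht) ((hl s ?_).1 h0)
      intro hz
      have := (le_max_right t₀ 1).trans ht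
      rw [hz, one_im, abs_zero] at this
      linarith
    · rintro ⟨δ, t₀, hδ, h⟩
      refine ⟨δ, max t₀ 1, hδ, fun s hs ht h0 => ?_⟩
      refine h s hs ((le_max_left _ _).trans ht) ((hl s ?_).2 h0)
      intro hz
      have := (le_max_right t₀ 1).trans ht
      rw [hz, one_im, abs_zero] at this
      linarith

end Pool.Agent.N799.SP
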