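import Mathlib
import Pool.Agent.H31R2.DH.Circ

/-!
# Propagation of smallness for the logarithm of a zero-free function
-/

set_option autoImplicit false

open Complex Metric Set Filter Topology

namespace Pool.Agent.N799.SP

/-- one step of the propagation of smallness -/
theorem prop_one (δ : ℝ) (hδ : 0 < δ) : ∃ η : ℝ, 0 < η ∧ ∀ (c : ℂ) (ρ : ℝ) (h : ℂ → ℂ),
    0 < ρ → DifferentiableOn ℂ h (ball c ρ) → (∀ z ∈ ball c ρ, (h z).re ≤ 1) →
    (∀ z ∈ ball c (ρ / 4), ‖h z‖ ≤ η) → ∀ z ∈ ball c (ρ / 2), ‖h z‖ ≤ δ := by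
  obtain ⟨K, hK⟩ : ∃ K : ℕ, 39 * (2 / 3 : ℝ) ^ K ≤ δ / 2 := by
    obtain ⟨K, hK⟩ := exists_pow_lt_of_lt_one (show 0 < δ / 78 by positivity)
      (show (2 / 3 : ℝ) < 1 by norm_num)
    exact ⟨K, by linarith⟩
  set S : ℝ := ∑ n ∈ Finset.range K, (4 : ℝ) ^ n with hS
  have hS0 : 0 ≤ S := Finset.sum_nonneg fun _ _ => by positivity
  refine ⟨min 1 (δ / (2 * (S + 1))), by positivity, ?_⟩
  intro c ρ h hρ hd hre hsm z hz
  set η : ℝ := min 1 (δ / (2 * (S + 1))) with hη
  have hη1 : η ≤ 1 := min_le_left _ _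
  have hη2 : η * (S + 1) ≤ δ / 2 := by
    have : η ≤ δ / (2 * (S + 1)) := min_le_right _ _
    calc η * (S + 1) ≤ δ / (2 * (S + 1)) * (S + 1) := by gcongr
      _ = δ / 2 := by field_simp
  have hη0 : 0 < η := by positivity
  -- Borel-Caratheodory
  have hBC : ∀ w ∈ sphere c (3 * ρ / 4), ‖h w‖ ≤ 13 := by
    intro w hw
    have hwn : ‖w - c‖ = 3 * ρ / 4 := by rwa [mem_sphere, dist_eq_norm] at hw
    have h1 := Complex.borelCaratheodory (f := fun z => h (c + z)) (M := 1) (R := ρ) (z := w - c)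
      one_pos (by
        refine hd.comp (by fun_prop) ?_
        intro x hx
        rw [mem_ball_zero_iff] at hx
        rw [mem_ball, dist_eq_norm, add_sub_cancel_left]
        exact hx) (by
        intro x hx
        rw [mem_ball_zero_iff] at hx
        apply hre
        rw [mem_ball, dist_eq_norm, add_sub_cancel_left]
        exact hx) hρ (by
        rw [mem_ball_zero_iff, hwn]; linarith)
    simp only [add_sub_cancel, add_zero] at h1
    rw [hwn] at h1
    have h2 : ‖h c‖ ≤ η := hsm c (mem_ball_self (by positivity))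
    have e1 : 2 * 1 * (3 * ρ / 4) / (ρ - 3 * ρ / 4) = 6 := by
      have : ρ - 3 * ρ / 4 = ρ / 4 := by ring
      rw [this]; field_simp; norm_num
    have e2 : ‖h c‖ * (ρ + 3 * ρ / 4) / (ρ - 3 * ρ / 4) = 7 * ‖h c‖ := by
      have : ρ - 3 * ρ / 4 = ρ / 4 := by ring
      rw [this]; field_simp; ring
    rw [e1, e2] at h1
    linarith
  have h3 := DH31.circle_bound (f := h) (c := c) (z := z) (r := ρ / 2) (s0 := ρ / 8) (s := 3 * ρ / 4)
    (R := ρ) (m := η) (M := 13) (by positivity) (by positivity) (by positivity) (by linarith)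
    (by linarith) (by linarith) hd (by
      intro w hw
      apply hsm
      rw [mem_sphere] at hw
      rw [mem_ball, hw]
      linarith) hBC (by
      rw [mem_ball, dist_eq_norm] at hz
      exact hz.le) K
  have e3 : ρ / 2 / (ρ / 8) = 4 := by field_simp; norm_num
  have e4 : ρ / 2 / (3 * ρ / 4) = 2 / 3 := by field_simp; norm_num
  rw [e3, e4] at h3
  have e5 : (1 : ℝ) - 2 / 3 = 1 / 3 := by norm_num
  rw [e5] at h3
  calc ‖h z‖ ≤ η * S + 13 * (2 / 3) ^ K / (1 / 3) := h3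
    _ = η * S + 39 * (2 / 3) ^ K := by ring
    _ ≤ δ := by nlinarith

/-- a chain of steps to the left -/
theorem prop_chain (n : ℕ) : ∀ δ : ℝ, 0 < δ → ∃ η : ℝ, 0 < η ∧ ∀ m ≤ n, ∀ (c : ℂ) (ρ : ℝ) (h : ℂ → ℂ),
    0 < ρ → (∀ k ≤ m, DifferentiableOn ℂ h (ball (c - ((k * (ρ / 4) : ℝ) : ℂ)) ρ)) →
    (∀ k ≤ m, ∀ z ∈ ball (c - ((k * (ρ / 4) : ℝ) : ℂ)) ρ, (h z).re ≤ 1) →
    (∀ z ∈ ball c (ρ / 4), ‖h z‖ ≤ η) →
    ∀ z ∈ ball (c - ((m * (ρ / 4) : ℝ) : ℂ)) (ρ / 2), ‖h z‖ ≤ δ := by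
  induction n with
  | zero =>
    intro δ hδ
    obtain ⟨η, hη, h1⟩ := prop_one δ hδ
    refine ⟨η, hη, fun m hm c ρ h hρ hd hre hsm => ?_⟩
    have hm0 : m = 0 := by omega
    subst hm0
    have e : c - (((0 : ℕ) * (ρ / 4) : ℝ) : ℂ) = c := by push_cast; ring
    have hd0 := hd 0 le_rfl
    have hre0 := hre 0 le_rfl
    rw [e] at hd0 hre0 ⊢
    exact h1 c ρ h hρ hd0 hre0 hsm
  | succ n ih =>
    intro δ hδ
    obtain ⟨η', hη', h1⟩ := prop_one δ hδ
    obtain ⟨η, hη, h2⟩ := ih (min δ η') (by positivity)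
    refine ⟨η, hη, fun m hm c ρ h hρ hd hre hsm => ?_⟩
    rcases Nat.lt_or_ge m (n + 1) with hlt | hge
    · intro z hz
      exact (h2 m (by omega) c ρ h hρ hd hre hsm z hz).trans (min_le_left _ _)
    · have hmn : m = n + 1 := by omega
      subst hmn
      have h3 := h2 n le_rfl c ρ h hρ (fun k hk => hd k (by omega)) (fun k hk => hre k (by omega)) hsm
      refine h1 _ ρ h hρ (hd (n + 1) le_rfl) (hre (n + 1) le_rfl) ?_
      intro z hz
      refine (h3 z ?_).trans (min_le_right _ _)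
      rw [mem_ball] at hz ⊢
      have hdist : dist (c - (((n + 1 : ℕ) * (ρ / 4) : ℝ) : ℂ)) (c - ((n * (ρ / 4) : ℝ) : ℂ)) = ρ / 4 := by
        rw [dist_eq_norm]
        have : c - (((n + 1 : ℕ) * (ρ / 4) : ℝ) : ℂ) - (c - ((n * (ρ / 4) : ℝ) : ℂ)) =
            ((-(ρ / 4) : ℝ) : ℂ) := by push_cast; ring
        rw [this, Complex.norm_real, Real.norm_eq_abs, abs_neg, abs_of_pos (by positivity)]
      have := dist_triangle z (c - (((n + 1 : ℕ) * (ρ / 4) : ℝ) : ℂ)) (c - ((n * (ρ / 4) : ℝ) : ℂ))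
      linarith

/-- holomorphic logarithm on convex open sets -/
theorem exists_log {U : Set ℂ} (hU : IsOpen U) (hc : Convex ℝ U) {f : ℂ → ℂ}
    (hf : DifferentiableOn ℂ f U) (hne : ∀ z ∈ U, f z ≠ 0) :
    ∃ g : ℂ → ℂ, DifferentiableOn ℂ g U ∧ ∀ z ∈ U, Complex.exp (g z) = f z := by
  rcases U.eq_empty_or_nonempty with rfl | hnonempty
  · exact ⟨f, differentiableOn_empty, fun z hz => absurd hz (notMem_empty z)⟩
  have hcs : ContractibleSpace U := hc.contractibleSpace hnonempty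
  have hs : IsSimplyConnected U := by
    unfold IsSimplyConnected
    infer_instance
  obtain ⟨g, hgc, hg⟩ := Complex.exists_continuousOn_eqOn_exp_comp hs hU hf.continuousOn (by
    rintro ⟨z, hz, h0⟩
    exact hne z hz h0)
  have hg' : ∀ z ∈ U, Complex.exp (g z) = f z := fun z hz => hg hz
  refine ⟨g, ?_, hg'⟩
  intro z₀ hz₀
  have hnhds := hU.mem_nhds hz₀
  have hgca : ContinuousAt g z₀ := hgc.continuousAt hnhds
  have hfd : DifferentiableAt ℂ f z₀ := hf.differentiableAt hnhds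
  have hev : g =ᶠ[𝓝 z₀] fun z => g z₀ + Complex.log (f z / f z₀) := by
    have h1 : ∀ᶠ z in 𝓝 z₀, ‖g z - g z₀‖ < 1 := by
      have := (hgca.sub continuousAt_const).norm (f := fun z => g z - g z₀)
      have h2 : Tendsto (fun z => ‖g z - g z₀‖) (𝓝 z₀) (𝓝 ‖g z₀ - g z₀‖) := this
      rw [sub_self, norm_zero] at h2
      exact h2.eventually (gt_mem_nhds one_pos)
    filter_upwards [h1, hnhds] with z hz hzΩ
    have him : |(g z - g z₀).im| < Real.pi := by
      have h3 := Complex.abs_im_le_norm (g z - g z₀)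
      have h4 := Real.pi_gt_three
      linarith
    rw [← hg' z hzΩ, ← hg' z₀ hz₀, ← Complex.exp_sub, Complex.log_exp (abs_lt.1 him).1
      (abs_lt.1 him).2.le]
    ring
  have hdiff : DifferentiableAt ℂ (fun z => g z₀ + Complex.log (f z / f z₀)) z₀ := by
    apply DifferentiableAt.const_add
    apply DifferentiableAt.clog
    · exact hfd.div_const _
    · rw [div_self (hne z₀ hz₀)]
      exact Complex.one_mem_slitPlane
  exact (hev.differentiableAt_iff.2 hdiff).differentiableWithinAt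

/-- open rectangle -/
def Rc (a b y h : ℝ) : Set ℂ := {w : ℂ | a < w.re ∧ w.re < b ∧ |w.im - y| < h}

theorem Rc_eq (a b y h : ℝ) : Rc a b y h = {w : ℂ | a < w.re} ∩ ({w : ℂ | w.re < b} ∩
    ({w : ℂ | y - h < w.im} ∩ {w : ℂ | w.im < y + h})) := by
  ext w
  simp only [Rc, mem_ofPred_eq, mem_inter_iff, abs_lt]
  constructor
  · rintro ⟨h1, h2, h3, h4⟩
    exact ⟨h1, h2, by linarith, by linarith⟩
  · rintro ⟨h1, h2, h3, h4⟩
    exact ⟨h1, h2, by linarith, by linarith⟩

theorem Rc_open (a b y h : ℝ) : IsOpen (Rc a b y h) := by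
  rw [Rc_eq]
  exact (isOpen_lt continuous_const continuous_re).inter
    ((isOpen_lt continuous_re continuous_const).inter
      ((isOpen_lt continuous_const continuous_im).inter (isOpen_lt continuous_im continuous_const)))

theorem Rc_convex (a b y h : ℝ) : Convex ℝ (Rc a b y h) := by
  rw [Rc_eq]
  exact (convex_halfSpace_re_gt a).inter ((convex_halfSpace_re_lt b).inter
    ((convex_halfSpace_im_gt _).inter (convex_halfSpace_im_lt _)))

theorem ball_sub_Rc {a b y h r : ℝ} {c : ℂ} (h1 : a ≤ c.re - r) (h2 : c.re + r ≤ b)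
    (h3 : |c.im - y| + r ≤ h) : ball c r ⊆ Rc a b y h := by
  intro w hw
  rw [mem_ball, dist_eq_norm] at hw
  have h4 := (abs_le.1 ((abs_re_le_norm (w - c)).trans hw.le))
  have h4' := lt_of_le_of_lt (abs_re_le_norm (w - c)) hw
  have h5' := lt_of_le_of_lt (abs_im_le_norm (w - c)) hw
  rw [sub_re] at h4'
  rw [sub_im] at h5'
  rw [abs_lt] at h4'
  refine ⟨by linarith, by linarith, ?_⟩
  calc |w.im - y| = |(w.im - c.im) + (c.im - y)| := by congr 1; ring
    _ ≤ |w.im - c.im| + |c.im - y| := abs_add_le _ _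
    _ < h := by linarith

/-- The logarithm of a zero-free function is small compared with its upper bound. -/
theorem log_small (ρ δ : ℝ) (hρ : 0 < ρ) (hρ1 : ρ ≤ 1 / 2) (hδ : 0 < δ) :
    ∃ η : ℝ, 0 < η ∧ ∀ (M b y : ℝ) (Q : ℂ → ℂ), 0 ≤ b → b ≤ 1 → 4 * Real.pi ≤ η * M →
      DifferentiableOn ℂ Q (Rc b 3 y ρ) → (∀ w ∈ Rc b 3 y ρ, Q w ≠ 0) →
      (∀ w ∈ Rc b 3 y ρ, ‖Q w‖ ≤ Real.exp M) → |Real.log ‖Q ⟨2, y⟩‖| ≤ η * M / 4 →
      (∀ w ∈ ball (⟨2, y⟩ : ℂ) (ρ / 4), ‖deriv Q w / Q w‖ ≤ η * M / 4) →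
      ∀ w : ℂ, w.im = y → b + ρ ≤ w.re → w.re ≤ 2 →
        |Real.log ‖Q w‖| ≤ δ * M ∧ ‖deriv Q w / Q w‖ ≤ δ * M := by
  obtain ⟨η, hη, hch⟩ := prop_chain ⌈8 / ρ⌉₊ (min δ (δ * ρ / 8)) (by positivity)
  refine ⟨η, hη, ?_⟩
  intro M b y Q hb0 hb1 hM hQd hQ0 hQM hQc hQl w hwy hwb hw2
  have hMpos : 0 < M := by
    by_contra hcon
    push Not at hcon
    have : η * M ≤ 0 := mul_nonpos_of_nonneg_of_nonpos hη.le hcon
    linarith [Real.pi_pos]
  have hOp := Rc_open b 3 y ρ
  obtain ⟨g, hgd, hg⟩ := exists_log hOp (Rc_convex b 3 y ρ) hQd hQ0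
  set c : ℂ := ⟨2, y⟩ with hc
  have hcR : c ∈ Rc b 3 y ρ := by
    refine ⟨by simp [hc]; linarith, by simp [hc]; norm_num, by simp [hc]; exact hρ⟩
  -- normalised logarithm
  set G : ℂ → ℂ := fun z => g z - g c + Complex.log (Q c) with hG
  have hGd : DifferentiableOn ℂ G (Rc b 3 y ρ) := (hgd.sub_const _).add_const _
  have hGe : ∀ z ∈ Rc b 3 y ρ, Complex.exp (G z) = Q z := by
    intro z hz
    simp only [hG]
    rw [Complex.exp_add, Complex.exp_sub, Complex.exp_log (hQ0 c hcR), hg z hz, hg c hcR]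
    have := hQ0 c hcR
    field_simp
  have hGderiv : ∀ z ∈ Rc b 3 y ρ, deriv G z = deriv Q z / Q z := by
    intro z hz
    have h1 : HasDerivAt G (deriv G z) z := (hGd.differentiableAt (hOp.mem_nhds hz)).hasDerivAt
    have h2 := h1.cexp
    have h3 : (fun x => Complex.exp (G x)) =ᶠ[𝓝 z] Q := by
      filter_upwards [hOp.mem_nhds hz] with x hx using hGe x hx
    have h4 : HasDerivAt Q (Complex.exp (G z) * deriv G z) z := h2.congr_of_eventuallyEq h3.symm
    rw [h4.deriv, hGe z hz]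
    have := hQ0 z hz
    field_simp
  have hGre : ∀ z ∈ Rc b 3 y ρ, (G z).re = Real.log ‖Q z‖ := by
    intro z hz
    rw [← hGe z hz, Complex.norm_exp, Real.log_exp]
  -- the centre
  have hGc : ‖G c‖ ≤ η * M / 4 + Real.pi := by
    have e : G c = Complex.log (Q c) := by simp [hG]
    rw [e]
    refine (Complex.norm_le_abs_re_add_abs_im _).trans ?_
    have h1 : |(Complex.log (Q c)).re| ≤ η * M / 4 := by rw [Complex.log_re]; exact hQc
    have h2 : |(Complex.log (Q c)).im| ≤ Real.pi := by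
      rw [Complex.log_im]; exact Complex.abs_arg_le_pi _
    linarith
  have hballc : ball c (ρ / 4) ⊆ Rc b 3 y ρ := by
    apply ball_sub_Rc
    · simp only [hc]; linarith
    · simp only [hc]; linarith
    · simp only [hc, sub_self, abs_zero]; linarith
  have hGb : ∀ z ∈ ball c (ρ / 4), ‖G z‖ ≤ η * M := by
    intro z hz
    have h1 := (convex_ball c (ρ / 4)).norm_image_sub_le_of_norm_deriv_le (f := G) (C := η * M / 4)
      (fun x hx => hGd.differentiableAt (hOp.mem_nhds (hballc hx)))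
      (fun x hx => by rw [hGderiv x (hballc hx)]; exact hQl x hx)
      (mem_ball_self (by positivity)) hz
    have h2 : ‖z - c‖ ≤ 1 := by
      rw [mem_ball, dist_eq_norm] at hz
      linarith
    have h3 : η * M / 4 * ‖z - c‖ ≤ η * M / 4 := by
      have : 0 ≤ η * M / 4 := by positivity
      nlinarith
    have h4 : ‖G z‖ ≤ ‖G z - G c‖ + ‖G c‖ := by
      have := norm_add_le (G z - G c) (G c)
      rwa [sub_add_cancel] at this
    have h5 : 0 < η * M := by positivity
    linarith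
  -- the rescaled function
  set h : ℂ → ℂ := fun z => G z / (M : ℂ) with hh
  have hhd : DifferentiableOn ℂ h (Rc b 3 y ρ) := hGd.div_const _
  have hhre : ∀ z ∈ Rc b 3 y ρ, (h z).re ≤ 1 := by
    intro z hz
    simp only [hh, Complex.div_ofReal_re]
    rw [div_le_one hMpos, hGre z hz]
    have hq := norm_pos_iff.2 (hQ0 z hz)
    rw [Real.log_le_iff_le_exp hq]
    exact hQM z hz
  have hhn : ∀ z, ‖h z‖ = ‖G z‖ / M := by
    intro z
    simp only [hh]
    rw [norm_div, Complex.norm_real, Real.norm_of_nonneg hMpos.le]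
  -- the step
  set m : ℕ := ⌊(2 - w.re) / (ρ / 4)⌋₊ with hm
  have hq4 : 0 < ρ / 4 := by positivity
  have hx0 : 0 ≤ (2 - w.re) / (ρ / 4) := div_nonneg (by linarith) hq4.le
  have hm1 : (m : ℝ) * (ρ / 4) ≤ 2 - w.re := by
    have := Nat.floor_le hx0
    rwa [le_div_iff₀ hq4] at this
  have hm2 : 2 - w.re < ((m : ℝ) + 1) * (ρ / 4) := by
    have := Nat.lt_floor_add_one ((2 - w.re) / (ρ / 4))
    rwa [div_lt_iff₀ hq4] at this
  have hmn : m ≤ ⌈8 / ρ⌉₊ := by
    have h1 : (m : ℝ) ≤ 8 / ρ := by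
      rw [le_div_iff₀ hρ]
      have : w.re ≥ 0 := by linarith
      nlinarith
    exact_mod_cast h1.trans (Nat.le_ceil _)
  have hball : ∀ k ≤ m, ball (c - ((k * (ρ / 4) : ℝ) : ℂ)) ρ ⊆ Rc b 3 y ρ := by
    intro k hk
    have hk' : (k : ℝ) * (ρ / 4) ≤ m * (ρ / 4) := by
      have : (k : ℝ) ≤ m := by exact_mod_cast hk
      gcongr
    have hk0 : (0 : ℝ) ≤ k * (ρ / 4) := by positivity
    have hre : (c - ((k * (ρ / 4) : ℝ) : ℂ)).re = 2 - k * (ρ / 4) := by
      rw [sub_re, ofReal_re]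
    have him : (c - ((k * (ρ / 4) : ℝ) : ℂ)).im = y := by
      rw [sub_im, ofReal_im, sub_zero]
    apply ball_sub_Rc
    · rw [hre]; linarith
    · rw [hre]; linarith
    · rw [him, sub_self, abs_zero]; linarith
  have hfin := hch m hmn c ρ h hρ (fun k hk => hhd.mono (hball k hk))
    (fun k hk z hz => hhre z (hball k hk hz)) (fun z hz => by
      rw [hhn, div_le_iff₀ hMpos]; exact hGb z hz)
  -- `w` is in the last disc
  set cm : ℂ := c - ((m * (ρ / 4) : ℝ) : ℂ) with hcm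
  have hwc : dist w cm ≤ ρ / 4 := by
    have e : w - cm = (((w.re - (2 - m * (ρ / 4))) : ℝ) : ℂ) := by
      apply Complex.ext
      · simp [hcm, hc]
      · simp [hcm, hc, hwy]
    rw [dist_eq_norm, e, Complex.norm_real, Real.norm_eq_abs, abs_le]
    constructor
    · linarith
    · linarith
  have hwb2 : ball w (ρ / 4) ⊆ ball cm (ρ / 2) := by
    apply ball_subset_ball'
    linarith
  have hwR : ball w (ρ / 4) ⊆ Rc b 3 y ρ := by
    refine hwb2.trans ((ball_subset_ball ?_).trans (hball m le_rfl))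
    linarith
  have hww : w ∈ ball w (ρ / 4) := mem_ball_self (by positivity)
  have hbd : ∀ z ∈ ball w (ρ / 4), ‖h z‖ ≤ min δ (δ * ρ / 8) := fun z hz => hfin z (hwb2 hz)
  constructor
  · have h1 := hbd w hww
    rw [hhn, div_le_iff₀ hMpos] at h1
    rw [← hGre w (hwR hww)]
    refine (abs_re_le_norm _).trans (h1.trans ?_)
    gcongr
    exact min_le_left _ _
  · have h2 := Complex.norm_deriv_le_of_forall_mem_sphere_norm_le (f := h) (c := w) (R := ρ / 8)
      (C := δ * ρ / 8) (by positivity) (by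
        apply DifferentiableOn.diffContOnCl
        refine hhd.mono (Subset.trans ?_ hwR)
        exact closure_ball_subset_closedBall.trans (closedBall_subset_ball (by linarith))) (by
        intro z hz
        refine (hbd z ?_).trans (min_le_right _ _)
        rw [mem_sphere] at hz
        rw [mem_ball, hz]
        linarith)
    have h3 : deriv h w = deriv G w / (M : ℂ) := by
      simp only [hh]
      rw [deriv_div_const]
    rw [h3, norm_div, Complex.norm_real, Real.norm_of_nonneg hMpos.le, div_le_iff₀ hMpos,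
      hGderiv w (hwR hww)] at h2
    refine h2.trans (le_of_eq ?_)
    field_simp

end Pool.Agent.N799.SP
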