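import Pool.Agent.N799.SP.Ode
import Pool.Agent.N799.SP.Prop

/-!
# Solving the equation `TT l E = F` with a good size
-/

set_option autoImplicit false

open Complex Metric Set Filter Topology

namespace Pool.Agent.N799.SP

/-- `G` has the size `exp ((re w - 1/2) ℓ)` and is free of zeros to the right of `a`. -/
def Good (G : ℂ → ℂ) (Ω : Set ℂ) (ℓ x a δ : ℝ) : Prop :=
  DifferentiableOn ℂ G Ω ∧ (∀ w ∈ Ω, ‖G w‖ ≤ Real.exp ((max w.re x - 1 / 2 + δ) * ℓ)) ∧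
  ∀ w ∈ Ω, a ≤ w.re → G w ≠ 0 ∧ ‖deriv G w / G w - ℓ‖ ≤ δ * ℓ ∧
    Real.exp ((w.re - 1 / 2 - δ) * ℓ) ≤ ‖G w‖

theorem two_mul_le_exp {c x : ℝ} (hc : 0 < c) (hx : 4 / c ^ 2 ≤ x) : 2 * x ≤ Real.exp (c * x) := by
  have hx0 : 0 < x := lt_of_lt_of_le (by positivity) hx
  have h1 : (c * x) ^ 2 / 2 ≤ Real.exp (c * x) := by
    have h2 := Real.quadratic_le_exp_of_nonneg (show 0 ≤ c * x by positivity)
    nlinarith [mul_pos hc hx0]
  have h3 : 4 ≤ x * c ^ 2 := by rwa [div_le_iff₀ (by positivity)] at hx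
  nlinarith

theorem exp_small {η δ ℓ : ℝ} (hη : 0 < η) (hδ0 : 0 < δ) (hℓ0 : 0 < ℓ)
    (h4 : 4 / (η / 8) ^ 2 ≤ ℓ) (h5 : 8 / (η * δ) ≤ ℓ) : 2 * Real.exp (-(η / 4 * ℓ)) ≤ δ / ℓ := by
  have h7 := two_mul_le_exp (show 0 < η / 8 by positivity) h4
  have h16 := Real.exp_pos (η / 8 * ℓ)
  have h9 : δ⁻¹ ≤ Real.exp (η / 8 * ℓ) := by
    rw [div_le_iff₀ (by positivity)] at h5
    have h11 : η / 8 * ℓ ≤ Real.exp (η / 8 * ℓ) := by linarith [Real.add_one_le_exp (η / 8 * ℓ)]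
    refine le_trans ?_ h11
    rw [inv_le_iff_one_le_mul₀ hδ0]
    linarith
  have h12 : Real.exp (-(η / 4 * ℓ)) = (Real.exp (η / 8 * ℓ))⁻¹ * (Real.exp (η / 8 * ℓ))⁻¹ := by
    rw [← Real.exp_neg, ← Real.exp_add]
    congr 1
    ring
  have h13 : (Real.exp (η / 8 * ℓ))⁻¹ ≤ δ := by
    apply inv_le_of_inv_le₀ hδ0 h9
  have h14 : 2 * (Real.exp (η / 8 * ℓ))⁻¹ ≤ 1 / ℓ := by
    rw [le_div_iff₀ hℓ0, mul_comm 2, mul_assoc, inv_mul_le_iff₀ h16]
    linarith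
  rw [h12]
  calc 2 * ((Real.exp (η / 8 * ℓ))⁻¹ * (Real.exp (η / 8 * ℓ))⁻¹)
      = (2 * (Real.exp (η / 8 * ℓ))⁻¹) * (Real.exp (η / 8 * ℓ))⁻¹ := by ring
    _ ≤ (1 / ℓ) * δ := by gcongr
    _ = δ / ℓ := by ring

/-- growth of a zero-free function with large logarithmic derivative -/
theorem growth_of_LD {Ω : Set ℂ} (hΩ : IsOpen Ω) (hc : Convex ℝ Ω) {A : ℂ → ℂ} {ℓ δ : ℝ}
    (hA : DifferentiableOn ℂ A Ω) (h : ∀ z ∈ Ω, A z ≠ 0 ∧ ‖deriv A z / A z - ℓ‖ ≤ δ * ℓ)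
    {z w : ℂ} (hz : z ∈ Ω) (hw : w ∈ Ω) (him : z.im = w.im) (hre : z.re ≤ w.re) :
    ‖A z‖ ≤ ‖A w‖ * Real.exp (-((1 - δ) * ℓ * (w.re - z.re))) := by
  obtain ⟨g, hgd, hg⟩ := exists_log hΩ hc hA (fun z hz => (h z hz).1)
  have hder : ∀ x ∈ Ω, HasDerivAt (fun z => g z - ℓ * z) (deriv A x / A x - ℓ) x := by
    intro x hx
    have h1 : HasDerivAt g (deriv g x) x := (hgd.differentiableAt (hΩ.mem_nhds hx)).hasDerivAt
    have h2 := h1.cexp
    have h3 : (fun x => Complex.exp (g x)) =ᶠ[𝓝 x] A := by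
      filter_upwards [hΩ.mem_nhds hx] with u hu using hg u hu
    have h4 : HasDerivAt A (Complex.exp (g x) * deriv g x) x := h2.congr_of_eventuallyEq h3.symm
    have h5 : deriv g x = deriv A x / A x := by
      rw [h4.deriv, hg x hx]
      have := (h x hx).1
      field_simp
    rw [← h5]
    have h6 := h1.sub ((hasDerivAt_id x).const_mul (ℓ : ℂ))
    refine h6.congr_deriv ?_
    simp
  have hMV := hc.norm_image_sub_le_of_norm_hasDerivWithin_le (f := fun z => g z - ℓ * z)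
    (f' := fun x => deriv A x / A x - ℓ) (C := δ * ℓ)
    (fun x hx => (hder x hx).hasDerivWithinAt) (fun x hx => (h x hx).2) hw hz
  have e1 : ‖z - w‖ = w.re - z.re := by
    have : z - w = ((-(w.re - z.re) : ℝ) : ℂ) := by
      apply Complex.ext
      · simp
      · simp [him]
    rw [this, Complex.norm_real, Real.norm_eq_abs, abs_neg, abs_of_nonneg (by linarith)]
  rw [e1] at hMV
  have h7 := (le_abs_self _).trans ((abs_re_le_norm _).trans hMV)
  have e2 : (g z - ℓ * z - (g w - ℓ * w)).re = (g z).re - (g w).re + ℓ * (w.re - z.re) := by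
    simp
    ring
  rw [e2] at h7
  rw [← hg z hz, ← hg w hw, Complex.norm_exp, Complex.norm_exp, ← Real.exp_add]
  apply Real.exp_le_exp.2
  linarith

/-- the distance bound in a rectangle -/
theorem Rc_dist {b1 y h x D : ℝ} (hx1 : b1 ≤ x) (hx3 : x ≤ 3) (hD : 3 - b1 + h ≤ D) :
    ∀ z ∈ Rc b1 3 y h, ‖z - ⟨x, y⟩‖ ≤ D := by
  intro z hz
  obtain ⟨h1, h2, h3⟩ := hz
  refine (Complex.norm_le_abs_re_add_abs_im _).trans ?_
  have e1 : (z - ⟨x, y⟩).re = z.re - x := by simp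
  have e2 : (z - ⟨x, y⟩).im = z.im - y := by simp
  rw [e1, e2]
  have h4 : |z.re - x| ≤ 3 - b1 := by
    rw [abs_le]; constructor <;> linarith
  linarith

theorem good_step (a : ℂ) (D η δ' : ℝ) (hη : 0 < η) (hδ' : 0 < δ') :
    ∃ δ L : ℝ, 0 < δ ∧ 1 ≤ L ∧ ∀ (ℓ : ℝ), L ≤ ℓ → ∀ (b1 y h x α : ℝ) (A : ℂ → ℂ),
      b1 < x → x < 3 → x ≤ α → 0 < h → 3 - b1 + h ≤ D → Good A (Rc b1 3 y h) ℓ x α δ →
      ∃ E : ℂ → ℂ, (∀ z ∈ Rc b1 3 y h, T1 a E z = A z) ∧ Good E (Rc b1 3 y h) ℓ x (α + η) δ' := by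
  set X : ℝ := Real.exp (‖a‖ * D) with hX
  have hX0 : 0 < X := Real.exp_pos _
  set δ1 : ℝ := min δ' (η / 8) with hδ1
  have hδ10 : 0 < δ1 := by positivity
  set θ0 : ℝ := min (1 / 2) (δ' / 8) with hθ0
  have hθ00 : 0 < θ0 := by positivity
  set δ : ℝ := min (min (δ1 / 2) (1 / 2)) (θ0 / (5 * (X * X + X))) with hδ
  have hδ0 : 0 < δ := by positivity
  have hδa : δ ≤ δ1 / 2 := (min_le_left _ _).trans (min_le_left _ _)
  have hδb : δ ≤ 1 / 2 := (min_le_left _ _).trans (min_le_right _ _)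
  have hδc : δ * (5 * (X * X + X)) ≤ θ0 := by
    have : δ ≤ θ0 / (5 * (X * X + X)) := min_le_right _ _
    rwa [le_div_iff₀ (by positivity)] at this
  have hδd : δ1 ≤ δ' := min_le_left _ _
  have hδe : δ1 ≤ η / 8 := min_le_right _ _
  have hθ1 : θ0 ≤ 1 / 2 := min_le_left _ _
  have hθ2 : θ0 ≤ δ' / 8 := min_le_right _ _
  set L : ℝ := max (max 1 ((2 * (‖a‖ * D) + 1 + D) / (δ1 / 2))) (max (max (‖a‖ / δ) (8 / (η * δ)))
    (max (4 / (η / 8) ^ 2) (4 / (δ' / 2) ^ 2))) with hL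
  refine ⟨δ, L, hδ0, (le_max_left _ _).trans (le_max_left _ _), ?_⟩
  intro ℓ hℓ b1 y h x α A hb1x hx3 hxα hh hD hA
  have hℓ1 : 1 ≤ ℓ := ((le_max_left _ _).trans (le_max_left _ _)).trans hℓ
  have hℓ2 : 2 * (‖a‖ * D) + 1 + D ≤ δ1 / 2 * ℓ := by
    have := ((le_max_right _ _).trans (le_max_left _ _)).trans hℓ
    rw [div_le_iff₀ (by positivity)] at this
    linarith
  have hℓ3 : ‖a‖ ≤ δ * ℓ := by
    have := (((le_max_left _ _).trans (le_max_left _ _)).trans (le_max_right _ _)).trans hℓ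
    rw [div_le_iff₀ hδ0] at this
    linarith
  have hℓ6 : 8 / (η * δ) ≤ ℓ :=
    (((le_max_right _ _).trans (le_max_left _ _)).trans (le_max_right _ _)).trans hℓ
  have hℓ4 : 4 / (η / 8) ^ 2 ≤ ℓ :=
    (((le_max_left _ _).trans (le_max_right _ _)).trans (le_max_right _ _)).trans hℓ
  have hℓ5 : 4 / (δ' / 2) ^ 2 ≤ ℓ :=
    (((le_max_right _ _).trans (le_max_right _ _)).trans (le_max_right _ _)).trans hℓ
  have hℓ0 : 0 < ℓ := by linarith
  have hD0 : 0 ≤ D := by linarith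
  have hΩ := Rc_open b1 3 y h
  have hcΩ := Rc_convex b1 3 y h
  set c : ℂ := ⟨x, y⟩ with hc
  have hcm : c ∈ Rc b1 3 y h := ⟨hb1x, hx3, by simp [hc, hh]⟩
  obtain ⟨hAd, hAu, hAl⟩ := hA
  obtain ⟨E, hEd, hEe, hE0⟩ := exists_sol hΩ hcΩ hAd a c
  -- upper bound
  have hEu : ∀ w ∈ Rc b1 3 y h, ‖E w‖ ≤ Real.exp ((max w.re x - 1 / 2 + δ1) * ℓ) := by
    intro w hw
    set φ : ℝ := max w.re x with hφ
    have hsub : Rc b1 (min 3 (φ + 1 / ℓ)) y h ⊆ Rc b1 3 y h := by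
      rintro z ⟨h1, h2, h3⟩
      exact ⟨h1, h2.trans_le (min_le_left _ _), h3⟩
    have hℓi : 0 < 1 / ℓ := by positivity
    have hwm : w ∈ Rc b1 (min 3 (φ + 1 / ℓ)) y h := by
      refine ⟨hw.1, lt_min hw.2.1 ?_, hw.2.2⟩
      have := le_max_left w.re x
      linarith
    have hcm' : c ∈ Rc b1 (min 3 (φ + 1 / ℓ)) y h := by
      refine ⟨hcm.1, lt_min hcm.2.1 ?_, hcm.2.2⟩
      have := le_max_right w.re x
      simp only [hc]
      linarith
    have h1 := first_bound (Ω := Rc b1 (min 3 (φ + 1 / ℓ)) y h) (Rc_open _ _ _ _) (Rc_convex _ _ _ _)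
      (a := a) (f := E) (c := c) (D := D) (B := Real.exp ((φ - 1 / 2 + δ) * ℓ + 1)) hD0
      (hEd.mono hsub) hcm' (fun z hz => Rc_dist hb1x.le hx3.le hD z (hsub hz)) (by
        intro z hz
        rw [hEe z (hsub hz)]
        refine (hAu z (hsub hz)).trans (Real.exp_le_exp.2 ?_)
        have h2 : max z.re x ≤ φ + 1 / ℓ := by
          apply max_le
          · exact (hz.2.1.trans_le (min_le_right _ _)).le
          · have := le_max_right w.re x
            linarith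
        have h3 : (max z.re x - 1 / 2 + δ) * ℓ ≤ (φ + 1 / ℓ - 1 / 2 + δ) * ℓ := by gcongr
        have h4 : (φ + 1 / ℓ - 1 / 2 + δ) * ℓ = (φ - 1 / 2 + δ) * ℓ + 1 := by
          field_simp
          ring
        linarith) w hwm
    rw [hE0, norm_zero, zero_add] at h1
    refine h1.trans ?_
    have h5 : D ≤ Real.exp D := by linarith [Real.add_one_le_exp D]
    calc Real.exp (‖a‖ * D) * (Real.exp (‖a‖ * D) * Real.exp ((φ - 1 / 2 + δ) * ℓ + 1) * D)
        ≤ Real.exp (‖a‖ * D) * (Real.exp (‖a‖ * D) * Real.exp ((φ - 1 / 2 + δ) * ℓ + 1) *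
          Real.exp D) := by gcongr
      _ = Real.exp (‖a‖ * D + (‖a‖ * D + ((φ - 1 / 2 + δ) * ℓ + 1) + D)) := by
        rw [Real.exp_add (‖a‖ * D), Real.exp_add (‖a‖ * D + _) D, Real.exp_add (‖a‖ * D)]
      _ ≤ _ := by
        apply Real.exp_le_exp.2
        have h6 : δ * ℓ ≤ δ1 / 2 * ℓ := by gcongr
        linarith
  refine ⟨E, hEe, hEd, fun w hw => (hEu w hw).trans (by gcongr), ?_⟩
  -- lower bound
  intro w hw hwα
  set α' : ℝ := α + η / 2 with hα'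
  have hsubα : Rc α 3 y h ⊆ Rc b1 3 y h := by
    rintro z ⟨h1, h2, h3⟩
    exact ⟨by linarith, h2, h3⟩
  have hwm : w ∈ Rc α 3 y h := ⟨by linarith, hw.2.1, hw.2.2⟩
  have hAw := hAl w hw (by linarith)
  have hAwpos : 0 < ‖A w‖ := norm_pos_iff.2 hAw.1
  -- the path
  set q : ℂ := (w.im : ℂ) * I with hq
  have hP : ∀ t : ℝ, α' ≤ t → t ≤ w.re → ((t : ℂ) + q) ∈ Rc α 3 y h := by
    intro t ht1 ht2
    have e1 : ((t : ℂ) + q).re = t := by simp [hq]
    have e2 : ((t : ℂ) + q).im = w.im := by simp [hq]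
    refine ⟨by rw [e1]; linarith, by rw [e1]; exact lt_of_le_of_lt ht2 hw.2.1, by rw [e2]; exact hw.2.2⟩
  have hPre : ∀ t : ℝ, ((t : ℂ) + q).re = t := by intro t; simp [hq]
  have hPim : ∀ t : ℝ, ((t : ℂ) + q).im = w.im := by intro t; simp [hq]
  have hPw : ((w.re : ℂ) + q) = w := by
    apply Complex.ext
    · rw [hPre]
    · rw [hPim]
  have hnorm : ∀ t : ℝ, α' ≤ t → t ≤ w.re → ‖A ((t : ℂ) + q)‖ ≤
      ‖A w‖ * Real.exp (-((1 - δ) * ℓ * (w.re - t))) := by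
    intro t ht1 ht2
    have h1 := growth_of_LD (Rc_open α 3 y h) (Rc_convex α 3 y h) (A := A) (ℓ := ℓ) (δ := δ)
      (hAd.mono hsubα) (fun z hz => by
        have := hAl z (hsubα hz) hz.1.le
        exact ⟨this.1, this.2.1⟩) (hP t ht1 ht2) hwm (hPim t) (by rw [hPre]; exact ht2)
    rwa [hPre] at h1
  set D0 : ℂ → ℂ := fun z => E z - A z / ℓ with hD0
  set e : ℂ → ℂ := fun z => Complex.exp (-a * (z - α')) * D0 (z + q) with he
  have hexpn : ∀ t : ℝ, α' ≤ t → t ≤ w.re → ∀ s : ℂ, ‖s‖ ≤ ‖a‖ →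
      ‖Complex.exp (s * ((t : ℂ) - α'))‖ ≤ X := by
    intro t ht1 ht2 s hs
    rw [Complex.norm_exp, hX]
    apply Real.exp_le_exp.2
    refine (le_abs_self _).trans ((abs_re_le_norm _).trans ?_)
    rw [norm_mul]
    gcongr
    rw [← ofReal_sub, Complex.norm_real, Real.norm_of_nonneg (by linarith)]
    linarith [hw.2.1]
  have hder : ∀ t : ℝ, α' ≤ t → t ≤ w.re → HasDerivAt (fun s : ℝ => e s)
      (Complex.exp (-a * ((t : ℂ) - α')) * (A (t + q) * (1 - (deriv A (t + q) / A (t + q)) / ℓ + a / ℓ)))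
      t := by
    intro t ht1 ht2
    have hm := hsubα (hP t ht1 ht2)
    have hAt := hAl _ hm (hP t ht1 ht2).1.le
    have h1 : HasDerivAt E (a * E (t + q) + A (t + q)) (t + q) := by
      have h2 := (hEd.differentiableAt (hΩ.mem_nhds hm)).hasDerivAt
      have h3 := hEe _ hm
      simp only [T1] at h3
      rw [sub_eq_iff_eq_add] at h3
      rw [h3] at h2
      rwa [add_comm] at h2
    have h2 : HasDerivAt A (deriv A (t + q)) (t + q) := (hAd.differentiableAt (hΩ.mem_nhds hm)).hasDerivAt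
    have h3 : HasDerivAt D0 (a * E (t + q) + A (t + q) - deriv A (t + q) / ℓ) (t + q) :=
      h1.sub (h2.div_const _)
    have h4 : HasDerivAt (fun z : ℂ => D0 (z + q)) (a * E (t + q) + A (t + q) - deriv A (t + q) / ℓ)
        (t : ℂ) := h3.comp_add_const (t : ℂ) q
    have h5 : HasDerivAt (fun z : ℂ => -a * (z - α')) (-a * 1) (t : ℂ) :=
      ((hasDerivAt_id (t : ℂ)).sub_const _).const_mul (-a)
    have h6 := h5.cexp.mul h4
    have h7 := h6.comp_ofReal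
    refine h7.congr_deriv ?_
    have hℓc : (ℓ : ℂ) ≠ 0 := by exact_mod_cast hℓ0.ne'
    have hA0 := hAt.1
    simp only [hD0]
    field_simp
    ring
  have hbound : ∀ t : ℝ, α' ≤ t → t ≤ w.re → ‖Complex.exp (-a * ((t : ℂ) - α')) * (A (t + q) *
      (1 - (deriv A (t + q) / A (t + q)) / ℓ + a / ℓ))‖ ≤
      X * (2 * δ) * ‖A w‖ * Real.exp (-((1 - δ) * ℓ * (w.re - t))) := by
    intro t ht1 ht2
    have hm := hsubα (hP t ht1 ht2)
    have hAt := hAl _ hm (hP t ht1 ht2).1.le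
    have h1 := hexpn t ht1 ht2 (-a) (by rw [norm_neg])
    have h2 := hnorm t ht1 ht2
    have h3 : ‖1 - (deriv A (t + q) / A (t + q)) / ℓ + a / ℓ‖ ≤ 2 * δ := by
      have hℓc : (ℓ : ℂ) ≠ 0 := by exact_mod_cast hℓ0.ne'
      have e3 : 1 - (deriv A (t + q) / A (t + q)) / ℓ + a / ℓ =
          (-(deriv A (t + q) / A (t + q) - ℓ) + a) / ℓ := by
        field_simp
        ring
      rw [e3, norm_div, Complex.norm_real, Real.norm_of_nonneg hℓ0.le, div_le_iff₀ hℓ0]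
      refine (norm_add_le _ _).trans ?_
      rw [norm_neg]
      linarith [hAt.2.1]
    rw [norm_mul, norm_mul]
    calc ‖Complex.exp (-a * ((t : ℂ) - α'))‖ * (‖A (t + q)‖ *
          ‖1 - (deriv A (t + q) / A (t + q)) / ℓ + a / ℓ‖)
        ≤ X * ((‖A w‖ * Real.exp (-((1 - δ) * ℓ * (w.re - t)))) * (2 * δ)) := by gcongr
      _ = _ := by ring
  set κ : ℝ := (1 - δ) * ℓ with hκ
  have hκ0 : 0 < κ := by
    have : 0 < 1 - δ := by linarith
    positivity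
  have hκ1 : ℓ / 2 ≤ κ := by
    rw [hκ]; nlinarith
  have hα'w : α' ≤ w.re := by linarith
  have hcomp := image_norm_le_of_norm_deriv_right_le_deriv_boundary (f := fun s : ℝ => e s)
    (f' := fun t : ℝ => Complex.exp (-a * ((t : ℂ) - α')) * (A (t + q) *
      (1 - (deriv A (t + q) / A (t + q)) / ℓ + a / ℓ)))
    (a := α') (b := w.re)
    (fun t ht => ((hder t ht.1 ht.2).continuousAt).continuousWithinAt)
    (fun t ht => (hder t ht.1 ht.2.le).hasDerivWithinAt)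
    (B := fun t => ‖e α'‖ + X * (2 * δ) * ‖A w‖ / κ * Real.exp (-(κ * (w.re - t))))
    (B' := fun t => X * (2 * δ) * ‖A w‖ * Real.exp (-(κ * (w.re - t))))
    (by
      have : 0 ≤ X * (2 * δ) * ‖A w‖ / κ * Real.exp (-(κ * (w.re - α'))) := by positivity
      linarith)
    (fun t => by
      have h1 : HasDerivAt (fun t : ℝ => -(κ * (w.re - t))) κ t := by
        have h2 := (((hasDerivAt_id t).const_sub w.re).const_mul κ).neg
        refine h2.congr_deriv ?_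
        ring
      have h3 := (h1.exp.const_mul (X * (2 * δ) * ‖A w‖ / κ)).const_add ‖e α'‖
      refine h3.congr_deriv ?_
      field_simp)
    (fun t ht => hbound t ht.1 ht.2.le) (right_mem_Icc.2 hα'w)
  simp only [sub_self, mul_zero, neg_zero, Real.exp_zero, mul_one] at hcomp
  -- the initial value
  have hinit : ‖e α'‖ ≤ δ / ℓ * ‖A w‖ := by
    have e1 : e α' = D0 (α' + q) := by simp [he]
    have hm := hsubα (hP α' le_rfl hα'w)
    have h1 := hEu _ hm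
    have h2 := hAu _ hm
    have hmax : max ((α' : ℂ) + q).re x = α' := by
      rw [hPre]
      exact max_eq_left (by linarith)
    rw [hmax] at h1 h2
    have h3 : ‖D0 (α' + q)‖ ≤ 2 * Real.exp ((α' - 1 / 2 + δ1) * ℓ) := by
      simp only [hD0]
      refine (norm_sub_le _ _).trans ?_
      rw [norm_div, Complex.norm_real, Real.norm_of_nonneg hℓ0.le]
      have h4 : ‖A (α' + q)‖ / ℓ ≤ Real.exp ((α' - 1 / 2 + δ1) * ℓ) := by
        rw [div_le_iff₀ hℓ0]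
        refine h2.trans ?_
        have h5 : Real.exp ((α' - 1 / 2 + δ) * ℓ) ≤ Real.exp ((α' - 1 / 2 + δ1) * ℓ) := by
          apply Real.exp_le_exp.2
          gcongr
          linarith
        have h6 := Real.exp_pos ((α' - 1 / 2 + δ1) * ℓ)
        nlinarith
      linarith
    have h4 : Real.exp ((α' - 1 / 2 + δ1) * ℓ) ≤ Real.exp (-(η / 4 * ℓ)) * ‖A w‖ := by
      have h5 := hAw.2.2
      calc Real.exp ((α' - 1 / 2 + δ1) * ℓ)
          ≤ Real.exp (-(η / 4 * ℓ)) * Real.exp ((w.re - 1 / 2 - δ) * ℓ) := by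
            rw [← Real.exp_add]
            apply Real.exp_le_exp.2
            have : (α' - 1 / 2 + δ1) ≤ -(η / 4) + (w.re - 1 / 2 - δ) := by linarith
            nlinarith
        _ ≤ _ := by gcongr
    have h6 : 2 * Real.exp (-(η / 4 * ℓ)) ≤ δ / ℓ := exp_small hη hδ0 hℓ0 hℓ4 hℓ6
    rw [e1]
    calc ‖D0 (α' + q)‖ ≤ 2 * Real.exp ((α' - 1 / 2 + δ1) * ℓ) := h3
      _ ≤ 2 * (Real.exp (-(η / 4 * ℓ)) * ‖A w‖) := by gcongr
      _ = (2 * Real.exp (-(η / 4 * ℓ))) * ‖A w‖ := by ring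
      _ ≤ _ := by gcongr
  -- the value at `w`
  have hval : ‖D0 w‖ ≤ θ0 / ℓ * ‖A w‖ := by
    have e1 : D0 w = Complex.exp (a * ((w.re : ℂ) - α')) * e w.re := by
      simp only [he]
      rw [hPw, ← mul_assoc, ← Complex.exp_add]
      have : a * ((w.re : ℂ) - α') + -a * ((w.re : ℂ) - α') = 0 := by ring
      rw [this, Complex.exp_zero, one_mul]
    rw [e1, norm_mul]
    have h1 := hexpn w.re hα'w le_rfl a le_rfl
    have h2 : X * (2 * δ) * ‖A w‖ / κ ≤ X * (4 * δ) * ‖A w‖ / ℓ := by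
      rw [div_le_div_iff₀ hκ0 hℓ0]
      have : 0 ≤ X * δ * ‖A w‖ := by positivity
      nlinarith
    calc ‖Complex.exp (a * ((w.re : ℂ) - α'))‖ * ‖e w.re‖
        ≤ X * (δ / ℓ * ‖A w‖ + X * (4 * δ) * ‖A w‖ / ℓ) := by
          gcongr
          linarith
      _ = (δ * (4 * (X * X) + X)) / ℓ * ‖A w‖ := by ring
      _ ≤ θ0 / ℓ * ‖A w‖ := by
          gcongr
          refine le_trans ?_ hδc
          gcongr
          nlinarith [mul_pos hX0 hX0]
  have hℓc : (ℓ : ℂ) ≠ 0 := by exact_mod_cast hℓ0.ne'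
  have hEA : ‖(ℓ : ℂ) * E w - A w‖ ≤ θ0 * ‖A w‖ := by
    have e1 : (ℓ : ℂ) * E w - A w = ℓ * D0 w := by
      simp only [hD0]
      field_simp
    rw [e1, norm_mul, Complex.norm_real, Real.norm_of_nonneg hℓ0.le]
    calc ℓ * ‖D0 w‖ ≤ ℓ * (θ0 / ℓ * ‖A w‖) := by gcongr
      _ = θ0 * ‖A w‖ := by field_simp
  have hElow : ‖A w‖ / 2 ≤ ℓ * ‖E w‖ := by
    have h1 := norm_sub_norm_le (A w) (A w - ℓ * E w)
    rw [sub_sub_cancel, norm_mul, Complex.norm_real, Real.norm_of_nonneg hℓ0.le,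
      norm_sub_rev (A w)] at h1
    nlinarith
  have hEpos : 0 < ‖E w‖ := by
    by_contra hcon
    push Not at hcon
    nlinarith
  have hEne : E w ≠ 0 := norm_pos_iff.1 hEpos
  refine ⟨hEne, ?_, ?_⟩
  · have h3 := hEe w hw
    simp only [T1] at h3
    have h4 : deriv E w = a * E w + A w := by
      rw [← h3]; ring
    have e2 : deriv E w / E w - ℓ = a - (ℓ * E w - A w) / E w := by
      rw [h4]
      field_simp
      ring
    rw [e2]
    refine (norm_sub_le _ _).trans ?_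
    rw [norm_div]
    have h5 : ‖(ℓ : ℂ) * E w - A w‖ / ‖E w‖ ≤ δ' / 4 * ℓ := by
      rw [div_le_iff₀ hEpos]
      calc ‖(ℓ : ℂ) * E w - A w‖ ≤ θ0 * ‖A w‖ := hEA
        _ ≤ δ' / 8 * (2 * (ℓ * ‖E w‖)) := by
            have : ‖A w‖ ≤ 2 * (ℓ * ‖E w‖) := by linarith
            gcongr
        _ = _ := by ring
    have h6 : δ * ℓ ≤ δ' / 2 * ℓ := by
      gcongr
      linarith
    have h7 : 0 < δ' * ℓ := by positivity
    linarith
  · have h1 := hAw.2.2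
    have h2 := two_mul_le_exp (show 0 < δ' / 2 by positivity) hℓ5
    have h3 : Real.exp ((w.re - 1 / 2 - δ') * ℓ) * (2 * ℓ) ≤ ‖A w‖ := by
      calc Real.exp ((w.re - 1 / 2 - δ') * ℓ) * (2 * ℓ)
          ≤ Real.exp ((w.re - 1 / 2 - δ') * ℓ) * Real.exp (δ' / 2 * ℓ) := by gcongr
        _ = Real.exp ((w.re - 1 / 2 - δ' / 2) * ℓ) := by
            rw [← Real.exp_add]
            congr 1
            ring
        _ ≤ Real.exp ((w.re - 1 / 2 - δ) * ℓ) := by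
            apply Real.exp_le_exp.2
            gcongr
            linarith
        _ ≤ _ := h1
    have h4 : Real.exp ((w.re - 1 / 2 - δ') * ℓ) * (2 * ℓ) ≤ (2 * ℓ) * ‖E w‖ := by linarith
    have h5 : 0 < 2 * ℓ := by positivity
    rw [mul_comm] at h4
    exact le_of_mul_le_mul_left h4 h5

/-- Solution of the equation for the whole list. -/
theorem good_list (l : List ℂ) (D η : ℝ) (hη : 0 < η) : ∀ (δ' : ℝ), 0 < δ' →
    ∃ δ L : ℝ, 0 < δ ∧ 1 ≤ L ∧ ∀ (ℓ : ℝ), L ≤ ℓ → ∀ (b1 y h x α : ℝ) (F : ℂ → ℂ),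
      b1 < x → x < 3 → x ≤ α → 0 < h → 3 - b1 + h ≤ D → Good F (Rc b1 3 y h) ℓ x α δ →
      ∃ E : ℂ → ℂ, (∀ z ∈ Rc b1 3 y h, TT l E z = F z) ∧
        Good E (Rc b1 3 y h) ℓ x (α + l.length * η) δ' := by
  induction l with
  | nil =>
    intro δ' hδ'
    refine ⟨δ', 1, hδ', le_rfl, fun ℓ hℓ b1 y h x α F h1 h2 h3 h4 h5 hF => ⟨F, fun z hz => rfl, ?_⟩⟩
    simpa using hF
  | cons a l ih =>
    intro δ' hδ'
    obtain ⟨δ1, L1, hδ1, hL1, h1⟩ := good_step a D η δ' hη hδ'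
    obtain ⟨δ2, L2, hδ2, hL2, h2⟩ := ih δ1 hδ1
    refine ⟨δ2, max L1 L2, hδ2, hL1.trans (le_max_left _ _), ?_⟩
    intro ℓ hℓ b1 y h x α F hb hx hxα hh hD hF
    obtain ⟨G, hG1, hG2⟩ := h2 ℓ ((le_max_right _ _).trans hℓ) b1 y h x α F hb hx hxα hh hD hF
    obtain ⟨E, hE1, hE2⟩ := h1 ℓ ((le_max_left _ _).trans hℓ) b1 y h x (α + l.length * η) G hb hx
      (by
        have : 0 ≤ (l.length : ℝ) * η := by positivity
        linarith) hh hD hG2
    refine ⟨E, fun z hz => ?_, ?_⟩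
    · simp only [TT_cons]
      rw [TT_congr (Rc_open b1 3 y h) l hE1 z hz]
      exact hG1 z hz
    · have e : α + ((a :: l).length : ℝ) * η = α + l.length * η + η := by
        simp only [List.length_cons]
        push_cast
        ring
      rw [e]
      exact hE2

end Pool.Agent.N799.SP
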