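import Pool.Agent.N799.SP.ZF
import Pool.Agent.N799.SP.Good

/-!
# The size of `TT l Zf` where it has no zeros
-/

set_option autoImplicit false

open Complex Metric Set Filter Topology

namespace Pool.Agent.N799.SP

open H345 (XX)
open H345.Chi (L2)

theorem log_big (n : ℕ) (K δ : ℝ) (hδ : 0 < δ) : ∃ L : ℝ, 1 ≤ L ∧ ∀ ℓ : ℝ, L ≤ ℓ →
    n * Real.log (2 * ℓ) + K ≤ δ * ℓ := by
  have h1 : ∀ᶠ ℓ : ℝ in atTop, n * Real.log (2 * ℓ) + K ≤ δ * ℓ := by
    have h2 : (fun ℓ : ℝ => n * Real.log (2 * ℓ) + K) =o[atTop] (fun ℓ : ℝ => ℓ) := by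
      apply Asymptotics.IsLittleO.add
      · apply Asymptotics.IsLittleO.const_mul_left
        have h3 := Real.isLittleO_log_id_atTop.comp_tendsto
          (tendsto_id.const_mul_atTop (show (0 : ℝ) < 2 by norm_num))
        refine h3.trans_isBigO ?_
        have : (id ∘ fun x : ℝ => 2 * id x) = fun x : ℝ => 2 * x := by ext x; simp
        rw [this]
        exact (Asymptotics.isBigO_refl _ _).const_mul_left 2
      · exact Asymptotics.isLittleO_const_left.2 (Or.inr (by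
          simpa [Function.comp_def] using tendsto_abs_atTop_atTop))
    filter_upwards [h2.def hδ, eventually_gt_atTop 0] with ℓ h4 h5
    rw [Real.norm_eq_abs, Real.norm_of_nonneg h5.le] at h4
    exact (le_abs_self _).trans h4
  obtain ⟨L, hL⟩ := (h1.and (eventually_ge_atTop 1)).exists_forall_of_atTop
  exact ⟨max L 1, le_max_right _ _, fun ℓ hℓ => (hL ℓ ((le_max_left _ _).trans hℓ)).1⟩

theorem log_large (L : ℝ) : ∃ t₀ : ℝ, 2 ≤ t₀ ∧ ∀ t : ℝ, t₀ ≤ t → L ≤ Real.log t := by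
  refine ⟨max 2 (Real.exp L), le_max_left _ _, fun t ht => ?_⟩
  have h1 : Real.exp L ≤ t := (le_max_right _ _).trans ht
  have h2 := Real.log_le_log (Real.exp_pos L) h1
  rwa [Real.log_exp] at h2

theorem log_near {h y τ : ℝ} (hh : 0 ≤ h) (hτ : 2 * h ≤ τ) (hτ0 : 0 < τ) (hy : |y - τ| ≤ h) :
    |Real.log y - Real.log τ| ≤ 1 := by
  have h1 := (abs_le.1 hy).1
  have h2 := (abs_le.1 hy).2
  have hy0 : 0 < y := by linarith
  have hlog2 : Real.log 2 ≤ 1 := by
    have := Real.log_two_lt_d9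
    linarith
  rw [abs_le]
  constructor
  · have h3 : Real.log τ ≤ Real.log (2 * y) := Real.log_le_log hτ0 (by linarith)
    rw [Real.log_mul (by norm_num) hy0.ne'] at h3
    linarith
  · have h3 : Real.log y ≤ Real.log (2 * τ) := Real.log_le_log hy0 (by linarith)
    rw [Real.log_mul (by norm_num) hτ0.ne'] at h3
    linarith

theorem ball_coords {w z : ℂ} {r : ℝ} (hz : z ∈ ball w r) : |z.re - w.re| < r ∧ |z.im - w.im| < r := by
  rw [mem_ball, dist_eq_norm] at hz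
  have h1 := lt_of_le_of_lt (abs_re_le_norm (z - w)) hz
  have h2 := lt_of_le_of_lt (abs_im_le_norm (z - w)) hz
  rw [sub_re] at h1
  rw [sub_im] at h2
  exact ⟨h1, h2⟩

/-- Upper half plane is open -/
theorem uhp_open : IsOpen {w : ℂ | 0 < w.im} := isOpen_lt continuous_const continuous_im

theorem Zf_diffOn : DifferentiableOn ℂ Zf {w : ℂ | 0 < w.im} := fun w hw =>
  (Zf_diffAt (ne_of_gt hw)).differentiableWithinAt

theorem Zf_LD_right (δ : ℝ) (hδ : 0 < δ) : ∃ t₀ : ℝ, 2 ≤ t₀ ∧ ∀ w : ℂ, 7 / 4 ≤ w.re → w.re ≤ 3 →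
    t₀ ≤ w.im → LD Zf w (1 / 4) (Real.log w.im) δ := by
  obtain ⟨C, hC, h1⟩ := zeta_right_bounds
  obtain ⟨K, hK, h2⟩ := H345.Chi.L2_bound
  obtain ⟨t₀, ht₀, h3⟩ := log_large ((K + 1 + C) / δ)
  refine ⟨t₀, ht₀, fun w hw1 hw2 hw3 => ?_⟩
  have hlog := h3 w.im hw3
  rw [div_le_iff₀ hδ] at hlog
  have hball : ∀ z ∈ ball w (1 / 4), 3 / 2 ≤ z.re ∧ z.re ≤ 4 ∧ 1 < z.im ∧
      |Real.log z.im - Real.log w.im| ≤ 1 := by
    intro z hz
    obtain ⟨h4, h5⟩ := ball_coords hz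
    have h4' := abs_lt.1 h4
    have h5' := abs_lt.1 h5
    exact ⟨by linarith, by linarith, by linarith, log_near (by norm_num : (0:ℝ) ≤ 1 / 4)
      (by linarith) (by linarith) h5.le⟩
  refine ⟨?_, fun z hz => ?_⟩
  · refine Zf_diffOn.mono fun z hz => ?_
    have := (hball z hz).2.2.1
    exact lt_trans one_pos this
  · obtain ⟨h4, h5, h6, h7⟩ := hball z hz
    obtain ⟨k1, k2, k3, k4⟩ := h1 z h4
    obtain ⟨m1, m2⟩ := Zf_logDeriv (by linarith : 0 < z.re) h6 k1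
    refine ⟨m1, ?_⟩
    have h8 := h2 z (by linarith) h5 h6.le
    rw [m2]
    have e : L2 z + deriv riemannZeta z / riemannZeta z - (Real.log w.im : ℂ) =
        (L2 z - (Real.log z.im : ℂ)) + ((Real.log z.im - Real.log w.im : ℝ) : ℂ) +
        deriv riemannZeta z / riemannZeta z := by
      push_cast
      ring
    rw [e]
    refine (norm_add_le _ _).trans ((add_le_add (norm_add_le _ _) le_rfl).trans ?_)
    rw [Complex.norm_real, Real.norm_eq_abs]
    linarith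

/-- log of `XX` -/
theorem log_XX : ∃ K : ℝ, 0 < K ∧ ∀ s : ℂ, 1 / 2 ≤ s.re → s.re ≤ 4 → 1 ≤ s.im →
    |Real.log ‖XX s‖ - (s.re - 1 / 2) * Real.log s.im| ≤ K := by
  obtain ⟨K, hK, h⟩ := H345.Chi.XX_size
  refine ⟨K, hK, fun s h1 h2 h3 => ?_⟩
  obtain ⟨k1, k2⟩ := h s h1 h2 h3
  have hp : 0 < s.im ^ (s.re - 1 / 2) := Real.rpow_pos_of_pos (by linarith) _
  have hX := norm_pos_iff.2 (H345.Chi.XX_ne (by linarith : 0 < s.re) h3)
  have e1 := Real.log_le_log (by positivity) k1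
  have e2 := Real.log_le_log hX k2
  rw [Real.log_mul (Real.exp_pos _).ne' hp.ne', Real.log_exp, Real.log_rpow (by linarith)] at e1 e2
  rw [abs_le]
  constructor <;> linarith

/-- `TT l Zf` to the right of `7/4` -/
theorem F_right (l : List ℂ) (δ : ℝ) (hδ : 0 < δ) : ∃ t₀ : ℝ, 2 ≤ t₀ ∧ ∀ w : ℂ, 7 / 4 ≤ w.re →
    w.re ≤ 3 → t₀ ≤ w.im → TT l Zf w ≠ 0 ∧
    |Real.log ‖TT l Zf w‖ - (w.re - 1 / 2) * Real.log w.im| ≤ δ * Real.log w.im ∧
    ‖deriv (TT l Zf) w / TT l Zf w - (Real.log w.im : ℂ)‖ ≤ δ * Real.log w.im := by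
  obtain ⟨δ1, L1, hδ1, hL1, h1⟩ := LD_list l (1 / 4) (1 / 8) δ (by norm_num) hδ
  obtain ⟨t1, ht1, h2⟩ := Zf_LD_right δ1 hδ1
  obtain ⟨C, hC, h3⟩ := zeta_right_bounds
  obtain ⟨K, hK, h4⟩ := log_XX
  obtain ⟨L2', hL2, h5⟩ := log_big l.length (K + Real.log C) δ hδ
  obtain ⟨t2, ht2, h6⟩ := log_large (max (max L1 L2') 2)
  refine ⟨max t1 t2, ht1.trans (le_max_left _ _), fun w hw1 hw2 hw3 => ?_⟩
  have hℓ := h6 w.im ((le_max_right _ _).trans hw3)
  have hℓ1 : L1 ≤ Real.log w.im := ((le_max_left _ _).trans (le_max_left _ _)).trans hℓ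
  have hℓ2 : L2' ≤ Real.log w.im := ((le_max_right _ _).trans (le_max_left _ _)).trans hℓ
  have hℓ3 : 2 ≤ Real.log w.im := (le_max_right _ _).trans hℓ
  have him : 2 ≤ w.im := ht1.trans ((le_max_left _ _).trans hw3)
  have hLD := h2 w hw1 hw2 ((le_max_left _ _).trans hw3)
  obtain ⟨g1, g2⟩ := h1 Zf w (Real.log w.im) hℓ1 hLD
  have hwm : w ∈ ball w (1 / 8 : ℝ) := mem_ball_self (by norm_num)
  obtain ⟨g3, g4⟩ := g1.2 w hwm
  refine ⟨g3, ?_, g4⟩
  obtain ⟨k1, k2⟩ := g2 w hwm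
  set ℓ := Real.log w.im with hℓd
  obtain ⟨m1, m2, m3, m4⟩ := h3 w (by linarith)
  have hZ := Zf_eq (by linarith : 0 < w.re) (by linarith : w.im ≠ 0)
  have hXne := H345.Chi.XX_ne (by linarith : 0 < w.re) (by linarith : 1 ≤ w.im)
  have hX := h4 w (by linarith) (by linarith) (by linarith)
  have hZne : 0 < ‖Zf w‖ := by
    rw [hZ]; exact norm_pos_iff.2 (mul_ne_zero hXne m1)
  have hlogZ : Real.log ‖Zf w‖ = Real.log ‖XX w‖ + Real.log ‖riemannZeta w‖ := by
    rw [hZ, norm_mul, Real.log_mul (norm_ne_zero_iff.2 hXne) (norm_ne_zero_iff.2 m1)]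
  have hlogz : |Real.log ‖riemannZeta w‖| ≤ Real.log C := by
    have e1 := Real.log_le_log (by positivity) m3
    have e2 := Real.log_le_log (norm_pos_iff.2 m1) m2
    rw [Real.log_inv] at e1
    rw [abs_le]
    constructor <;> linarith
  have hF := norm_pos_iff.2 g3
  have e1 := Real.log_le_log (by positivity) k1
  have e2 := Real.log_le_log hF k2
  rw [Real.log_mul (by positivity) hZne.ne', Real.log_pow] at e1 e2
  have e3 : 0 ≤ Real.log (ℓ / 2) := Real.log_nonneg (by linarith)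
  have e4 : 0 ≤ (l.length : ℝ) * Real.log (ℓ / 2) := by positivity
  have h7 := h5 ℓ hℓ2
  have e5 : 0 ≤ (l.length : ℝ) * Real.log (2 * ℓ) := by
    have : 0 ≤ Real.log (2 * ℓ) := Real.log_nonneg (by linarith)
    positivity
  rw [abs_le] at hX hlogz ⊢
  constructor
  · linarith [hX.1, hX.2, hlogz.1, hlogz.2]
  · linarith [hX.1, hX.2, hlogz.1, hlogz.2]

/-- polynomial growth of `TT l Zf` -/
theorem F_growth (l : List ℂ) : ∃ C : ℝ, 1 ≤ C ∧ ∀ w : ℂ, 1 / 2 ≤ w.re → w.re ≤ 3 → 2 ≤ w.im →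
    ‖TT l Zf w‖ ≤ C * w.im ^ 6 := by
  obtain ⟨C1, hC1, h1⟩ := TT_bound l (1 / 4) (1 / 8) (by norm_num)
  obtain ⟨C2, hC2, h2⟩ := Zf_growth
  refine ⟨max 1 (C1 * (C2 * 2 ^ 6)), le_max_left _ _, fun w hw1 hw2 hw3 => ?_⟩
  have h3 := h1 Zf w (C2 * (2 * w.im) ^ 6) (by positivity) (Zf_diffOn.mono fun z hz => by
      have := abs_lt.1 (ball_coords hz).2
      have h4 : 0 < z.im := by linarith
      exact h4) (fun z hz => by
      have h5 := abs_lt.1 (ball_coords hz).2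
      have h6 := abs_lt.1 (ball_coords hz).1
      refine (h2 z (by linarith) (by linarith) (by linarith)).trans ?_
      have : z.im ≤ 2 * w.im := by linarith
      have h0 : 0 ≤ z.im := by linarith
      gcongr) w (mem_ball_self (by norm_num))
  refine h3.trans ?_
  calc C1 * (C2 * (2 * w.im) ^ 6) = (C1 * (C2 * 2 ^ 6)) * w.im ^ 6 := by ring
    _ ≤ _ := by
      gcongr
      exact le_max_right _ _

/-- the size of `TT l Zf` in a zero-free box -/
theorem F_size (l : List ℂ) (ρ δ : ℝ) (hρ : 0 < ρ) (hρ1 : ρ ≤ 1 / 2) (hδ : 0 < δ) :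
    ∃ t₀ : ℝ, 4 ≤ t₀ ∧ ∀ (y b : ℝ), t₀ ≤ y → 1 / 2 ≤ b → b ≤ 1 →
      (∀ w ∈ Rc b 3 y ρ, TT l Zf w ≠ 0) → ∀ w : ℂ, w.im = y → b + ρ ≤ w.re → w.re ≤ 3 →
      TT l Zf w ≠ 0 ∧
      |Real.log ‖TT l Zf w‖ - (w.re - 1 / 2) * Real.log y| ≤ δ * Real.log y ∧
      ‖deriv (TT l Zf) w / TT l Zf w - (Real.log y : ℂ)‖ ≤ δ * Real.log y := by
  obtain ⟨η, hη, h1⟩ := log_small ρ (δ / 16) hρ hρ1 (by positivity)
  obtain ⟨K, hK, hXX⟩ := log_XX
  obtain ⟨K2, hK2, hL2⟩ := H345.Chi.L2_bound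
  obtain ⟨t1, ht1, hR⟩ := F_right l (min δ η) (by positivity)
  obtain ⟨C, hC, hG⟩ := F_growth l
  obtain ⟨KX, hKX, hXsize⟩ := H345.Chi.XX_size
  obtain ⟨t2, ht2, hlg⟩ := log_large (max (max (2 * Real.pi / η) (K / η + K2 / η + 1 / η + 1))
    (max ((K + K2) * 2 / δ) (Real.log C + KX + 7)))
  refine ⟨max (t1 + 1) (max t2 4), (le_max_right _ _).trans' (le_max_right _ _), ?_⟩
  intro y b hy hb1 hb2 hne w hwy hwb hw3
  have hyt1 : t1 + 1 ≤ y := (le_max_left _ _).trans hy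
  have hyt2 : t2 ≤ y := ((le_max_left _ _).trans (le_max_right _ _)).trans hy
  have hy4 : 4 ≤ y := ((le_max_right _ _).trans (le_max_right _ _)).trans hy
  have hℓ := hlg y hyt2
  set ℓ := Real.log y with hℓd
  have c1 : 2 * Real.pi ≤ η * ℓ := by
    have := ((le_max_left _ _).trans (le_max_left _ _)).trans hℓ
    rw [div_le_iff₀ hη] at this
    linarith
  have c2 : K + K2 + 1 + η ≤ η * ℓ := by
    have h2 := ((le_max_right _ _).trans (le_max_left _ _)).trans hℓ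
    have e : K / η + K2 / η + 1 / η + 1 = (K + K2 + 1 + η) / η := by field_simp
    rw [e, div_le_iff₀ hη] at h2
    linarith
  have c3 : (K + K2) * 2 ≤ δ * ℓ := by
    have := ((le_max_left _ _).trans (le_max_right _ _)).trans hℓ
    rw [div_le_iff₀ hδ] at this
    linarith
  have c4 : Real.log C + KX + 7 ≤ ℓ := ((le_max_right _ _).trans (le_max_right _ _)).trans hℓ
  have hlogC : 0 ≤ Real.log C := Real.log_nonneg hC
  have hℓ0 : 0 < ℓ := by linarith
  rcases le_or_gt w.re 2 with hw2 | hw2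
  swap
  · -- right side
    obtain ⟨g1, g2, g3⟩ := hR w (by linarith) hw3 (by rw [hwy]; linarith)
    rw [hwy] at g2 g3
    have hm : min δ η * ℓ ≤ δ * ℓ := by
      gcongr
      exact min_le_left _ _
    exact ⟨g1, g2.trans hm, g3.trans hm⟩
  -- the function `Q`
  set F : ℂ → ℂ := TT l Zf with hF
  have hFd : DifferentiableOn ℂ F {w : ℂ | 0 < w.im} := TT_diff uhp_open l Zf_diffOn
  set Q : ℂ → ℂ := fun w => F w / XX w with hQ
  have hreg : ∀ z ∈ Rc b 3 y ρ, 0 < z.re ∧ 1 / 2 ≤ z.re ∧ z.re ≤ 3 ∧ 2 ≤ z.im ∧ z.im ≤ 2 * y := by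
    rintro z ⟨h2, h3, h4⟩
    have h4' := abs_lt.1 h4
    exact ⟨by linarith, by linarith, by linarith, by linarith, by linarith⟩
  have hXne : ∀ z ∈ Rc b 3 y ρ, XX z ≠ 0 := fun z hz =>
    H345.Chi.XX_ne (hreg z hz).1 (by linarith [(hreg z hz).2.2.2.1])
  have hXd : ∀ z : ℂ, 0 < z.re → 1 < z.im → HasDerivAt XX (XX z * L2 z) z := by
    intro z hz1 hz2
    have := H345.Chi.hasDerivAt_XX hz1 hz2.le
    first
      | exact this
      | (rw [mul_comm]; exact this)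
  have hQder : ∀ z ∈ Rc b 3 y ρ, F z ≠ 0 → HasDerivAt Q (Q z * (deriv F z / F z - L2 z)) z := by
    intro z hz hFz
    obtain ⟨k1, k2, k3, k4, k5⟩ := hreg z hz
    have h2 : HasDerivAt F (deriv F z) z :=
      (hFd.differentiableAt (uhp_open.mem_nhds (show 0 < z.im by linarith))).hasDerivAt
    have h3 := h2.div (hXd z k1 (by linarith)) (hXne z hz)
    refine h3.congr_deriv ?_
    simp only [hQ]
    have := hXne z hz
    field_simp
  have hQlog : ∀ z ∈ Rc b 3 y ρ, F z ≠ 0 → deriv Q z / Q z = deriv F z / F z - L2 z := by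
    intro z hz hFz
    rw [(hQder z hz hFz).deriv]
    have : Q z ≠ 0 := div_ne_zero hFz (hXne z hz)
    field_simp
  have hQlogn : ∀ z ∈ Rc b 3 y ρ, F z ≠ 0 → Real.log ‖Q z‖ = Real.log ‖F z‖ - Real.log ‖XX z‖ := by
    intro z hz hFz
    simp only [hQ]
    rw [norm_div, Real.log_div (norm_ne_zero_iff.2 hFz) (norm_ne_zero_iff.2 (hXne z hz))]
  set c : ℂ := ⟨2, y⟩ with hc
  have hcm : c ∈ Rc b 3 y ρ := by
    refine ⟨by simp only [hc]; linarith, by simp only [hc]; norm_num, by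
      simp only [hc, sub_self, abs_zero]; exact hρ⟩
  have hwm : w ∈ Rc b 3 y ρ := by
    refine ⟨by linarith, by linarith, by rw [hwy]; simpa using hρ⟩
  have hmin : min δ η ≤ η := min_le_right _ _
  have hcre : c.re = 2 := rfl
  have hcim : c.im = y := rfl
  have key := h1 (8 * ℓ) b y Q (by linarith) hb2 (by linarith)
    (fun z hz => (hQder z hz (hne z hz)).differentiableAt.differentiableWithinAt)
    (fun z hz => div_ne_zero (hne z hz) (hXne z hz))
    (fun z hz => by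
      obtain ⟨k1, k2, k3, k4, k5⟩ := hreg z hz
      simp only [hQ]
      rw [norm_div]
      have h2 := (hXsize z k2 (by linarith) (by linarith)).1
      have h3 : Real.exp (-KX) ≤ ‖XX z‖ := by
        refine le_trans ?_ h2
        have h4 : 1 ≤ z.im ^ (z.re - 1 / 2) := Real.one_le_rpow (by linarith) (by linarith)
        nlinarith [Real.exp_pos (-KX)]
      have h4 := hG z k2 k3 k4
      have h5 : C = Real.exp (Real.log C) := by rw [Real.exp_log (by linarith)]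
      have h6 : z.im ^ 6 ≤ Real.exp (6 * (1 + ℓ)) := by
        have h7 : z.im ≤ Real.exp (1 + ℓ) := by
          rw [Real.exp_add, hℓd, Real.exp_log (by linarith)]
          have : (2 : ℝ) ≤ Real.exp 1 := by linarith [Real.exp_one_gt_d9]
          nlinarith
        have e : Real.exp (6 * (1 + ℓ)) = Real.exp (1 + ℓ) ^ 6 := by
          rw [← Real.exp_nat_mul]; norm_num
        rw [e]
        have : 0 ≤ z.im := by linarith
        gcongr
      rw [div_le_iff₀ (norm_pos_iff.2 (hXne z hz))]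
      calc ‖F z‖ ≤ C * z.im ^ 6 := h4
        _ ≤ Real.exp (Real.log C) * Real.exp (6 * (1 + ℓ)) := by
          rw [← h5]; gcongr
        _ = Real.exp (Real.log C + 6 * (1 + ℓ)) := by rw [← Real.exp_add]
        _ ≤ Real.exp (8 * ℓ + (-KX)) := Real.exp_le_exp.2 (by linarith)
        _ = Real.exp (8 * ℓ) * Real.exp (-KX) := by rw [← Real.exp_add]
        _ ≤ _ := by gcongr)
    (by
      obtain ⟨g1, g2, g3⟩ := hR c (by rw [hcre]; norm_num) (by rw [hcre]; norm_num) (by rw [hcim]; linarith)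
      rw [hQlogn c hcm g1]
      have h2 := hXX c (by rw [hcre]; norm_num) (by rw [hcre]; norm_num) (by rw [hcim]; linarith)
      rw [hcim] at g2 h2
      have h3 : min δ η * ℓ ≤ η * ℓ := by gcongr
      rw [abs_le] at g2 h2 ⊢
      constructor
      · linarith [g2.1, g2.2, h2.1, h2.2]
      · linarith [g2.1, g2.2, h2.1, h2.2])
    (fun z hz => by
      obtain ⟨h2, h3⟩ := ball_coords hz
      rw [hcre] at h2
      rw [hcim] at h3
      have h2' := abs_lt.1 h2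
      have h3' := abs_lt.1 h3
      have hzm : z ∈ Rc b 3 y ρ := ⟨by linarith, by linarith, by linarith⟩
      obtain ⟨g1, g2, g3⟩ := hR z (by linarith) (by linarith) (by linarith)
      rw [hQlog z hzm g1]
      have h4 := hL2 z (by linarith) (by linarith) (by linarith)
      have h5 : Real.log z.im ≤ ℓ + 1 := by
        have := log_near (h := ρ / 4) (y := z.im) (τ := y) (by positivity) (by linarith) (by linarith) h3.le
        linarith [(abs_le.1 this).2]
      have h6 : min δ η * Real.log z.im ≤ η * (ℓ + 1) := by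
        have : 0 ≤ Real.log z.im := Real.log_nonneg (by linarith)
        gcongr
      have h7 : deriv F z / F z - L2 z = (deriv F z / F z - (Real.log z.im : ℂ)) -
          (L2 z - (Real.log z.im : ℂ)) := by ring
      rw [h7]
      refine (norm_sub_le _ _).trans ?_
      linarith) w hwy hwb hw2
  have hFw := hne w hwm
  obtain ⟨q1, q2⟩ := key
  rw [hQlogn w hwm hFw] at q1
  rw [hQlog w hwm hFw] at q2
  refine ⟨hFw, ?_, ?_⟩
  · have h2 := hXX w (by linarith) (by linarith) (by linarith)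
    rw [hwy] at h2
    rw [abs_le] at q1 h2 ⊢
    constructor
    · linarith [q1.1, q1.2, h2.1, h2.2]
    · linarith [q1.1, q1.2, h2.1, h2.2]
  · have h2 := hL2 w (by linarith) (by linarith) (by linarith)
    rw [hwy] at h2
    have h3 : deriv F w / F w - (ℓ : ℂ) = (deriv F w / F w - L2 w) + (L2 w - (Real.log y : ℂ)) := by
      rw [hℓd]; ring
    rw [h3]
    refine (norm_add_le _ _).trans ?_
    linarith

/-- `TT l Zf` is good in a zero-free box -/
theorem F_good (l : List ℂ) (ρ δ h : ℝ) (hρ : 0 < ρ) (hρ1 : ρ ≤ 1 / 2) (hδ : 0 < δ) (hh : 0 < h) :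
    ∃ t₀ : ℝ, 4 ≤ t₀ ∧ ∀ (τ b : ℝ), t₀ ≤ τ → 1 / 2 ≤ b → b ≤ 1 →
      (∀ w ∈ Rc b 3 τ (h + ρ), TT l Zf w ≠ 0) → ∀ x : ℝ,
      Good (TT l Zf) (Rc (b + ρ) 3 τ h) (Real.log τ) x (b + ρ) δ := by
  obtain ⟨t1, ht1, h1⟩ := F_size l ρ (δ / 4) hρ hρ1 (by positivity)
  obtain ⟨t2, ht2, h2⟩ := log_large (max 1 (8 / δ))
  refine ⟨max (t1 + h) (max (2 * h) (max t2 4)), ?_, ?_⟩
  · exact ((le_max_right t2 4).trans (le_max_right _ _)).trans (le_max_right _ _)
  intro τ b hτ hb1 hb2 hne x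
  have hτ1 : t1 + h ≤ τ := (le_max_left _ _).trans hτ
  have hτ2 : 2 * h ≤ τ := ((le_max_left _ _).trans (le_max_right _ _)).trans hτ
  have hτ3 : t2 ≤ τ := (((le_max_left _ _).trans (le_max_right _ _)).trans (le_max_right _ _)).trans hτ
  have hτ4 : 4 ≤ τ := (((le_max_right _ _).trans (le_max_right _ _)).trans (le_max_right _ _)).trans hτ
  have hℓ := h2 τ hτ3
  set ℓ := Real.log τ with hℓd
  have hℓ1 : 1 ≤ ℓ := (le_max_left _ _).trans hℓ
  have hℓ2 : 8 ≤ δ * ℓ := by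
    have := (le_max_right _ _).trans hℓ
    rw [div_le_iff₀ hδ] at this
    linarith
  have hall : ∀ w ∈ Rc (b + ρ) 3 τ h, TT l Zf w ≠ 0 ∧
      |Real.log ‖TT l Zf w‖ - (w.re - 1 / 2) * ℓ| ≤ δ * ℓ ∧
      ‖deriv (TT l Zf) w / TT l Zf w - (ℓ : ℂ)‖ ≤ δ * ℓ := by
    rintro w ⟨hw1, hw2, hw3⟩
    have hw3' := abs_lt.1 hw3
    obtain ⟨k1, k2, k3⟩ := h1 w.im b (by linarith) hb1 hb2 (by
      rintro z ⟨hz1, hz2, hz3⟩
      refine hne z ⟨hz1, hz2, ?_⟩
      calc |z.im - τ| = |(z.im - w.im) + (w.im - τ)| := by congr 1; ring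
        _ ≤ |z.im - w.im| + |w.im - τ| := abs_add_le _ _
        _ < h + ρ := by linarith) w rfl hw1.le hw2.le
    have h3 := log_near (y := w.im) (τ := τ) hh.le hτ2 (by linarith) hw3.le
    have h4 := abs_le.1 h3
    refine ⟨k1, ?_, ?_⟩
    · have h5 : (w.re - 1 / 2) * Real.log w.im - (w.re - 1 / 2) * ℓ =
          (w.re - 1 / 2) * (Real.log w.im - ℓ) := by ring
      have h6 : |(w.re - 1 / 2) * (Real.log w.im - ℓ)| ≤ 3 * 1 := by
        rw [abs_mul]
        have : |w.re - 1 / 2| ≤ 3 := by rw [abs_le]; constructor <;> linarith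
        gcongr
      rw [← h5] at h6
      rw [abs_le] at k2 h6 ⊢
      have h7 : δ / 4 * Real.log w.im ≤ δ / 4 * (ℓ + 1) := by gcongr; linarith
      have h8 : δ * 1 ≤ δ * ℓ := by gcongr
      constructor
      · linarith [k2.1, h6.1, h6.2]
      · linarith [k2.2, h6.1, h6.2]
    · have h5 : deriv (TT l Zf) w / TT l Zf w - (ℓ : ℂ) =
          (deriv (TT l Zf) w / TT l Zf w - (Real.log w.im : ℂ)) + ((Real.log w.im - ℓ : ℝ) : ℂ) := by
        push_cast; ring
      rw [h5]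
      refine (norm_add_le _ _).trans ?_
      rw [Complex.norm_real, Real.norm_eq_abs]
      have h7 : δ / 4 * Real.log w.im ≤ δ / 4 * (ℓ + 1) := by gcongr; linarith
      have h8 : δ * 1 ≤ δ * ℓ := by gcongr
      linarith
  refine ⟨?_, ?_, ?_⟩
  · refine (TT_diff uhp_open l Zf_diffOn).mono ?_
    rintro z ⟨hz1, hz2, hz3⟩
    have := abs_lt.1 hz3
    have h3 : 0 < z.im := by linarith
    exact h3
  · intro w hw
    obtain ⟨k1, k2, k3⟩ := hall w hw
    have h3 := (abs_le.1 k2).2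
    rw [← Real.log_le_iff_le_exp (norm_pos_iff.2 k1)]
    have h4 : (w.re - 1 / 2 + δ) * ℓ ≤ (max w.re x - 1 / 2 + δ) * ℓ := by
      gcongr
      exact le_max_left _ _
    linarith
  · intro w hw _
    obtain ⟨k1, k2, k3⟩ := hall w hw
    refine ⟨k1, k3, ?_⟩
    have h3 := (abs_le.1 k2).1
    rw [← Real.le_log_iff_exp_le (norm_pos_iff.2 k1)]
    linarith

end Pool.Agent.N799.SP
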