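import Pool.Agent.N799.SP.Three

/-!
# Zeros of `ζ` force zeros of `TT l Zf`: the main step
-/

set_option autoImplicit false

open Complex Metric Set Filter Topology

namespace Pool.Agent.N799.SP

open H345 (XX)
open H345.Chi (L2)

theorem Good_mono {G : ℂ → ℂ} {Ω : Set ℂ} {ℓ x a a' δ : ℝ} (h : Good G Ω ℓ x a δ) (ha : a ≤ a') :
    Good G Ω ℓ x a' δ := ⟨h.1, h.2.1, fun w hw hw' => h.2.2 w hw (ha.trans hw')⟩

/-- The analytic core: `F` has no zeros near, `E` is the good solution, `Y = Zf - E` is controlled by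
its size on a small disc. -/
theorem core (η δ' h r H1 Crec : ℝ) (hη : 0 < η) (hη1 : η ≤ 1 / 16) (hδ' : δ' = η / 100)
    (hr : r = η / 4) (hh : h = 100 / η) (hH1 : H1 = h + 1) (hC : 1 ≤ Crec) :
    ∃ t₀ : ℝ, 4 ≤ t₀ ∧ ∀ (τ b2 : ℝ) (w0 : ℂ) (Y E : ℂ → ℂ), t₀ ≤ τ → 1 / 2 + 2 * η ≤ b2 → b2 ≤ 1 →
      w0.im = τ → b2 + 6 * η ≤ w0.re → w0.re < 1 → Zf w0 = 0 →
      DifferentiableOn ℂ E (Rc (b2 - η) 3 τ H1) →
      (∀ w ∈ Rc (b2 - η) 3 τ H1, ‖E w‖ ≤ Real.exp ((max w.re b2 - 1 / 2 + δ') * Real.log τ)) →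
      Real.exp ((w0.re - 1 / 2 - δ') * Real.log τ) ≤ ‖E w0‖ →
      (∀ w ∈ Rc (b2 - η) 3 τ H1, Y w = Zf w - E w) →
      (∀ B : ℝ, 0 ≤ B → (∀ z ∈ ball (⟨b2 + r, τ⟩ : ℂ) r, ‖Y z‖ ≤ B) →
        ∀ z ∈ Rc (b2 - η) 3 τ H1, ‖Y z‖ ≤ Crec * B) → False := by
  obtain ⟨K, hK, hXX⟩ := log_XX
  obtain ⟨Cz, hCz, hz⟩ := zeta_growth
  obtain ⟨Cf, hCf, hZf⟩ := Zf_growth2
  obtain ⟨t1, ht1, hlg⟩ := log_large
    (max ((100 + 3 * K + Real.log (Crec + 1) + Real.log Cz + Real.log Cf) * 100 / η) 1)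
  refine ⟨max t1 (2 * H1 + 6), ?_, ?_⟩
  · have : 0 ≤ H1 := by rw [hH1, hh]; positivity
    exact le_max_of_le_right (by linarith)
  intro τ b2 w0 Y E hτ hb2 hb2' hw0im hw0re hw01 hw0 hEd hEu hEl hY hrec
  have hτ1 : t1 ≤ τ := (le_max_left _ _).trans hτ
  have hτ2 : 2 * H1 + 6 ≤ τ := (le_max_right _ _).trans hτ
  have hℓ := hlg τ hτ1
  set ℓ := Real.log τ with hℓd
  have hh0 : 0 < h := by rw [hh]; positivity
  have hH10 : 0 < H1 := by linarith
  have hr0 : 0 < r := by rw [hr]; positivity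
  have hr1 : r ≤ 1 / 64 := by rw [hr]; linarith
  have hδ'0 : 0 < δ' := by rw [hδ']; positivity
  have hℓ1 : 1 ≤ ℓ := (le_max_right _ _).trans hℓ
  have hℓ0 : 0 < ℓ := by linarith
  have hℓτ : Real.exp ℓ = τ := by rw [hℓd, Real.exp_log (by linarith)]
  have hlogC : 0 ≤ Real.log (Crec + 1) := Real.log_nonneg (by linarith)
  have hlogCz : 0 ≤ Real.log Cz := Real.log_nonneg hCz
  have hlogCf : 0 ≤ Real.log Cf := Real.log_nonneg hCf
  have hbig : 100 + 3 * K + Real.log (Crec + 1) + Real.log Cz + Real.log Cf ≤ η / 100 * ℓ := by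
    have := (le_max_left _ _).trans hℓ
    rw [div_le_iff₀ hη] at this
    linarith
  have hlogC1 : Real.log Crec ≤ Real.log (Crec + 1) := Real.log_le_log (by linarith) (by linarith)
  have hlog2 : Real.log 2 ≤ 1 := by linarith [Real.log_two_lt_d9]
  set Ω := Rc (b2 - η) 3 τ H1 with hΩ
  have hmem : ∀ w : ℂ, b2 - η < w.re → w.re < 3 → |w.im - τ| < H1 → w ∈ Ω := fun w k1 k2 k3 =>
    ⟨k1, k2, k3⟩
  have hlogim : ∀ w : ℂ, |w.im - τ| ≤ H1 → |Real.log w.im - ℓ| ≤ 1 ∧ 2 ≤ w.im := by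
    intro w hw
    refine ⟨log_near hH10.le (by linarith) (by linarith) hw, ?_⟩
    have := (abs_le.1 hw).1
    linarith
  -- the maximum on the disc
  set wc : ℂ := ⟨b2 + r, τ⟩ with hwc
  have hballΩ : closedBall wc r ⊆ Ω := by
    intro z hz
    rw [mem_closedBall, dist_eq_norm] at hz
    have k1 := abs_le.1 ((abs_re_le_norm (z - wc)).trans hz)
    have k2 := (abs_im_le_norm (z - wc)).trans hz
    rw [sub_re] at k1
    rw [sub_im] at k2
    simp only [hwc] at k1 k2
    exact hmem z (by linarith) (by linarith) (by linarith)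
  have hYd : DifferentiableOn ℂ Y Ω := by
    have h1 : DifferentiableOn ℂ (fun w => Zf w - E w) Ω := by
      refine DifferentiableOn.sub (Zf_diffOn.mono ?_) hEd
      rintro z ⟨_, _, hz3⟩
      have := (hlogim z hz3.le).2
      have h4 : 0 < z.im := by linarith
      exact h4
    exact h1.congr hY
  obtain ⟨w1, hw1m, hw1max⟩ := (isCompact_closedBall wc r).exists_isMaxOn
    ⟨wc, mem_closedBall_self hr0.le⟩ ((hYd.continuousOn.mono hballΩ).norm)
  have hw1max' : ∀ z ∈ closedBall wc r, ‖Y z‖ ≤ ‖Y w1‖ := fun z hz => hw1max hz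
  have hw1Ω : w1 ∈ Ω := hballΩ hw1m
  have hw1re : b2 ≤ w1.re ∧ w1.re ≤ b2 + η / 2 := by
    rw [mem_closedBall, dist_eq_norm] at hw1m
    have k1 := abs_le.1 ((abs_re_le_norm (w1 - wc)).trans hw1m)
    rw [sub_re] at k1
    simp only [hwc] at k1
    constructor
    · linarith
    · linarith
  have hw1im : |w1.im - τ| ≤ r := by
    rw [mem_closedBall, dist_eq_norm] at hw1m
    have k2 := (abs_im_le_norm (w1 - wc)).trans hw1m
    rw [sub_im] at k2
    simpa only [hwc] using k2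
  set M : ℝ := ‖Y w1‖ with hM
  have hM0 : 0 ≤ M := norm_nonneg _
  have hYM : ∀ z ∈ Ω, ‖Y z‖ ≤ Crec * M :=
    hrec M hM0 fun z hz => hw1max' z (ball_subset_closedBall hz)
  have hw0Ω : w0 ∈ Ω := hmem w0 (by linarith) (by linarith) (by
    rw [hw0im, sub_self, abs_zero]; exact hH10)
  have hY0 : Real.exp ((w0.re - 1 / 2 - δ') * ℓ) ≤ Crec * M := by
    have h1 := hYM w0 hw0Ω
    rw [hY w0 hw0Ω, hw0, zero_sub, norm_neg] at h1
    exact hEl.trans h1
  have hMpos : 0 < M := by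
    by_contra hcon
    have : M = 0 := le_antisymm (not_lt.1 hcon) hM0
    rw [this, mul_zero] at hY0
    linarith [Real.exp_pos ((w0.re - 1 / 2 - δ') * ℓ)]
  set m : ℝ := Real.log M with hm
  have hMexp : Real.exp m = M := Real.exp_log hMpos
  have hCexp : Real.exp (Real.log Crec) = Crec := Real.exp_log (by linarith)
  have hm_low : (w0.re - 1 / 2 - 2 * δ') * ℓ ≤ m := by
    have h1 : Real.exp ((w0.re - 1 / 2 - δ') * ℓ) ≤ Real.exp (Real.log Crec + m) := by
      rw [Real.exp_add, hMexp, hCexp]; exact hY0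
    rw [Real.exp_le_exp] at h1
    have h2 : δ' * ℓ = η / 100 * ℓ := by rw [hδ']
    linarith
  -- upper bound for `m`
  have hE1 : ‖E w1‖ ≤ Real.exp ((b2 + η / 2 - 1 / 2 + δ') * ℓ) := by
    refine (hEu w1 hw1Ω).trans (Real.exp_le_exp.2 ?_)
    gcongr
    exact max_le hw1re.2 (by linarith)
  have hm_up : m ≤ (2 + 1 / 10) * ℓ := by
    have h1 : M ≤ ‖Zf w1‖ + ‖E w1‖ := by
      rw [hM, hY w1 hw1Ω]; exact norm_sub_le _ _
    have h2 := hZf w1 (by linarith [hw1re.2]) (by linarith [(hlogim w1 (by linarith)).2])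
    have h3 : w1.im ≤ Real.exp (ℓ + 1) := by
      have k := hlogim w1 (by linarith)
      rw [← Real.log_le_iff_le_exp (by linarith [k.2])]
      linarith [(abs_le.1 k.1).2]
    have h4 : ‖Zf w1‖ ≤ Real.exp (Real.log Cf + 2 * (ℓ + 1)) := by
      rw [Real.exp_add, Real.exp_log (by linarith)]
      have e : Real.exp (2 * (ℓ + 1)) = Real.exp (ℓ + 1) ^ 2 := by
        rw [← Real.exp_nat_mul]; norm_num
      rw [e]
      refine h2.trans ?_
      have : 0 ≤ w1.im := by linarith [(hlogim w1 (by linarith)).2]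
      gcongr
    have h5 : ‖E w1‖ ≤ Real.exp (Real.log Cf + 2 * (ℓ + 1)) := by
      refine hE1.trans (Real.exp_le_exp.2 ?_)
      have : (b2 + η / 2 - 1 / 2 + δ') * ℓ ≤ 1 * ℓ := by
        gcongr
        linarith
      linarith
    have h6 : M ≤ Real.exp (Real.log Cf + 2 * (ℓ + 1) + 1) := by
      have : (2 : ℝ) ≤ Real.exp 1 := by linarith [Real.exp_one_gt_d9]
      rw [Real.exp_add _ 1]
      have h7 := Real.exp_pos (Real.log Cf + 2 * (ℓ + 1))
      nlinarith
    have h7 : m ≤ Real.log Cf + 2 * (ℓ + 1) + 1 := by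
      rw [hm, Real.log_le_iff_le_exp hMpos]; exact h6
    have h8 : η / 100 * ℓ ≤ 1 / 10 * ℓ := mul_le_mul_of_nonneg_right (by linarith) hℓ0.le
    linarith
  set δ2 : ℝ := η / 10 with hδ2
  set σ1 : ℝ := 1 - b2 with hσ1
  set σ2 : ℝ := 1 / 2 + m / ℓ - δ2 with hσ2
  have hmℓ : m / ℓ * ℓ = m := by field_simp
  have hσ2a : b2 + 5 * η ≤ σ2 := by
    have h1 : w0.re - 1 / 2 - 2 * δ' ≤ m / ℓ := by
      rw [le_div_iff₀ hℓ0]; exact hm_low
    linarith
  have hσ2b : σ2 < 3 := by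
    have h1 : m / ℓ ≤ 2 + 1 / 10 := by
      rw [div_le_iff₀ hℓ0]; exact hm_up
    have : 0 < δ2 := by positivity
    linarith
  have himw : ∀ w : ℂ, |w.im - w1.im| ≤ h → |w.im - τ| < H1 := by
    intro w hw
    calc |w.im - τ| = |(w.im - w1.im) + (w1.im - τ)| := by congr 1; ring
      _ ≤ |w.im - w1.im| + |w1.im - τ| := abs_add_le _ _
      _ < H1 := by linarith
  have hEsmall : ‖E w1‖ ≤ M / 2 := by
    refine hE1.trans ?_
    have h1 : M / 2 = Real.exp (m - Real.log 2) := by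
      rw [Real.exp_sub, hMexp, Real.exp_log (by norm_num)]
    rw [h1]
    apply Real.exp_le_exp.2
    have h2 : (b2 + η / 2 - 1 / 2 + δ') * ℓ + η * ℓ ≤ (w0.re - 1 / 2 - 2 * δ') * ℓ := by
      rw [← add_mul]
      gcongr
      linarith
    have h3 : η / 100 * ℓ ≤ η * ℓ := by gcongr; linarith
    linarith
  -- lower bound at `w1`
  have hlow : Real.exp (m - 1 - K - 1 - (w1.re - 1 / 2) * ℓ) ≤ ‖riemannZeta w1‖ := by
    have k := hlogim w1 (by linarith)
    have hX := hXX w1 (by linarith) (by linarith) (by linarith)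
    have hX0 := norm_pos_iff.2 (H345.Chi.XX_ne (by linarith : 0 < w1.re) (by linarith : 1 ≤ w1.im))
    have h1 : M ≤ ‖Zf w1‖ + ‖E w1‖ := by
      rw [hM, hY w1 hw1Ω]; exact norm_sub_le _ _
    have h2 : M / 2 ≤ ‖Zf w1‖ := by linarith
    rw [Zf_eq (by linarith) (by linarith), norm_mul] at h2
    have h3 : ‖XX w1‖ ≤ Real.exp (K + 1 + (w1.re - 1 / 2) * ℓ) := by
      rw [← Real.log_le_iff_le_exp hX0]
      have h4 : (w1.re - 1 / 2) * Real.log w1.im ≤ (w1.re - 1 / 2) * (ℓ + 1) := by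
        have : 0 ≤ w1.re - 1 / 2 := by linarith
        gcongr
        linarith [(abs_le.1 k.1).2]
      linarith [(abs_le.1 hX).2]
    have h4 : M / 2 ≤ Real.exp (K + 1 + (w1.re - 1 / 2) * ℓ) * ‖riemannZeta w1‖ := by
      refine h2.trans ?_
      gcongr
    have h5 : Real.exp (m - 1) ≤ M / 2 := by
      rw [Real.exp_sub, hMexp]
      have : (2 : ℝ) ≤ Real.exp 1 := by linarith [Real.exp_one_gt_d9]
      gcongr
    have h6 : Real.exp (m - 1 - K - 1 - (w1.re - 1 / 2) * ℓ) =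
        Real.exp (m - 1) / Real.exp (K + 1 + (w1.re - 1 / 2) * ℓ) := by
      rw [← Real.exp_sub]
      congr 1
      ring
    rw [h6, div_le_iff₀ (Real.exp_pos _)]
    linarith
  -- the three lines bound
  set C : ℝ := m - 3 - K - (w1.re - 1 / 2) * ℓ with hCdef
  set κ : ℝ := η / 100 with hκ
  have hκ0 : 0 < κ := by positivity
  have hκℓ : κ * ℓ = η * ℓ / 100 := by rw [hκ]; ring
  have hηℓ : 0 < η * ℓ := by positivity
  have hδ2ℓ : δ2 * ℓ = η * ℓ / 10 := by rw [hδ2]; ring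
  have hup : ‖riemannZeta w1‖ ≤ Real.exp C := by
    refine three (σ1 := σ1) (σ2 := σ2) (h := h) (ℓ := ℓ) (κ := κ) (A := m + Real.log (Crec + 1) + 1)
      (B := Real.log (Crec + 1) + K + 4 + δ2 * ℓ) (G := Real.log Cz + 2 * (ℓ + 1)) hℓ0 hκ0 hh0
      (by linarith) (by linarith) (by linarith) (by linarith) ?_ ?_ ?_ ?_ ?_ ?_ ?_
    · intro w k1 k2 k3
      have k4 := (hlogim w (himw w k3).le).2
      exact differentiableAt_riemannZeta (ne_one_of_im (by linarith))
    · -- left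
      intro w k1 k3
      have k4 := himw w k3
      have e : w = ⟨1 - b2, w.im⟩ := by
        apply Complex.ext
        · simpa using k1
        · rfl
      rw [e, norm_zeta_refl]
      have hm' : (⟨b2, w.im⟩ : ℂ) ∈ Ω := hmem _ (by simp only; linarith) (by simp only; linarith) k4
      have h1 := hYM _ hm'
      have h2 := hEu _ hm'
      simp only [max_self] at h2
      have h3 : ‖Zf ⟨b2, w.im⟩‖ ≤ ‖Y ⟨b2, w.im⟩‖ + ‖E ⟨b2, w.im⟩‖ := by
        rw [hY _ hm']
        have := norm_add_le (Zf ⟨b2, w.im⟩ - E ⟨b2, w.im⟩) (E ⟨b2, w.im⟩)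
        rwa [sub_add_cancel] at this
      have h4 : Real.exp ((b2 - 1 / 2 + δ') * ℓ) ≤ Crec * M := by
        refine le_trans (Real.exp_le_exp.2 ?_) hY0
        gcongr
        linarith
      have h5 : Real.exp (m + Real.log (Crec + 1) + 1) = M * (Crec + 1) * Real.exp 1 := by
        rw [Real.exp_add, Real.exp_add, hMexp, Real.exp_log (by linarith)]
      rw [h5]
      have h6 : (2 : ℝ) ≤ Real.exp 1 := by linarith [Real.exp_one_gt_d9]
      have h7 : M * (Crec + 1) * 2 ≤ M * (Crec + 1) * Real.exp 1 := by gcongr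
      nlinarith
    · -- right
      intro w k1 k3
      have k4 := himw w k3
      have hm' : w ∈ Ω := hmem w (by linarith) (by linarith) k4
      have h1 := hYM _ hm'
      have h2 := hEu _ hm'
      have hmax : max w.re b2 = σ2 := by
        rw [k1]; exact max_eq_left (by linarith)
      rw [hmax] at h2
      have k := hlogim w k4.le
      have hX := hXX w (by linarith) (by linarith) (by linarith [k.2])
      have hX0 := norm_pos_iff.2 (H345.Chi.XX_ne (by linarith : 0 < w.re) (by linarith [k.2] : 1 ≤ w.im))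
      have h3 : ‖Zf w‖ ≤ ‖Y w‖ + ‖E w‖ := by
        rw [hY _ hm']
        have := norm_add_le (Zf w - E w) (E w)
        rwa [sub_add_cancel] at this
      have h4 : Real.exp ((σ2 - 1 / 2 + δ') * ℓ) ≤ M := by
        rw [← hMexp]
        apply Real.exp_le_exp.2
        have e : (σ2 - 1 / 2 + δ') * ℓ = m / ℓ * ℓ - (δ2 - δ') * ℓ := by
          rw [hσ2]; ring
        rw [e, hmℓ]
        have : 0 ≤ (δ2 - δ') * ℓ := by
          have : 0 ≤ δ2 - δ' := by rw [hδ2, hδ']; linarith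
          positivity
        linarith
      have h5 : ‖Zf w‖ ≤ Real.exp (m + Real.log (Crec + 1)) := by
        rw [Real.exp_add, hMexp, Real.exp_log (by linarith)]
        nlinarith
      rw [Zf_eq (by linarith) (by linarith [k.2]), norm_mul] at h5
      have h6 : Real.exp (m - δ2 * ℓ - 3 - K) ≤ ‖XX w‖ := by
        rw [← Real.le_log_iff_exp_le hX0]
        have h7 : (w.re - 1 / 2) * (ℓ - 1) ≤ (w.re - 1 / 2) * Real.log w.im := by
          have : 0 ≤ w.re - 1 / 2 := by linarith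
          gcongr
          linarith [(abs_le.1 k.1).1]
        have h8 : (w.re - 1 / 2) * ℓ = m - δ2 * ℓ := by
          rw [k1, hσ2]
          have : (1 / 2 + m / ℓ - δ2 - 1 / 2) * ℓ = m / ℓ * ℓ - δ2 * ℓ := by ring
          rw [this, hmℓ]
        have h9 : w.re - 1 / 2 ≤ 3 := by linarith
        linarith [(abs_le.1 hX).1]
      have h7 : Real.exp (m - δ2 * ℓ - 3 - K) * ‖riemannZeta w‖ ≤ Real.exp (m + Real.log (Crec + 1)) := by
        refine le_trans ?_ h5
        gcongr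
      have h8 : Real.exp (m + Real.log (Crec + 1)) = Real.exp (m - δ2 * ℓ - 3 - K) *
          Real.exp (Real.log (Crec + 1) + K + 3 + δ2 * ℓ) := by
        rw [← Real.exp_add]
        congr 1
        ring
      rw [h8] at h7
      have h9 := le_of_mul_le_mul_left h7 (Real.exp_pos _)
      refine h9.trans (Real.exp_le_exp.2 ?_)
      linarith
    · -- edges
      intro w k1 k2 k3
      have k4 := himw w k3
      have k := hlogim w k4.le
      have h2 := hz w (by linarith) (by linarith [k.2])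
      have h3 : w.im ≤ Real.exp (ℓ + 1) := by
        rw [← Real.log_le_iff_le_exp (by linarith [k.2])]
        linarith [(abs_le.1 k.1).2]
      rw [Real.exp_add, Real.exp_log (by linarith)]
      have e : Real.exp (2 * (ℓ + 1)) = Real.exp (ℓ + 1) ^ 2 := by
        rw [← Real.exp_nat_mul]; norm_num
      rw [e]
      refine h2.trans ?_
      have : 0 ≤ w.im := by linarith [k.2]
      gcongr
    · -- left exponent
      have h1 : 3 / 4 * (σ1 - w1.re) + 9 * κ + (w1.re - 1 / 2) ≤ -(η / 2) := by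
        rw [hσ1, hκ]; linarith [hw1re.2]
      have h2 : ℓ * (3 / 4 * (σ1 - w1.re) + 9 * κ + (w1.re - 1 / 2)) ≤ ℓ * (-(η / 2)) := by gcongr
      rw [hCdef]
      linarith
    · -- right exponent
      have h1 : (w1.re - 1 / 2) * ℓ = m - δ2 * ℓ - (σ2 - w1.re) * ℓ := by
        have : (w1.re - 1 / 2) * ℓ = m / ℓ * ℓ - δ2 * ℓ - (σ2 - w1.re) * ℓ := by
          rw [hσ2]; ring
        rw [this, hmℓ]
      have h2 : η / 2 * ℓ ≤ (1 / 4 * (σ2 - w1.re) - 9 * κ) * ℓ := by
        gcongr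
        rw [hκ]; linarith [hw1re.2]
      rw [hCdef, h1]
      linarith
    · -- edge exponent
      have h1 : κ * h ^ 2 = 100 / η := by
          rw [hκ, hh]; field_simp
      have h2 : 100 ≤ 100 / η := by
        rw [le_div_iff₀ hη]; linarith
      have h3 : ℓ * (9 / 4 + 9 * κ - κ * h ^ 2) ≤ ℓ * (-50) := by
        gcongr
        rw [h1, hκ]; linarith
      have h4 : (w1.re - 1 / 2) * ℓ ≤ 1 * ℓ := by
        gcongr
        linarith [hw1re.2]
      have h5 : 0 ≤ m := by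
        refine le_trans ?_ hm_low
        have : 0 ≤ w0.re - 1 / 2 - 2 * δ' := by rw [hδ']; linarith
        positivity
      have h6 : κ * ℓ ≤ 1 * ℓ := by
        rw [hκ]; exact mul_le_mul_of_nonneg_right (by linarith) hℓ0.le
      rw [hCdef]
      linarith
  have hfin := hlow.trans hup
  rw [Real.exp_le_exp, hCdef] at hfin
  linarith

/-- Zeros of `ζ` force zeros of `TT l Zf`. -/
theorem zeta_to_F (l : List ℂ) (ε : ℝ) (hε : 0 < ε) : ∃ H t₀ : ℝ, 0 < H ∧ 4 ≤ t₀ ∧ ∀ w0 : ℂ,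
    1 / 2 + ε ≤ w0.re → w0.re < 1 → t₀ ≤ w0.im → Zf w0 = 0 →
    ∃ w : ℂ, TT l Zf w = 0 ∧ w0.re - ε ≤ w.re ∧ |w.im - w0.im| ≤ H := by
  set n : ℕ := l.length with hn
  set ε1 : ℝ := min ε (1 / 2) with hε1
  have hε10 : 0 < ε1 := by positivity
  set η : ℝ := ε1 / (n + 8) with hη
  have hn0 : (0 : ℝ) ≤ n := Nat.cast_nonneg n
  have hη0 : 0 < η := by positivity
  have hηn : (n + 8) * η = ε1 := by rw [hη]; field_simp
  have hη1 : η ≤ 1 / 16 := by
    have : ε1 ≤ 1 / 2 := min_le_right _ _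
    nlinarith
  obtain ⟨Crec, hCrec, hrec⟩ := recon l (3 + (100 / η + 1)) (by positivity) (η / 4) (by positivity)
  obtain ⟨δ, L, hδ, hL, hgood⟩ := good_list l (3 + (100 / η + 1)) η hη0 (η / 100) (by positivity)
  obtain ⟨t1, ht1, hF⟩ := F_good l η δ (100 / η + 1) hη0 (by linarith) hδ (by positivity)
  obtain ⟨t2, ht2, hcore⟩ := core η (η / 100) (100 / η) (η / 4) (100 / η + 1) Crec hη0 hη1 rfl rfl rfl
    rfl hCrec
  obtain ⟨t3, ht3, hlg⟩ := log_large L
  refine ⟨100 / η + 2, max (max t1 t2) (max t3 (100 / η + 4)), by positivity, ?_, ?_⟩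
  · exact ht1.trans ((le_max_left _ _).trans (le_max_left _ _))
  intro w0 hw0 hw01 hw0t hw0z
  by_contra hcon
  push Not at hcon
  have k1 : t1 ≤ w0.im := ((le_max_left _ _).trans (le_max_left _ _)).trans hw0t
  have k2 : t2 ≤ w0.im := ((le_max_right _ _).trans (le_max_left _ _)).trans hw0t
  have k3 : t3 ≤ w0.im := ((le_max_left _ _).trans (le_max_right _ _)).trans hw0t
  have k4 : 100 / η + 4 ≤ w0.im := ((le_max_right _ _).trans (le_max_right _ _)).trans hw0t
  set τ := w0.im with hτ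
  set b : ℝ := w0.re - ε1 with hb
  have hεε : ε1 ≤ ε := min_le_left _ _
  have hb1 : 1 / 2 ≤ b := by linarith
  have hb2 : b ≤ 1 := by linarith
  have hne : ∀ w ∈ Rc b 3 τ ((100 / η + 1) + η), TT l Zf w ≠ 0 := by
    rintro w ⟨m1, m2, m3⟩ h0
    have := hcon w h0 (by linarith)
    linarith
  have hFg := hF τ b k1 hb1 hb2 hne (b + η + η)
  have hFg' := Good_mono hFg (show b + η ≤ b + η + η by linarith)
  have hbn : b + η + η + n * η + 6 * η = w0.re := by
    rw [hb, ← hηn]; ring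
  have hnη : 0 ≤ n * η := by positivity
  obtain ⟨E, hE1, hE2⟩ := hgood (Real.log τ) (hlg τ k3) (b + η) τ (100 / η + 1) (b + η + η)
    (b + η + η) (TT l Zf) (by linarith) (by linarith) le_rfl (by positivity) (by linarith) hFg'
  have hw0m : w0 ∈ Rc (b + η) 3 τ (100 / η + 1) := by
    refine ⟨by linarith, by linarith, ?_⟩
    rw [hτ, sub_self, abs_zero]
    positivity
  have eb : b + η + η - η = b + η := by ring
  have huhp : Rc (b + η) 3 τ (100 / η + 1) ⊆ {w : ℂ | 0 < w.im} := by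
    rintro z ⟨_, _, hz3⟩
    have := (abs_lt.1 hz3).1
    have h4 : 0 < z.im := by linarith
    exact h4
  refine hcore τ (b + η + η) w0 (fun w => Zf w - E w) E k2 (by linarith) (by linarith) rfl
    (by linarith) hw01 hw0z (by rw [eb]; exact hE2.1) (by rw [eb]; exact hE2.2.1)
    (hE2.2.2 w0 hw0m (by linarith)).2.2 (fun w _ => rfl) ?_
  rw [eb]
  intro B hB hball z hz
  have hcent : (⟨b + η + η + η / 4, τ⟩ : ℂ) = ⟨b + η + η + η / 4, τ⟩ := rfl
  refine hrec (Rc (b + η) 3 τ (100 / η + 1)) (fun w => Zf w - E w) ⟨b + η + η + η / 4, τ⟩ B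
    (Rc_open _ _ _ _) (Rc_convex _ _ _ _) hB ((Zf_diffOn.mono huhp).sub hE2.1) ?_ ?_ ?_ hball z hz
  · apply ball_sub_Rc
    · simp only; linarith
    · simp only; linarith
    · simp only [sub_self, abs_zero]
      have : 0 < 100 / η := by positivity
      linarith
  · exact Rc_dist (by linarith) (by linarith) (by linarith)
  · intro w hw
    rw [TT_sub (Rc_open _ _ _ _) l (Zf_diffOn.mono huhp) hE2.1 w hw, hE1 w hw, sub_self, norm_zero]
    exact hB

end Pool.Agent.N799.SP
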