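import Pool.Agent.N799.SP.Op

/-!
# The operators `TT` on convex domains: reconstruction and solution of the equation
-/

set_option autoImplicit false

open Complex Metric Set Filter Topology

namespace Pool.Agent.N799.SP

/-- first order: bound a function by its value at the centre and the size of `T1 a f`. -/
theorem first_bound {Ω : Set ℂ} (hΩ : IsOpen Ω) (hc : Convex ℝ Ω) {a : ℂ} {f : ℂ → ℂ} {c : ℂ}
    {D B : ℝ} (hD : 0 ≤ D) (hf : DifferentiableOn ℂ f Ω) (hcΩ : c ∈ Ω)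
    (hdist : ∀ z ∈ Ω, ‖z - c‖ ≤ D) (hB : ∀ z ∈ Ω, ‖T1 a f z‖ ≤ B) :
    ∀ z ∈ Ω, ‖f z‖ ≤ Real.exp (‖a‖ * D) * (‖f c‖ + Real.exp (‖a‖ * D) * B * D) := by
  intro z hz
  set h : ℂ → ℂ := fun z => Complex.exp (-a * (z - c)) * f z with hh
  have hexp : ∀ x ∈ Ω, ∀ s : ℂ, ‖s‖ ≤ ‖a‖ → ‖Complex.exp (s * (x - c))‖ ≤ Real.exp (‖a‖ * D) := by
    intro x hx s hs
    rw [Complex.norm_exp]
    gcongr
    refine (le_abs_self _).trans ((abs_re_le_norm _).trans ?_)
    rw [norm_mul]
    gcongr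
    exact hdist x hx
  have hder : ∀ x ∈ Ω, HasDerivAt h (Complex.exp (-a * (x - c)) * T1 a f x) x := by
    intro x hx
    have h1 : HasDerivAt f (deriv f x) x := (hf.differentiableAt (hΩ.mem_nhds hx)).hasDerivAt
    have h2 : HasDerivAt (fun z : ℂ => -a * (z - c)) (-a * 1) x :=
      ((hasDerivAt_id x).sub_const c).const_mul (-a)
    have h3 := h2.cexp.mul h1
    refine h3.congr_deriv ?_
    simp only [T1]
    ring
  have hMV := hc.norm_image_sub_le_of_norm_hasDerivWithin_le (f := h)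
    (f' := fun x => Complex.exp (-a * (x - c)) * T1 a f x) (C := Real.exp (‖a‖ * D) * B)
    (fun x hx => (hder x hx).hasDerivWithinAt) (fun x hx => by
      rw [norm_mul]
      gcongr
      · exact hexp x hx (-a) (by rw [norm_neg])
      · exact hB x hx) hcΩ hz
  have hB0 : 0 ≤ B := (norm_nonneg _).trans (hB c hcΩ)
  have e1 : h c = f c := by simp [hh]
  have e2 : f z = Complex.exp (a * (z - c)) * h z := by
    simp only [hh]
    rw [← mul_assoc, ← Complex.exp_add]
    have : a * (z - c) + -a * (z - c) = 0 := by ring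
    rw [this, Complex.exp_zero, one_mul]
  have h4 : ‖h z‖ ≤ ‖f c‖ + Real.exp (‖a‖ * D) * B * D := by
    have h5 := norm_add_le (h z - h c) (h c)
    rw [sub_add_cancel, e1] at h5
    have h6 : Real.exp (‖a‖ * D) * B * ‖z - c‖ ≤ Real.exp (‖a‖ * D) * B * D := by
      gcongr
      exact hdist z hz
    rw [e1] at hMV
    linarith
  rw [e2, norm_mul]
  gcongr
  exact hexp z hz a le_rfl

/-- Reconstruction: a function is controlled by its size on a small disc and the size of `TT l f`. -/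
theorem recon (l : List ℂ) (D : ℝ) (hD : 0 ≤ D) : ∀ (r : ℝ), 0 < r → ∃ C : ℝ, 1 ≤ C ∧
    ∀ (Ω : Set ℂ) (f : ℂ → ℂ) (c : ℂ) (B : ℝ), IsOpen Ω → Convex ℝ Ω → 0 ≤ B →
    DifferentiableOn ℂ f Ω → ball c r ⊆ Ω → (∀ z ∈ Ω, ‖z - c‖ ≤ D) →
    (∀ z ∈ Ω, ‖TT l f z‖ ≤ B) → (∀ z ∈ ball c r, ‖f z‖ ≤ B) → ∀ z ∈ Ω, ‖f z‖ ≤ C * B := by
  induction l with
  | nil =>
    intro r hr
    refine ⟨1, le_rfl, fun Ω f c B hΩ hc hB hf hb hd hT hs z hz => ?_⟩
    rw [one_mul]
    exact hT z hz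
  | cons a l ih =>
    intro r hr
    obtain ⟨C1, hC1, h1⟩ := ih (r / 2) (by positivity)
    set K : ℝ := 2 / (r - r / 2) + ‖a‖ + 1 with hK
    have hr2 : 0 < r - r / 2 := by linarith
    have hK1 : 1 ≤ K := by
      have : 0 ≤ 2 / (r - r / 2) + ‖a‖ := by positivity
      linarith
    refine ⟨Real.exp (‖a‖ * D) * (1 + Real.exp (‖a‖ * D) * (C1 * K) * D), ?_, ?_⟩
    · have h2 : 1 ≤ Real.exp (‖a‖ * D) := Real.one_le_exp (by positivity)
      have h3 : 0 ≤ Real.exp (‖a‖ * D) * (C1 * K) * D := by positivity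
      nlinarith
    · intro Ω f c B hΩ hc hB hf hb hd hT hs z hz
      have hcΩ : c ∈ Ω := hb (mem_ball_self hr)
      have hT1 : ∀ w ∈ ball c (r / 2), ‖T1 a f w‖ ≤ K * B := by
        intro w hw
        have h2 := T1_bound a (r' := r / 2) (by linarith) (hf.mono hb) hs w hw
        refine h2.trans ?_
        gcongr
        linarith
      have hBK : B ≤ K * B := by nlinarith
      have h3 := h1 Ω (T1 a f) c (K * B) hΩ hc (by positivity) (T1_diff hΩ a hf)
        ((ball_subset_ball (by linarith)).trans hb) hd (fun w hw => (hT w hw).trans hBK) hT1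
      have h4 := first_bound hΩ hc hD hf hcΩ hd h3 z hz
      refine h4.trans ?_
      have h5 := hs c (mem_ball_self hr)
      calc Real.exp (‖a‖ * D) * (‖f c‖ + Real.exp (‖a‖ * D) * (C1 * (K * B)) * D)
          ≤ Real.exp (‖a‖ * D) * (B + Real.exp (‖a‖ * D) * (C1 * (K * B)) * D) := by gcongr
        _ = _ := by ring

/-- a primitive on a convex open set -/
theorem exists_prim {Ω : Set ℂ} (hΩ : IsOpen Ω) (hc : Convex ℝ Ω) {g : ℂ → ℂ}
    (hg : DifferentiableOn ℂ g Ω) : ∃ G : ℂ → ℂ, ∀ z ∈ Ω, HasDerivAt G (g z) z := by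
  obtain ⟨G, hG⟩ := hc.exists_forall_hasDerivWithinAt hg
  exact ⟨G, fun z hz => (hG z hz).hasDerivAt (hΩ.mem_nhds hz)⟩

/-- solution of the first order equation with initial condition -/
theorem exists_sol {Ω : Set ℂ} (hΩ : IsOpen Ω) (hc : Convex ℝ Ω) {g : ℂ → ℂ}
    (hg : DifferentiableOn ℂ g Ω) (a c : ℂ) : ∃ E : ℂ → ℂ, DifferentiableOn ℂ E Ω ∧
    (∀ z ∈ Ω, T1 a E z = g z) ∧ E c = 0 := by
  have h1 : DifferentiableOn ℂ (fun z => Complex.exp (-a * (z - c)) * g z) Ω := by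
    apply DifferentiableOn.mul _ hg
    fun_prop
  obtain ⟨G, hG⟩ := exists_prim hΩ hc h1
  have hder : ∀ z ∈ Ω, HasDerivAt (fun z => Complex.exp (a * (z - c)) * (G z - G c))
      (a * (Complex.exp (a * (z - c)) * (G z - G c)) + g z) z := by
    intro z hz
    have h2 : HasDerivAt (fun z : ℂ => a * (z - c)) (a * 1) z :=
      ((hasDerivAt_id z).sub_const c).const_mul a
    have h3 := h2.cexp.mul ((hG z hz).sub_const (G c))
    refine h3.congr_deriv ?_
    have h4 : Complex.exp (a * (z - c)) * (Complex.exp (-a * (z - c)) * g z) = g z := by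
      rw [← mul_assoc, ← Complex.exp_add]
      have : a * (z - c) + -a * (z - c) = 0 := by ring
      rw [this, Complex.exp_zero, one_mul]
    rw [h4]
    ring
  refine ⟨fun z => Complex.exp (a * (z - c)) * (G z - G c), fun z hz =>
    (hder z hz).differentiableAt.differentiableWithinAt, fun z hz => ?_, by simp⟩
  simp only [T1]
  rw [(hder z hz).deriv]
  ring

end Pool.Agent.N799.SP
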