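import Mathlib

/-!
# Products of first order operators and logarithmic derivatives
-/

set_option autoImplicit false

open Complex Metric Set Filter Topology

namespace Pool.Agent.N799.SP

/-- `f' - a f` -/
noncomputable def T1 (a : ℂ) (f : ℂ → ℂ) : ℂ → ℂ := fun z => deriv f z - a * f z

/-- the product of the operators `D - a` over a list -/
noncomputable def TT : List ℂ → (ℂ → ℂ) → (ℂ → ℂ)
  | [], f => f
  | (a :: l), f => TT l (T1 a f)

@[simp] theorem TT_nil (f : ℂ → ℂ) : TT [] f = f := rfl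
@[simp] theorem TT_cons (a : ℂ) (l : List ℂ) (f : ℂ → ℂ) : TT (a :: l) f = TT l (T1 a f) := rfl

theorem T1_diff {U : Set ℂ} (hU : IsOpen U) (a : ℂ) {f : ℂ → ℂ} (hf : DifferentiableOn ℂ f U) :
    DifferentiableOn ℂ (T1 a f) U :=
  (hf.deriv hU).sub (hf.const_mul a)

theorem TT_diff {U : Set ℂ} (hU : IsOpen U) (l : List ℂ) : ∀ {f : ℂ → ℂ},
    DifferentiableOn ℂ f U → DifferentiableOn ℂ (TT l f) U := by
  induction l with
  | nil => intro f hf; exact hf
  | cons a l ih => intro f hf; exact ih (T1_diff hU a hf)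

theorem T1_congr {U : Set ℂ} (hU : IsOpen U) (a : ℂ) {f g : ℂ → ℂ} (h : ∀ z ∈ U, f z = g z) :
    ∀ z ∈ U, T1 a f z = T1 a g z := by
  intro z hz
  have h1 : f =ᶠ[𝓝 z] g := by
    filter_upwards [hU.mem_nhds hz] with x hx using h x hx
  simp only [T1]
  rw [h1.deriv_eq, h z hz]

theorem TT_congr {U : Set ℂ} (hU : IsOpen U) (l : List ℂ) : ∀ {f g : ℂ → ℂ},
    (∀ z ∈ U, f z = g z) → ∀ z ∈ U, TT l f z = TT l g z := by
  induction l with
  | nil => intro f g h; exact h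
  | cons a l ih => intro f g h; exact ih (T1_congr hU a h)

theorem TT_sub {U : Set ℂ} (hU : IsOpen U) (l : List ℂ) : ∀ {f g : ℂ → ℂ},
    DifferentiableOn ℂ f U → DifferentiableOn ℂ g U →
    ∀ z ∈ U, TT l (fun z => f z - g z) z = TT l f z - TT l g z := by
  induction l with
  | nil => intro f g _ _ z _; rfl
  | cons a l ih =>
    intro f g hf hg z hz
    simp only [TT_cons]
    rw [← ih (T1_diff hU a hf) (T1_diff hU a hg) z hz]
    refine TT_congr hU l ?_ z hz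
    intro x hx
    simp only [T1]
    have h1 := hf.differentiableAt (hU.mem_nhds hx)
    have h2 := hg.differentiableAt (hU.mem_nhds hx)
    rw [deriv_fun_sub h1 h2]
    ring

/-- Cauchy's estimate for the first derivative -/
theorem cauchy_deriv {f : ℂ → ℂ} {z : ℂ} {r B : ℝ} (hr : 0 < r) (hf : DifferentiableOn ℂ f (ball z r))
    (hB : ∀ w ∈ ball z r, ‖f w‖ ≤ B) : ‖deriv f z‖ ≤ 2 * B / r := by
  have h2 := Complex.norm_deriv_le_of_forall_mem_sphere_norm_le (f := f) (c := z) (R := r / 2)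
    (C := B) (by positivity) (by
      apply DifferentiableOn.diffContOnCl
      refine hf.mono ?_
      exact closure_ball_subset_closedBall.trans (closedBall_subset_ball (by linarith))) (by
      intro w hw
      refine hB w ?_
      rw [mem_sphere] at hw
      rw [mem_ball, hw]
      linarith)
  refine h2.trans (le_of_eq ?_)
  field_simp

theorem ball_sub_ball {c z : ℂ} {r r' : ℝ} (hz : z ∈ ball c r') : ball z (r - r') ⊆ ball c r := by
  apply ball_subset_ball'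
  rw [mem_ball] at hz
  linarith

theorem T1_bound (a : ℂ) {f : ℂ → ℂ} {c : ℂ} {r r' B : ℝ} (hr : r' < r)
    (hf : DifferentiableOn ℂ f (ball c r)) (hB : ∀ w ∈ ball c r, ‖f w‖ ≤ B) :
    ∀ z ∈ ball c r', ‖T1 a f z‖ ≤ (2 / (r - r') + ‖a‖) * B := by
  intro z hz
  have hsub : ball z (r - r') ⊆ ball c r := ball_sub_ball hz
  have h1 := cauchy_deriv (by linarith) (hf.mono hsub) (fun w hw => hB w (hsub hw))
  have h2 := hB z (hsub (mem_ball_self (by linarith)))
  simp only [T1]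
  calc ‖deriv f z - a * f z‖ ≤ ‖deriv f z‖ + ‖a‖ * ‖f z‖ := by
        refine (norm_sub_le _ _).trans ?_
        rw [norm_mul]
    _ ≤ 2 * B / (r - r') + ‖a‖ * B := by gcongr
    _ = (2 / (r - r') + ‖a‖) * B := by ring

theorem TT_bound (l : List ℂ) : ∀ (r r' : ℝ), r' < r → ∃ C : ℝ, 0 < C ∧ ∀ (f : ℂ → ℂ) (c : ℂ) (B : ℝ),
    0 ≤ B → DifferentiableOn ℂ f (ball c r) → (∀ w ∈ ball c r, ‖f w‖ ≤ B) →
    ∀ z ∈ ball c r', ‖TT l f z‖ ≤ C * B := by
  induction l with
  | nil =>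
    intro r r' hr
    refine ⟨1, one_pos, fun f c B hB0 hf hB z hz => ?_⟩
    rw [one_mul]
    exact hB z (ball_subset_ball hr.le hz)
  | cons a l ih =>
    intro r r' hr
    obtain ⟨C, hC, h⟩ := ih ((r + r') / 2) r' (by linarith)
    refine ⟨C * (2 / (r - (r + r') / 2) + ‖a‖), ?_, fun f c B hB0 hf hB z hz => ?_⟩
    · have : 0 < r - (r + r') / 2 := by linarith
      positivity
    · have h1 := T1_bound a (r' := (r + r') / 2) (by linarith) hf hB
      have h0 : 0 ≤ (2 / (r - (r + r') / 2) + ‖a‖) * B := by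
        have : 0 < r - (r + r') / 2 := by linarith
        positivity
      have h2 := h (T1 a f) c _ h0 (T1_diff isOpen_ball a (hf.mono (ball_subset_ball (by linarith)))) h1 z hz
      simp only [TT_cons]
      rw [mul_assoc]
      exact h2

/-- `f` is analytic without zeros in the disc, with logarithmic derivative close to `ℓ`. -/
def LD (f : ℂ → ℂ) (c : ℂ) (r : ℝ) (ℓ δ : ℝ) : Prop :=
  DifferentiableOn ℂ f (ball c r) ∧ ∀ z ∈ ball c r, f z ≠ 0 ∧ ‖deriv f z / f z - ℓ‖ ≤ δ * ℓ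

theorem LD_step (a : ℂ) (r r' δ' : ℝ) (hr : r' < r) (hδ' : 0 < δ') :
    ∃ δ L : ℝ, 0 < δ ∧ 1 ≤ L ∧ ∀ (f : ℂ → ℂ) (c : ℂ) (ℓ : ℝ), L ≤ ℓ → LD f c r ℓ δ →
      LD (T1 a f) c r' ℓ δ' ∧ ∀ z ∈ ball c r', ℓ / 2 * ‖f z‖ ≤ ‖T1 a f z‖ ∧
        ‖T1 a f z‖ ≤ 2 * ℓ * ‖f z‖ := by
  set D : ℝ := r - r' with hD
  have hD0 : 0 < D := by linarith
  set θ : ℝ := min (1 / 2) (δ' * D / 16) with hθ
  have hθ0 : 0 < θ := by positivity
  have hθ1 : θ ≤ 1 / 2 := min_le_left _ _
  have hθ2 : θ ≤ δ' * D / 16 := min_le_right _ _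
  refine ⟨min (θ / 2) (δ' / 2), max 1 (2 * ‖a‖ / θ), by positivity, le_max_left _ _, ?_⟩
  intro f c ℓ hℓ hLD
  obtain ⟨hfd, hf⟩ := hLD
  have hℓ1 : 1 ≤ ℓ := (le_max_left _ _).trans hℓ
  have hℓ2 : ‖a‖ ≤ θ / 2 * ℓ := by
    have := (le_max_right _ _).trans hℓ
    rw [div_le_iff₀ hθ0] at this
    linarith
  have hℓ0 : 0 < ℓ := by linarith
  set h : ℂ → ℂ := fun z => deriv f z / f z - a with hh
  have hdf : DifferentiableOn ℂ (deriv f) (ball c r) := hfd.deriv isOpen_ball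
  have hhd : DifferentiableOn ℂ h (ball c r) := by
    apply DifferentiableOn.sub_const
    exact hdf.div hfd fun z hz => (hf z hz).1
  have hT : ∀ z ∈ ball c r, T1 a f z = f z * h z := by
    intro z hz
    have := (hf z hz).1
    simp only [T1, hh]
    field_simp
  have hclose : ∀ z ∈ ball c r, ‖h z - ℓ‖ ≤ θ * ℓ := by
    intro z hz
    have h1 := (hf z hz).2
    have h2 : min (θ / 2) (δ' / 2) * ℓ ≤ θ / 2 * ℓ := by
      gcongr
      exact min_le_left _ _
    calc ‖h z - ℓ‖ = ‖(deriv f z / f z - ℓ) - a‖ := by simp only [hh]; congr 1; ring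
      _ ≤ ‖deriv f z / f z - ℓ‖ + ‖a‖ := norm_sub_le _ _
      _ ≤ θ * ℓ := by linarith
  have hlow : ∀ z ∈ ball c r, ℓ / 2 ≤ ‖h z‖ := by
    intro z hz
    have h1 := hclose z hz
    have h2 := norm_sub_norm_le (ℓ : ℂ) (ℓ - h z)
    rw [sub_sub_cancel, Complex.norm_real, Real.norm_of_nonneg hℓ0.le, norm_sub_rev (ℓ : ℂ)] at h2
    nlinarith
  have hup : ∀ z ∈ ball c r, ‖h z‖ ≤ 2 * ℓ := by
    intro z hz
    have h1 := hclose z hz
    have h2 := norm_add_le (h z - ℓ) (ℓ : ℂ)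
    rw [sub_add_cancel, Complex.norm_real, Real.norm_of_nonneg hℓ0.le] at h2
    nlinarith
  have hsub : ball c r' ⊆ ball c r := ball_subset_ball hr.le
  have hne : ∀ z ∈ ball c r, h z ≠ 0 := by
    intro z hz h0
    have := hlow z hz
    rw [h0, norm_zero] at this
    linarith
  refine ⟨⟨(T1_diff isOpen_ball a hfd).mono hsub, fun z hz => ⟨?_, ?_⟩⟩, fun z hz => ⟨?_, ?_⟩⟩
  · rw [hT z (hsub hz)]
    exact mul_ne_zero (hf z (hsub hz)).1 (hne z (hsub hz))
  · have hz' := hsub hz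
    have hev : T1 a f =ᶠ[𝓝 z] fun z => f z * h z := by
      filter_upwards [isOpen_ball.mem_nhds hz'] with x hx using hT x hx
    have d1 := hfd.differentiableAt (isOpen_ball.mem_nhds hz')
    have d2 := hhd.differentiableAt (isOpen_ball.mem_nhds hz')
    have hb : ball z D ⊆ ball c r := ball_sub_ball hz
    have hcau : ‖deriv h z‖ ≤ 2 * (θ * ℓ) / D := by
      have h3 := cauchy_deriv (f := fun w => h w - ℓ) (z := z) (r := D) (B := θ * ℓ) hD0
        ((hhd.mono hb).sub_const _) (fun w hw => hclose w (hb hw))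
      rwa [deriv_sub_const] at h3
    have e : deriv (T1 a f) z / T1 a f z = deriv f z / f z + deriv h z / h z := by
      rw [hev.deriv_eq, hT z hz', deriv_fun_mul d1 d2]
      have h4 := (hf z hz').1
      have h5 := hne z hz'
      field_simp
    rw [e]
    have h6 : ‖deriv h z / h z‖ ≤ δ' / 2 * ℓ := by
      rw [norm_div, div_le_iff₀ (norm_pos_iff.2 (hne z hz'))]
      have h7 : 2 * (θ * ℓ) / D ≤ δ' / 8 * ℓ := by
        rw [div_le_iff₀ hD0]
        have : θ * ℓ ≤ δ' * D / 16 * ℓ := by gcongr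
        linarith
      have h8 : δ' / 8 * ℓ ≤ δ' / 2 * ℓ * ‖h z‖ := by
        have h9 := hlow z hz'
        have h10 : δ' / 2 * ℓ * (1 / 2) ≤ δ' / 2 * ℓ * ‖h z‖ := by
          gcongr
          linarith
        have h11 : 0 < δ' * ℓ := by positivity
        linarith
      linarith
    have h7 := (hf z hz').2
    have h8 : min (θ / 2) (δ' / 2) * ℓ ≤ δ' / 2 * ℓ := by
      gcongr
      exact min_le_right _ _
    calc ‖deriv f z / f z + deriv h z / h z - ℓ‖ = ‖(deriv f z / f z - ℓ) + deriv h z / h z‖ := by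
          congr 1; ring
      _ ≤ ‖deriv f z / f z - ℓ‖ + ‖deriv h z / h z‖ := norm_add_le _ _
      _ ≤ δ' * ℓ := by linarith
  · rw [hT z (hsub hz), norm_mul, mul_comm]
    gcongr
    exact hlow z (hsub hz)
  · rw [hT z (hsub hz), norm_mul, mul_comm]
    gcongr
    exact hup z (hsub hz)

theorem LD_list (l : List ℂ) : ∀ (r r' δ' : ℝ), r' < r → 0 < δ' →
    ∃ δ L : ℝ, 0 < δ ∧ 1 ≤ L ∧ ∀ (f : ℂ → ℂ) (c : ℂ) (ℓ : ℝ), L ≤ ℓ → LD f c r ℓ δ →
      LD (TT l f) c r' ℓ δ' ∧ ∀ z ∈ ball c r', (ℓ / 2) ^ l.length * ‖f z‖ ≤ ‖TT l f z‖ ∧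
        ‖TT l f z‖ ≤ (2 * ℓ) ^ l.length * ‖f z‖ := by
  induction l with
  | nil =>
    intro r r' δ' hr hδ'
    refine ⟨δ', 1, hδ', le_rfl, fun f c ℓ hℓ hLD => ⟨⟨hLD.1.mono (ball_subset_ball hr.le),
      fun z hz => hLD.2 z (ball_subset_ball hr.le hz)⟩, fun z hz => ?_⟩⟩
    simp
  | cons a l ih =>
    intro r r' δ' hr hδ'
    obtain ⟨δ1, L1, hδ1, hL1, h1⟩ := ih ((r + r') / 2) r' δ' (by linarith) hδ'
    obtain ⟨δ2, L2, hδ2, hL2, h2⟩ := LD_step a r ((r + r') / 2) δ1 (by linarith) hδ1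
    refine ⟨δ2, max L1 L2, hδ2, hL1.trans (le_max_left _ _), fun f c ℓ hℓ hLD => ?_⟩
    have e1 : L1 ≤ ℓ := (le_max_left _ _).trans hℓ
    have e2 : L2 ≤ ℓ := (le_max_right _ _).trans hℓ
    have hℓ0 : 0 ≤ ℓ := by linarith
    obtain ⟨g1, g2⟩ := h2 f c ℓ e2 hLD
    obtain ⟨g3, g4⟩ := h1 (T1 a f) c ℓ e1 g1
    refine ⟨g3, fun z hz => ?_⟩
    have hz' : z ∈ ball c ((r + r') / 2) := ball_subset_ball (by linarith) hz
    obtain ⟨k1, k2⟩ := g4 z hz
    obtain ⟨k3, k4⟩ := g2 z hz'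
    simp only [TT_cons, List.length_cons]
    constructor
    · refine le_trans ?_ k1
      rw [pow_succ, mul_assoc]
      gcongr
    · refine k2.trans ?_
      rw [pow_succ, mul_assoc]
      gcongr

end Pool.Agent.N799.SP
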