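import Pool.Agent.N799.SP.FSize
import Pool.Agent.R307.Rect

/-!
# Zeros of `ζ` force zeros of `TT l Zf`
-/

set_option autoImplicit false

open Complex Metric Set Filter Topology

namespace Pool.Agent.N799.SP

open H345 (XX)
open H345.Chi (L2)

/-- A three lines estimate in a rectangle. -/
theorem three {f : ℂ → ℂ} {w1 : ℂ} {σ1 σ2 h ℓ κ A B G C : ℝ} (hℓ : 0 < ℓ) (hκ : 0 < κ) (hh : 0 < h)
    (h1 : σ1 ≤ w1.re) (h2 : w1.re ≤ σ2) (h12 : σ1 < σ2) (h3 : σ2 - σ1 ≤ 3)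
    (hf : ∀ w : ℂ, σ1 ≤ w.re → w.re ≤ σ2 → |w.im - w1.im| ≤ h → DifferentiableAt ℂ f w)
    (hA : ∀ w : ℂ, w.re = σ1 → |w.im - w1.im| ≤ h → ‖f w‖ ≤ Real.exp A)
    (hB : ∀ w : ℂ, w.re = σ2 → |w.im - w1.im| ≤ h → ‖f w‖ ≤ Real.exp B)
    (hG : ∀ w : ℂ, σ1 ≤ w.re → w.re ≤ σ2 → |w.im - w1.im| ≤ h → ‖f w‖ ≤ Real.exp G)
    (cA : A + ℓ * (3 / 4 * (σ1 - w1.re) + 9 * κ) ≤ C)
    (cB : B + ℓ * (3 / 4 * (σ2 - w1.re) + 9 * κ) ≤ C)
    (cG : G + ℓ * (9 / 4 + 9 * κ - κ * h ^ 2) ≤ C) : ‖f w1‖ ≤ Real.exp C := by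
  set g : ℂ → ℂ := fun w => f w * Complex.exp (ℓ * ((3 / 4 : ℝ) * (w - w1) + κ * (w - w1) ^ 2)) with hg
  have hn : ∀ w : ℂ, ‖g w‖ = ‖f w‖ * Real.exp (ℓ * (3 / 4 * (w.re - w1.re) +
      κ * ((w.re - w1.re) ^ 2 - (w.im - w1.im) ^ 2))) := by
    intro w
    simp only [hg]
    rw [norm_mul, Complex.norm_exp]
    congr 2
    have e : ((w - w1) ^ 2).re = (w.re - w1.re) ^ 2 - (w.im - w1.im) ^ 2 := by
      rw [pow_two, mul_re, sub_re, sub_im]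
      ring
    rw [re_ofReal_mul, add_re, re_ofReal_mul, re_ofReal_mul, e, sub_re]
  have hgw1 : g w1 = f w1 := by simp [hg]
  have hmain : ∀ w : ℂ, σ1 ≤ w.re → w.re ≤ σ2 → ∀ P e : ℝ, ‖f w‖ ≤ Real.exp P →
      3 / 4 * (w.re - w1.re) + κ * ((w.re - w1.re) ^ 2 - (w.im - w1.im) ^ 2) ≤ e → P + ℓ * e ≤ C →
      ‖g w‖ ≤ Real.exp C := by
    intro w hw1 hw2 P e hP he hC
    rw [hn]
    calc ‖f w‖ * Real.exp (ℓ * (3 / 4 * (w.re - w1.re) +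
          κ * ((w.re - w1.re) ^ 2 - (w.im - w1.im) ^ 2))) ≤ Real.exp P * Real.exp (ℓ * e) := by gcongr
      _ = Real.exp (P + ℓ * e) := by rw [Real.exp_add]
      _ ≤ _ := Real.exp_le_exp.2 hC
  have hsq : ∀ w : ℂ, σ1 ≤ w.re → w.re ≤ σ2 → (w.re - w1.re) ^ 2 ≤ 9 := by
    intro w hw1 hw2
    have : |w.re - w1.re| ≤ 3 := by rw [abs_le]; constructor <;> linarith
    nlinarith [sq_abs (w.re - w1.re), abs_nonneg (w.re - w1.re)]
  have hgd : ∀ w : ℂ, σ1 ≤ w.re → w.re ≤ σ2 → |w.im - w1.im| ≤ h → DifferentiableAt ℂ g w := by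
    intro w k1 k2 k3
    simp only [hg]
    refine (hf w k1 k2 k3).mul ?_
    fun_prop
  rw [← hgw1]
  have hside : ∀ y : ℝ, w1.im - h ≤ y → y ≤ w1.im + h → |y - w1.im| ≤ h := by
    intro y k1 k2; rw [abs_le]; constructor <;> linarith
  refine Pool.Agent.R307.rect_max (a := σ1) (b := σ2) (c := w1.im - h) (d := w1.im + h) h12
    (by linarith) ?_ ?_ ?_ ?_ ?_ ?_ h1 h2 (by linarith) (by linarith)
  · intro w hw
    rw [mem_reProdIm] at hw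
    exact (hgd w hw.1.1 hw.1.2 (hside _ hw.2.1 hw.2.2)).continuousAt.continuousWithinAt
  · intro w hw
    rw [mem_reProdIm] at hw
    exact (hgd w hw.1.1.le hw.1.2.le (hside _ hw.2.1.le hw.2.2.le)).differentiableWithinAt
  · intro y k1 k2
    have k := hside y k1 k2
    refine hmain ⟨σ1, y⟩ le_rfl (by simp only; linarith) A (3 / 4 * (σ1 - w1.re) + 9 * κ)
      (hA ⟨σ1, y⟩ rfl k) ?_ cA
    have := hsq ⟨σ1, y⟩ le_rfl (by simp only; linarith)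
    simp only at this ⊢
    nlinarith [sq_nonneg (y - w1.im)]
  · intro y k1 k2
    have k := hside y k1 k2
    refine hmain ⟨σ2, y⟩ (by simp only; linarith) le_rfl B (3 / 4 * (σ2 - w1.re) + 9 * κ)
      (hB ⟨σ2, y⟩ rfl k) ?_ cB
    have := hsq ⟨σ2, y⟩ (by simp only; linarith) le_rfl
    simp only at this ⊢
    nlinarith [sq_nonneg (y - w1.im)]
  · intro x k1 k2
    have k := hside (w1.im - h) le_rfl (by linarith)
    refine hmain ⟨x, w1.im - h⟩ k1 k2 G (9 / 4 + 9 * κ - κ * h ^ 2) (hG ⟨x, w1.im - h⟩ k1 k2 k) ?_ cG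
    have := hsq ⟨x, w1.im - h⟩ k1 k2
    simp only at this ⊢
    nlinarith
  · intro x k1 k2
    have k := hside (w1.im + h) (by linarith) le_rfl
    refine hmain ⟨x, w1.im + h⟩ k1 k2 G (9 / 4 + 9 * κ - κ * h ^ 2) (hG ⟨x, w1.im + h⟩ k1 k2 k) ?_ cG
    have := hsq ⟨x, w1.im + h⟩ k1 k2
    simp only at this ⊢
    nlinarith

/-- growth of `Zf` to the left of `3/2` -/
theorem Zf_growth2 : ∃ C : ℝ, 1 ≤ C ∧ ∀ w : ℂ, w.re ≤ 3 / 2 → 1 ≤ w.im →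
    ‖Zf w‖ ≤ C * w.im ^ 2 := by
  obtain ⟨C1, hC1, h1⟩ := zeta_growth
  refine ⟨C1, hC1, fun w hw ht => ?_⟩
  have e : Zf w = riemannZeta ((starRingEnd ℂ) ⟨1 - w.re, w.im⟩) := by
    unfold Zf
    congr 1
    apply Complex.ext <;> simp
  rw [e, norm_zeta_conj]
  exact h1 ⟨1 - w.re, w.im⟩ (by simp only; linarith) ht

/-- reflection of the zeta function -/
theorem norm_zeta_refl (b y : ℝ) : ‖riemannZeta ⟨1 - b, y⟩‖ = ‖Zf ⟨b, y⟩‖ := by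
  have e : Zf ⟨b, y⟩ = riemannZeta ((starRingEnd ℂ) ⟨1 - b, y⟩) := by
    unfold Zf
    congr 1
    apply Complex.ext <;> simp
  rw [e, norm_zeta_conj]

end Pool.Agent.N799.SP
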