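import Pool.Agent.N799.SP.Op
import Pool.Agent.N799.SP.Prop
import Pool.Agent.H345R2.Chi
import Pool.Agent.H52R4.PZT1

/-!
# Facts on the zeta function used for the comparison of the zeros of its derivatives
-/

set_option autoImplicit false

open Complex Metric Set Filter Topology

namespace Pool.Agent.N799.SP

open H345 (XX)
open H345.Chi (L2)

/-- `ζ(1 - w)` -/
noncomputable def Zf (w : ℂ) : ℂ := riemannZeta (1 - w)

theorem ne_one_of_im {s : ℂ} (hs : s.im ≠ 0) : s ≠ 1 := by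
  intro h
  rw [h] at hs
  simp at hs

theorem Zf_diffAt {w : ℂ} (hw : w.im ≠ 0) : DifferentiableAt ℂ Zf w := by
  have h1 : (1 - w) ≠ 1 := ne_one_of_im (by simpa using hw)
  have h2 : DifferentiableAt ℂ riemannZeta (1 - w) := differentiableAt_riemannZeta h1
  exact DifferentiableAt.comp w h2 ((differentiableAt_const _).sub differentiableAt_id)

theorem Zf_eq {w : ℂ} (h0 : 0 < w.re) (h1 : w.im ≠ 0) : Zf w = XX w * riemannZeta w := by
  refine H345.zeta_fe w (fun n h => ?_) (ne_one_of_im h1)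
  rw [h] at h0
  simp at h0
  have : (0 : ℝ) ≤ n := Nat.cast_nonneg n
  linarith

/-- bounds of zeta to the right of `3/2` -/
theorem zeta_right_bounds : ∃ C : ℝ, 1 ≤ C ∧ ∀ w : ℂ, 3 / 2 ≤ w.re → riemannZeta w ≠ 0 ∧
    ‖riemannZeta w‖ ≤ C ∧ C⁻¹ ≤ ‖riemannZeta w‖ ∧ ‖deriv riemannZeta w / riemannZeta w‖ ≤ C := by
  have hsum : Summable (fun n : ℕ => 1 / (n : ℝ) ^ (5 / 4 : ℝ)) :=
    Real.summable_one_div_nat_rpow.2 (by norm_num)
  set B : ℝ := ∑' n : ℕ, 1 / (n : ℝ) ^ (5 / 4 : ℝ) with hB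
  have hB0 : 0 ≤ B := tsum_nonneg fun n => by positivity
  have hup : ∀ s : ℂ, 5 / 4 ≤ s.re → ‖riemannZeta s‖ ≤ B := by
    intro s hs
    rw [zeta_eq_tsum_one_div_nat_cpow (by linarith)]
    refine tsum_of_norm_bounded hsum.hasSum fun n => ?_
    rw [norm_div, norm_one]
    rcases Nat.eq_zero_or_pos n with h | h
    · subst h
      have hs0 : s ≠ 0 := by
        intro h0; rw [h0] at hs; norm_num at hs
      simp [Complex.zero_cpow hs0]
    · rw [Complex.norm_natCast_cpow_of_pos h]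
      have h1 : (1 : ℝ) ≤ n := by exact_mod_cast h
      gcongr
  have hinv : ∀ s : ℂ, 5 / 4 ≤ s.re → riemannZeta s ≠ 0 ∧ ‖(riemannZeta s)⁻¹‖ ≤ B := by
    intro s hs
    have hs1 : 1 < s.re := by linarith
    have h0 : riemannZeta s ≠ 0 := riemannZeta_ne_zero_of_one_lt_re hs1
    refine ⟨h0, ?_⟩
    have h1 := ArithmeticFunction.LSeries_zeta_mul_Lseries_moebius hs1
    rw [ArithmeticFunction.LSeries_zeta_eq_riemannZeta hs1] at h1
    have h2 := inv_eq_of_mul_eq_one_right h1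
    rw [h2]
    have hterm : ∀ n : ℕ, ‖LSeries.term (fun n => ((ArithmeticFunction.moebius n : ℤ) : ℂ)) s n‖ ≤
        1 / (n : ℝ) ^ (5 / 4 : ℝ) := by
      intro n
      rw [LSeries.norm_term_eq]
      split_ifs with hn
      · positivity
      · have hn1 : (1 : ℝ) ≤ n := by exact_mod_cast Nat.one_le_iff_ne_zero.2 hn
        have hmu : ‖((ArithmeticFunction.moebius n : ℤ) : ℂ)‖ ≤ 1 := by
          rw [Complex.norm_intCast]
          exact_mod_cast ArithmeticFunction.abs_moebius_le_one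
        gcongr
    exact tsum_of_norm_bounded hsum.hasSum hterm
  refine ⟨max 1 (8 * B * B), le_max_left _ _, fun w hw => ?_⟩
  obtain ⟨h0, h1⟩ := hinv w (by linarith)
  have h2 := hup w (by linarith)
  have hB1 : 1 ≤ B := by
    have h3 : ‖riemannZeta w‖ * ‖(riemannZeta w)⁻¹‖ = 1 := by
      rw [← norm_mul, mul_inv_cancel₀ h0, norm_one]
    have h4 : ‖riemannZeta w‖ * ‖(riemannZeta w)⁻¹‖ ≤ B * B :=
      mul_le_mul h2 h1 (norm_nonneg _) hB0
    nlinarith
  refine ⟨h0, ?_, ?_, ?_⟩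
  · refine h2.trans ((le_max_right 1 _).trans' ?_)
    nlinarith
  · rw [norm_inv] at h1
    have h5 : 0 < ‖riemannZeta w‖ := norm_pos_iff.2 h0
    apply inv_le_of_inv_le₀ h5
    refine h1.trans ((le_max_right 1 _).trans' ?_)
    nlinarith
  · have hd : ‖deriv riemannZeta w‖ ≤ 2 * B / (1 / 4) := by
      apply cauchy_deriv (by norm_num)
      · intro z hz
        have hz1 : 5 / 4 < z.re := by
          rw [mem_ball, dist_eq_norm] at hz
          have := (abs_lt.1 (lt_of_le_of_lt (abs_re_le_norm (z - w)) hz)).1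
          rw [sub_re] at this
          linarith
        refine (differentiableAt_riemannZeta ?_).differentiableWithinAt
        intro h; rw [h] at hz1; norm_num at hz1
      · intro z hz
        apply hup
        rw [mem_ball, dist_eq_norm] at hz
        have := (abs_lt.1 (lt_of_le_of_lt (abs_re_le_norm (z - w)) hz)).1
        rw [sub_re] at this
        linarith
    rw [div_eq_mul_inv, norm_mul]
    calc ‖deriv riemannZeta w‖ * ‖(riemannZeta w)⁻¹‖ ≤ (2 * B / (1 / 4)) * B := by gcongr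
      _ = 8 * B * B := by ring
      _ ≤ _ := le_max_right _ _

/-- logarithmic derivative of `Zf` -/
theorem Zf_logDeriv {w : ℂ} (h0 : 0 < w.re) (h1 : 1 < w.im) (hz : riemannZeta w ≠ 0) :
    Zf w ≠ 0 ∧ deriv Zf w / Zf w = L2 w + deriv riemannZeta w / riemannZeta w := by
  have hX := H345.Chi.XX_ne h0 h1.le
  have e := Zf_eq h0 (by linarith : w.im ≠ 0)
  have hne : Zf w ≠ 0 := by rw [e]; exact mul_ne_zero hX hz
  refine ⟨hne, ?_⟩
  have hev : Zf =ᶠ[𝓝 w] fun z => XX z * riemannZeta z := by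
    have h2 : {z : ℂ | 0 < z.re} ∈ 𝓝 w := (isOpen_lt continuous_const continuous_re).mem_nhds h0
    have h3 : {z : ℂ | 1 < z.im} ∈ 𝓝 w := (isOpen_lt continuous_const continuous_im).mem_nhds h1
    filter_upwards [h2, h3] with z hz2 hz3
    have hz2' : 0 < z.re := hz2
    have hz3' : 1 < z.im := hz3
    exact Zf_eq hz2' (by linarith : z.im ≠ 0)
  have d1 := H345.Chi.hasDerivAt_XX h0 h1.le
  have d2 : HasDerivAt riemannZeta (deriv riemannZeta w) w :=
    (differentiableAt_riemannZeta (ne_one_of_im (by linarith : w.im ≠ 0))).hasDerivAt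
  have d3 := (d1.mul d2).congr_of_eventuallyEq hev
  rw [d3.deriv, e]
  field_simp

/-- `L2` is close to a real logarithm everywhere in the right half plane. -/
theorem L2_far {s : ℂ} (h0 : 0 < s.re) (h1 : 1 ≤ s.im) :
    ‖L2 s - (Real.log ‖s + 2‖ : ℂ)‖ ≤ 16 := by
  have hdg := H370.DG.logDeriv_Gamma' h0
  have b2 := H345.Chi.tsum_er_le h0 h1
  have b3 := H345.Chi.tan_close h1
  have him : 1 / s.im ≤ 1 := by rw [div_le_one (by linarith)]; exact h1
  have b4 : ‖1 / s‖ ≤ 1 := by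
    rw [norm_div, norm_one, div_le_one]
    · exact h1.trans ((le_abs_self _).trans (abs_im_le_norm s))
    · exact lt_of_lt_of_le (by linarith) ((le_abs_self _).trans (abs_im_le_norm s))
  have b5 : ‖1 / (s + 1)‖ ≤ 1 := by
    have h3 : 1 ≤ ‖s + 1‖ := by
      have := (le_abs_self _).trans (abs_im_le_norm (s + 1))
      have e : (s + 1).im = s.im := by simp
      linarith
    rw [norm_div, norm_one, div_le_one (by linarith)]
    exact h3
  have b6 : ‖Complex.log (s + 2) - (Real.log ‖s + 2‖ : ℂ)‖ ≤ Real.pi := by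
    have e : Complex.log (s + 2) - (Real.log ‖s + 2‖ : ℂ) = ((s + 2).arg : ℂ) * I := by
      apply Complex.ext
      · simp [Complex.log_re]
      · simp [Complex.log_im]
    rw [e, norm_mul, norm_I, mul_one, Complex.norm_real, Real.norm_eq_abs]
    exact Complex.abs_arg_le_pi _
  have b7 : ‖(Real.log (2 * Real.pi) : ℂ)‖ ≤ 2 := by
    rw [Complex.norm_real, Real.norm_of_nonneg (Real.log_nonneg (by linarith [Real.pi_gt_three]))]
    rw [Real.log_le_iff_le_exp (by positivity)]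
    have h2 : (2.7 : ℝ) ≤ Real.exp 1 := by linarith [Real.exp_one_gt_d9]
    have h3 : Real.exp 2 = Real.exp 1 * Real.exp 1 := by rw [← Real.exp_add]; norm_num
    rw [h3]
    nlinarith [Real.pi_lt_d2]
  have b8 : ‖(Real.pi / 2 : ℂ) * I‖ ≤ 2 := by
    have : (Real.pi / 2 : ℂ) = ((Real.pi / 2 : ℝ) : ℂ) := by push_cast; ring
    rw [norm_mul, norm_I, mul_one, this, Complex.norm_real, Real.norm_of_nonneg (by positivity)]
    linarith [Real.pi_lt_d2]
  have e : L2 s - (Real.log ‖s + 2‖ : ℂ) =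
      (Complex.log (s + 2) - (Real.log ‖s + 2‖ : ℂ)) - (Real.log (2 * Real.pi) : ℂ)
        - 1 / s - 1 / (s + 1) + ∑' n, H370.DG.er n s -
        ((Real.pi / 2 : ℂ) * (Complex.sin (Real.pi * s / 2) / Complex.cos (Real.pi * s / 2)) -
          (Real.pi / 2 : ℂ) * I) - (Real.pi / 2 : ℂ) * I := by
    rw [L2, hdg]
    ring
  rw [e]
  have hpi := Real.pi_lt_d2
  have b2' : ‖∑' n, H370.DG.er n s‖ ≤ 2 := by
    refine b2.trans ?_
    rw [div_le_iff₀ (by linarith)]; linarith
  have b3' := b3.trans him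
  refine (norm_sub_le _ _).trans ?_
  refine (add_le_add (norm_sub_le _ _) le_rfl).trans ?_
  refine (add_le_add (add_le_add (norm_add_le _ _) le_rfl) le_rfl).trans ?_
  refine (add_le_add (add_le_add (add_le_add (norm_sub_le _ _) le_rfl) le_rfl) le_rfl).trans ?_
  refine (add_le_add (add_le_add (add_le_add (add_le_add (norm_sub_le _ _) le_rfl) le_rfl) le_rfl)
    le_rfl).trans ?_
  refine (add_le_add (add_le_add (add_le_add (add_le_add (add_le_add (norm_sub_le _ _) le_rfl)
    le_rfl) le_rfl) le_rfl) le_rfl).trans ?_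
  linarith

/-- polynomial growth of zeta in a wide strip -/
theorem zeta_growth : ∃ C : ℝ, 1 ≤ C ∧ ∀ s : ℂ, -(1 / 2) ≤ s.re → 1 ≤ s.im →
    ‖riemannZeta s‖ ≤ C * s.im ^ 2 := by
  obtain ⟨C1, hC1, h1⟩ := Pool.Agent.H52R4.PZT1.zeta_strip
  obtain ⟨C2, hC2, h2⟩ := zeta_right_bounds
  refine ⟨max C1 C2, hC2.trans (le_max_right _ _), fun s hs ht => ?_⟩
  have hp : 1 ≤ s.im ^ 2 := by nlinarith
  rcases le_or_gt s.re 2 with h | h
  · have := h1 s hs h (by rw [abs_of_nonneg (by linarith)]; exact ht)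
    rw [abs_of_nonneg (by linarith)] at this
    refine this.trans ?_
    gcongr
    exact le_max_left _ _
  · have := (h2 s (by linarith)).2.1
    calc ‖riemannZeta s‖ ≤ max C1 C2 * 1 := by
          rw [mul_one]; exact this.trans (le_max_right _ _)
      _ ≤ _ := by gcongr

theorem norm_zeta_conj (s : ℂ) : ‖riemannZeta ((starRingEnd ℂ) s)‖ = ‖riemannZeta s‖ := by
  rw [riemannZeta_conj, Complex.norm_conj]

/-- polynomial growth of `Zf` -/
theorem Zf_growth : ∃ C : ℝ, 1 ≤ C ∧ ∀ w : ℂ, 1 / 4 ≤ w.re → w.re ≤ 4 → 1 ≤ w.im →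
    ‖Zf w‖ ≤ C * w.im ^ 6 := by
  obtain ⟨C1, hC1, h1⟩ := zeta_growth
  obtain ⟨K, hK, h2⟩ := H345.Chi.XX_size
  refine ⟨max C1 (Real.exp K * C1), hC1.trans (le_max_left _ _), fun w hw0 hw1 ht => ?_⟩
  have hC1' : 0 ≤ C1 := by linarith
  have hp : w.im ^ 2 ≤ w.im ^ 6 := pow_le_pow_right₀ ht (by norm_num)
  rcases le_or_gt w.re (3 / 2) with h | h
  · have e : Zf w = riemannZeta ((starRingEnd ℂ) ⟨1 - w.re, w.im⟩) := by
      unfold Zf
      congr 1
      apply Complex.ext <;> simp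
    rw [e, norm_zeta_conj]
    refine (h1 ⟨1 - w.re, w.im⟩ (by simp only; linarith) ht).trans ?_
    simp only
    calc C1 * w.im ^ 2 ≤ max C1 (Real.exp K * C1) * w.im ^ 2 := by
          gcongr; exact le_max_left _ _
      _ ≤ _ := by gcongr
  · rw [Zf_eq (by linarith) (by linarith), norm_mul]
    have h3 := (h2 w (by linarith) hw1 ht).2
    have h4 := h1 w (by linarith) ht
    have h5 : w.im ^ (w.re - 1 / 2) ≤ w.im ^ 4 := by
      rw [← Real.rpow_natCast]
      apply Real.rpow_le_rpow_of_exponent_le ht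
      push_cast
      linarith
    calc ‖XX w‖ * ‖riemannZeta w‖ ≤ (Real.exp K * w.im ^ (w.re - 1 / 2)) * (C1 * w.im ^ 2) := by
          gcongr
      _ ≤ (Real.exp K * w.im ^ 4) * (C1 * w.im ^ 2) := by gcongr
      _ = (Real.exp K * C1) * w.im ^ 6 := by ring
      _ ≤ _ := by
        gcongr
        exact le_max_right _ _

end Pool.Agent.N799.SP
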